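import Pool.Agent.Y275.NW.Boot

set_option autoImplicit false

/-! The argument of Sundman and Birkhoff for an orbit on which `J ^ 2 ≤ C √I`. -/

namespace Pool.Agent.T6.H53.NB

open Set Filter Topology

/-- derivative of Sundman's function `(J ^ 2 + c ^ 2) / (2 ρ) - E ρ` -/
theorem F_der (I J T ψ : ℝ → ℝ) (E c2 : ℝ)
    (hI : ∀ s, HasDerivAt I (2 * (ψ s * J s)) s) (hJ : ∀ s, HasDerivAt J (ψ s * (T s + E)) s)
    (hIpos : ∀ s, 0 < I s) (s : ℝ) :
    HasDerivAt (fun s => (J s ^ 2 + c2) / (2 * Real.sqrt (I s)) - E * Real.sqrt (I s))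
      (ψ s * (J s / Real.sqrt (I s)) * (T s - (J s ^ 2 + c2) / (2 * I s))) s := by
  have h0 := hIpos s
  have hρ : HasDerivAt (fun s => Real.sqrt (I s)) (2 * (ψ s * J s) / (2 * Real.sqrt (I s))) s :=
    (hI s).sqrt h0.ne'
  have hρ0 : 0 < Real.sqrt (I s) := Real.sqrt_pos.mpr h0
  have h1 := ((((hJ s).pow 2).add_const c2).div (hρ.const_mul 2) (by positivity)).sub
    (hρ.const_mul E)
  refine h1.congr_deriv ?_
  obtain ⟨r, hr⟩ : ∃ r, r = Real.sqrt (I s) := ⟨_, rfl⟩
  have hr2 : I s = r ^ 2 := by rw [hr]; exact (Real.sq_sqrt h0.le).symm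
  rw [← hr] at hρ0 ⊢
  rw [hr2]
  simp only [Pi.pow_apply]
  field_simp
  ring

theorem core (I J T ψ τ : ℝ → ℝ) (E C c2 : ℝ)
    (hI : ∀ s, HasDerivAt I (2 * (ψ s * J s)) s) (hJ : ∀ s, HasDerivAt J (ψ s * (T s + E)) s)
    (hτ : ∀ s, HasDerivAt τ (ψ s) s) (hψ : ∀ s, 0 < ψ s) (hIpos : ∀ s, 0 < I s)
    (hSun : ∀ s, J s ^ 2 + c2 ≤ I s * (2 * T s)) (hC : ∀ s, J s ^ 2 ≤ C * Real.sqrt (I s))
    (hE : E ≤ 0) (hc : 0 < c2) (hlim : Tendsto τ atTop atTop) (hJ0 : 0 ≤ J 0)
    (ρ1 : ℝ) (hρ1 : Real.sqrt (I 0) < ρ1) (h1 : 0 ≤ c2 + 2 * E * ρ1 ^ 2)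
    (h2 : C / 2 + c2 / (2 * ρ1) - E * ρ1 < c2 / (2 * Real.sqrt (I 0))) : False := by
  have hIc : Continuous I := continuous_iff_continuousAt.mpr fun s => (hI s).continuousAt
  have hρpos : ∀ s, 0 < Real.sqrt (I s) := fun s => Real.sqrt_pos.mpr (hIpos s)
  have hρ1pos : 0 < ρ1 := (hρpos 0).trans hρ1
  -- `T + E` is positive as long as `ρ ≤ ρ1`
  have hTE : ∀ s, Real.sqrt (I s) ≤ ρ1 → 0 ≤ T s + E := by
    intro s hs
    have e1 := hSun s
    have e2 : I s ≤ ρ1 ^ 2 := by
      have := pow_le_pow_left₀ (hρpos s).le hs 2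
      rwa [Real.sq_sqrt (hIpos s).le] at this
    have e3 : 0 ≤ c2 + 2 * E * I s := by nlinarith
    have e4 : 0 ≤ I s * (2 * (T s + E)) := by nlinarith [sq_nonneg (J s)]
    have e5 : 0 ≤ 2 * (T s + E) := by
      by_contra hcon
      push Not at hcon
      nlinarith [hIpos s]
    linarith
  have hTE' : ∀ s, Real.sqrt (I s) < ρ1 → 0 < T s + E := by
    intro s hs
    have e1 := hSun s
    have e2 : I s < ρ1 ^ 2 := by
      have := pow_lt_pow_left₀ hs (hρpos s).le two_ne_zero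
      rwa [Real.sq_sqrt (hIpos s).le] at this
    have e3 : 0 < c2 + 2 * E * I s := by
      rcases eq_or_lt_of_le hE with h | h
      · rw [h]; simpa using hc
      · nlinarith
    have e4 : 0 < I s * (2 * (T s + E)) := by nlinarith [sq_nonneg (J s)]
    have e5 : 0 < 2 * (T s + E) := by
      by_contra hcon
      push Not at hcon
      nlinarith [hIpos s]
    linarith
  -- `ρ < ρ1` for all times
  have hstay : ∀ t, 0 ≤ t → Real.sqrt (I t) < ρ1 := by
    have hb := Pool.Agent.Y275.NW.boot Unit (fun _ s => ρ1 - Real.sqrt (I s))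
      (fun _ => continuous_const.sub (hIc.sqrt)) (fun _ => by simpa using hρ1) (by
        intro Tm hT0 hall _
        have hle : ∀ t ∈ Icc 0 Tm, Real.sqrt (I t) ≤ ρ1 := fun t ht => by
          have := hall t ht.1 ht.2 ()
          linarith
        have hJm : MonotoneOn J (Icc 0 Tm) := by
          refine monotoneOn_of_deriv_nonneg (convex_Icc 0 Tm)
            (fun s _ => (hJ s).continuousAt.continuousWithinAt)
            (fun s _ => (hJ s).differentiableAt.differentiableWithinAt) ?_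
          intro s hs
          rw [(hJ s).deriv]
          exact mul_nonneg (hψ s).le (hTE s (hle s (interior_subset hs)))
        have hJn : ∀ t ∈ Icc 0 Tm, 0 ≤ J t := fun t ht =>
          hJ0.trans (hJm ⟨le_rfl, hT0⟩ ht ht.1)
        have hFm : MonotoneOn (fun s => (J s ^ 2 + c2) / (2 * Real.sqrt (I s))
            - E * Real.sqrt (I s)) (Icc 0 Tm) := by
          refine monotoneOn_of_deriv_nonneg (convex_Icc 0 Tm)
            (fun s _ => (F_der I J T ψ E c2 hI hJ hIpos s).continuousAt.continuousWithinAt)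
            (fun s _ =>
              (F_der I J T ψ E c2 hI hJ hIpos s).differentiableAt.differentiableWithinAt) ?_
          intro s hs
          rw [(F_der I J T ψ E c2 hI hJ hIpos s).deriv]
          have e1 := hJn s (interior_subset hs)
          have e2 := hψ s
          have e3 := hρpos s
          have e4 := hIpos s
          have e5 : 0 ≤ T s - (J s ^ 2 + c2) / (2 * I s) := by
            rw [sub_nonneg, div_le_iff₀ (by positivity)]
            have := hSun s
            linarith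
          positivity
        have hF := hFm ⟨le_rfl, hT0⟩ ⟨hT0, le_rfl⟩ hT0
        simp only at hF
        have h3 := hle Tm ⟨hT0, le_rfl⟩
        rcases lt_or_eq_of_le h3 with h4 | h4
        · simpa using h4
        · exfalso
          rw [h4] at hF
          have e1 : c2 / (2 * Real.sqrt (I 0)) ≤ (J 0 ^ 2 + c2) / (2 * Real.sqrt (I 0)) := by
            have := hρpos 0
            gcongr
            nlinarith [sq_nonneg (J 0)]
          have e2 : 0 ≤ -(E * Real.sqrt (I 0)) := by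
            have := (hρpos 0).le
            nlinarith
          have e3 : (J Tm ^ 2 + c2) / (2 * ρ1) ≤ C / 2 + c2 / (2 * ρ1) := by
            have e4 := hC Tm
            rw [h4] at e4
            rw [add_div]
            have e5 : J Tm ^ 2 / (2 * ρ1) ≤ C / 2 := by
              rw [div_le_iff₀ (by positivity)]
              linarith
            linarith
          linarith)
    intro t ht
    have := hb t ht ()
    linarith
  -- contradiction for large times
  have hJs : StrictMonoOn J (Ici 0) := by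
    refine strictMonoOn_of_deriv_pos (convex_Ici 0)
      (fun s _ => (hJ s).continuousAt.continuousWithinAt) ?_
    intro s hs
    rw [interior_Ici] at hs
    rw [(hJ s).deriv]
    exact mul_pos (hψ s) (hTE' s (hstay s (le_of_lt hs)))
  have hJ1 : 0 < J 1 := hJ0.trans_lt (hJs (mem_Ici.mpr le_rfl) (mem_Ici.mpr zero_le_one) one_pos)
  have hmono : MonotoneOn (fun s => I s - 2 * J 1 * τ s) (Ici 1) := by
    have hd : ∀ s, HasDerivAt (fun s => I s - 2 * J 1 * τ s)
        (2 * (ψ s * J s) - 2 * J 1 * ψ s) s := fun s => (hI s).sub ((hτ s).const_mul _)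
    refine monotoneOn_of_deriv_nonneg (convex_Ici 1)
      (fun s _ => (hd s).continuousAt.continuousWithinAt)
      (fun s _ => (hd s).differentiableAt.differentiableWithinAt) ?_
    intro s hs
    rw [interior_Ici] at hs
    rw [(hd s).deriv]
    have e1 : J 1 ≤ J s := hJs.monotoneOn (mem_Ici.mpr zero_le_one)
      (mem_Ici.mpr (zero_le_one.trans (le_of_lt hs))) (le_of_lt hs)
    nlinarith [hψ s]
  obtain ⟨s, hs1, hs2⟩ := ((hlim.eventually_gt_atTop
    ((ρ1 ^ 2 - I 1) / (2 * J 1) + τ 1)).and (eventually_ge_atTop 1)).exists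
  have h3 := hmono (mem_Ici.mpr le_rfl) (mem_Ici.mpr hs2) hs2
  simp only at h3
  have h4 := hstay s (zero_le_one.trans hs2)
  have h5 : I s < ρ1 ^ 2 := by
    have := pow_lt_pow_left₀ h4 (hρpos s).le two_ne_zero
    rwa [Real.sq_sqrt (hIpos s).le] at this
  have h6 : (ρ1 ^ 2 - I 1) / (2 * J 1) < τ s - τ 1 := by linarith
  rw [div_lt_iff₀ (by positivity)] at h6
  linarith

/-- lower bound of the moment of inertia, in the direction of time in which it increases -/
theorem core2 (I J T ψ τ : ℝ → ℝ) (E C c2 : ℝ) (hC0 : 0 < C)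
    (hI : ∀ s, HasDerivAt I (2 * (ψ s * J s)) s) (hJ : ∀ s, HasDerivAt J (ψ s * (T s + E)) s)
    (hτ : ∀ s, HasDerivAt τ (ψ s) s) (hψ : ∀ s, 0 < ψ s) (hIpos : ∀ s, 0 < I s)
    (hSun : ∀ s, J s ^ 2 + c2 ≤ I s * (2 * T s)) (hC : ∀ s, J s ^ 2 ≤ C * Real.sqrt (I s))
    (hE : E ≤ 0) (hc : 0 ≤ c2) (hlim : Tendsto τ atTop atTop) (hJ0 : 0 ≤ J 0) :
    c2 ≤ (C + 2 * Real.sqrt (c2 * (-2 * E))) * Real.sqrt (I 0) := by
  by_contra hcon
  push Not at hcon
  have hρ0 : 0 < Real.sqrt (I 0) := Real.sqrt_pos.mpr (hIpos 0)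
  obtain ⟨r, hr⟩ : ∃ r, r = Real.sqrt (I 0) := ⟨_, rfl⟩
  rw [← hr] at hcon hρ0
  have hc' : 0 < c2 := lt_of_le_of_lt (by positivity) hcon
  obtain ⟨c, hcc⟩ : ∃ c, c = Real.sqrt c2 := ⟨_, rfl⟩
  have hc0 : 0 < c := by rw [hcc]; exact Real.sqrt_pos.mpr hc'
  have hc2 : c2 = c ^ 2 := by rw [hcc]; exact (Real.sq_sqrt hc).symm
  obtain ⟨e, he⟩ : ∃ e, e = Real.sqrt (-2 * E) := ⟨_, rfl⟩
  have he0 : 0 ≤ e := by rw [he]; exact Real.sqrt_nonneg _
  have he2 : E = -(e ^ 2) / 2 := by rw [he, Real.sq_sqrt (by linarith)]; ring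
  have hce : Real.sqrt (c2 * (-2 * E)) = c * e := by rw [Real.sqrt_mul hc, ← hcc, ← he]
  rw [hce] at hcon
  rcases eq_or_lt_of_le he0 with h0 | h0
  · -- `E = 0`
    obtain ⟨η, hη⟩ : ∃ η, η = c2 / (2 * r) - C / 2 := ⟨_, rfl⟩
    have hη0 : 0 < η := by
      rw [hη, sub_pos, div_lt_div_iff₀ (by norm_num) (by positivity)]
      rw [← h0] at hcon
      nlinarith
    have hE0 : E = 0 := by rw [he2, ← h0]; norm_num
    have hηr : η * (2 * r) ≤ c2 := by
      rw [hη, sub_mul, div_mul_cancel₀ _ (by positivity)]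
      nlinarith
    refine core I J T ψ τ E C c2 hI hJ hτ hψ hIpos hSun hC hE hc' hlim hJ0 (c2 / η) ?_ ?_ ?_
    · rw [← hr, lt_div_iff₀ hη0]
      nlinarith
    · rw [hE0]; simpa using hc
    · rw [hE0, ← hr]
      have e1 : c2 / (2 * (c2 / η)) = η / 2 := by field_simp
      rw [e1]
      linarith
  · -- `E < 0`
    refine core I J T ψ τ E C c2 hI hJ hτ hψ hIpos hSun hC hE hc' hlim hJ0 (c / e) ?_ ?_ ?_
    · rw [← hr, lt_div_iff₀ h0]
      rw [hc2] at hcon
      have e1 : 0 < C * r := by positivity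
      have e2 : c * (2 * (r * e)) < c * c := by nlinarith
      have e3 := lt_of_mul_lt_mul_left e2 hc0.le
      nlinarith
    · rw [he2, hc2]
      have : c ^ 2 + 2 * (-(e ^ 2) / 2) * (c / e) ^ 2 = 0 := by field_simp; ring
      rw [this]
    · rw [he2, ← hr, hc2]
      have e1 : C / 2 + c ^ 2 / (2 * (c / e)) - -(e ^ 2) / 2 * (c / e) = (C + 2 * (c * e)) / 2 := by
        field_simp
        ring
      rw [e1, div_lt_div_iff₀ (by norm_num) (by positivity)]
      rw [hc2] at hcon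
      nlinarith

/-- both directions of time -/
theorem core3 (I J T ψ τ : ℝ → ℝ) (E C c2 : ℝ) (hC0 : 0 < C)
    (hI : ∀ s, HasDerivAt I (2 * (ψ s * J s)) s) (hJ : ∀ s, HasDerivAt J (ψ s * (T s + E)) s)
    (hτ : ∀ s, HasDerivAt τ (ψ s) s) (hψ : ∀ s, 0 < ψ s) (hIpos : ∀ s, 0 < I s)
    (hSun : ∀ s, J s ^ 2 + c2 ≤ I s * (2 * T s)) (hC : ∀ s, J s ^ 2 ≤ C * Real.sqrt (I s))
    (hE : E ≤ 0) (hc : 0 ≤ c2)
    (hlim : (0 ≤ J 0 ∧ Tendsto τ atTop atTop) ∨ (J 0 ≤ 0 ∧ Tendsto τ atBot atBot)) :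
    c2 ≤ (C + 2 * Real.sqrt (c2 * (-2 * E))) * Real.sqrt (I 0) := by
  rcases hlim with ⟨hJ0, hl⟩ | ⟨hJ0, hl⟩
  · exact core2 I J T ψ τ E C c2 hC0 hI hJ hτ hψ hIpos hSun hC hE hc hl hJ0
  · have hrev : ∀ (f f' : ℝ → ℝ), (∀ s, HasDerivAt f (f' s) s) →
        ∀ s, HasDerivAt (fun s => f (-s)) (-(f' (-s))) s := by
      intro f f' hf s
      have h1 : HasDerivAt (fun s => f (-s)) (f' (-s) * (-1)) s :=
        (hf (-s)).comp s (hasDerivAt_neg s)
      refine h1.congr_deriv ?_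
      ring
    have h := core2 (fun s => I (-s)) (fun s => -(J (-s))) (fun s => T (-s)) (fun s => ψ (-s))
      (fun s => -(τ (-s))) E C c2 hC0
      (fun s => (hrev I _ hI s).congr_deriv (by ring))
      (fun s => ((hrev J _ hJ s).neg).congr_deriv (by ring))
      (fun s => ((hrev τ _ hτ s).neg).congr_deriv (by ring))
      (fun s => hψ _) (fun s => hIpos _) (fun s => by simpa using hSun (-s))
      (fun s => by simpa using hC (-s)) hE hc
      (tendsto_neg_atBot_atTop.comp (hl.comp tendsto_neg_atTop_atBot))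
      (by simpa using hJ0)
    simpa using h

end Pool.Agent.T6.H53.NB
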