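import Pool.Agent.T6.H53.NB.Vir
import Pool.Agent.T6.H53.NB.Core

set_option autoImplicit false

/-! Angular momentum: conservation and the inequality of Sundman. -/

namespace Pool.Agent.T6.H53.NB

open Set Filter Topology Pool.Agent.Y516.NW Pool.Agent.Y438.NW MeasureTheory

variable {N : ℕ}

/-- a component of the angular momentum -/
noncomputable def comp (a b : Fin 3) (x : Cfg N × Cfg N) : ℝ :=
  ∑ i, (x.1 i a * x.2 i b - x.1 i b * x.2 i a)

/-- the square of the angular momentum -/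
noncomputable def ang2 (x : Cfg N × Cfg N) : ℝ := comp 1 2 x ^ 2 + comp 2 0 x ^ 2 + comp 0 1 x ^ 2

theorem LJ_eq (m : Fin N → ℝ) (hm : ∀ i, 0 < m i) (x : Cfg N × Cfg N) :
    LJ m x = ∑ i, inner ℝ (x.1 i) (x.2 i) := by
  unfold LJ
  refine Finset.sum_congr rfl fun i _ => ?_
  simp only [vel, inner_smul_right]
  rw [← mul_assoc, mul_inv_cancel₀ (hm i).ne', one_mul]

/-- `(q × p, q · p)` for one body -/
noncomputable def quad (q p : E3) : EuclideanSpace ℝ (Fin 4) :=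
  !₂[q 1 * p 2 - q 2 * p 1, q 2 * p 0 - q 0 * p 2, q 0 * p 1 - q 1 * p 0,
    q 0 * p 0 + q 1 * p 1 + q 2 * p 2]

theorem quad_norm (q p : E3) : ‖quad q p‖ = ‖q‖ * ‖p‖ := by
  have h1 : ‖quad q p‖ ^ 2 = (‖q‖ * ‖p‖) ^ 2 := by
    rw [mul_pow, EuclideanSpace.norm_sq_eq, EuclideanSpace.norm_sq_eq, EuclideanSpace.norm_sq_eq]
    simp only [Fin.sum_univ_four, Fin.sum_univ_three, quad, Real.norm_eq_abs, sq_abs]
    simp
    ring
  exact (pow_left_inj₀ (norm_nonneg _) (by positivity) two_ne_zero).1 h1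

/-- the inequality of Sundman -/
theorem sundman (m : Fin N → ℝ) (hm : ∀ i, 0 < m i) (x : Cfg N × Cfg N) :
    LJ m x ^ 2 + ang2 x ≤ In m x.1 * (2 * Ki m x) := by
  obtain ⟨w, hw⟩ : ∃ w : EuclideanSpace ℝ (Fin 4), w = ∑ i, quad (x.1 i) (x.2 i) := ⟨_, rfl⟩
  have h0 : ∀ k, w k = ∑ i, quad (x.1 i) (x.2 i) k := by
    intro k
    rw [hw]
    simp
  have h1 : ‖w‖ ^ 2 = LJ m x ^ 2 + ang2 x := by
    rw [EuclideanSpace.norm_sq_eq, LJ_eq m hm]
    simp only [Fin.sum_univ_four, Real.norm_eq_abs, sq_abs, h0]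
    have e1 : ∑ i, quad (x.1 i) (x.2 i) 3 = ∑ i, inner ℝ (x.1 i) (x.2 i) := by
      refine Finset.sum_congr rfl fun i _ => ?_
      simp [quad, PiLp.inner_apply, Fin.sum_univ_three]
      ring
    rw [e1]
    unfold ang2 comp
    simp only [quad]
    simp
    ring
  have h2 : ‖w‖ ≤ ∑ i, (Real.sqrt (m i) * ‖x.1 i‖) * (Real.sqrt (m i) * ‖vel m x i‖) := by
    rw [hw]
    refine (norm_sum_le _ _).trans (Finset.sum_le_sum fun i _ => ?_)
    rw [quad_norm]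
    simp only [vel, norm_smul, norm_inv, Real.norm_of_nonneg (hm i).le]
    have h3 := Real.mul_self_sqrt (hm i).le
    have h4 := (hm i).ne'
    have : Real.sqrt (m i) * ‖x.1 i‖ * (Real.sqrt (m i) * ((m i)⁻¹ * ‖x.2 i‖)) =
        (Real.sqrt (m i) * Real.sqrt (m i)) * (m i)⁻¹ * (‖x.1 i‖ * ‖x.2 i‖) := by ring
    rw [this, h3, mul_inv_cancel₀ h4, one_mul]
  have h3 := Finset.sum_mul_sq_le_sq_mul_sq Finset.univ (fun i => Real.sqrt (m i) * ‖x.1 i‖)
    (fun i => Real.sqrt (m i) * ‖vel m x i‖)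
  have h4 : ∑ i, (Real.sqrt (m i) * ‖x.1 i‖) ^ 2 = In m x.1 := by
    unfold In
    refine Finset.sum_congr rfl fun i _ => ?_
    rw [mul_pow, Real.sq_sqrt (hm i).le]
  have h5 : ∑ i, (Real.sqrt (m i) * ‖vel m x i‖) ^ 2 = 2 * Ki m x := by
    unfold Ki
    rw [Finset.mul_sum]
    refine Finset.sum_congr rfl fun i _ => ?_
    rw [mul_pow, Real.sq_sqrt (hm i).le]
    ring
  rw [h4, h5] at h3
  rw [← h1]
  exact (pow_le_pow_left₀ (norm_nonneg _) h2 2).trans h3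

/-- conservation of a component of the angular momentum -/
theorem comp_const (m : Fin N → ℝ) (hm : ∀ i, 0 < m i) (E : ℝ) (ψ : Cfg N × Cfg N → ℝ)
    (φ : ℝ → Cfg N × Cfg N → Cfg N × Cfg N) (hφ : IsFl m E ψ φ) (x : Cfg N × Cfg N)
    (hx : x ∈ Surf m E) (a b : Fin 3) (s : ℝ) : comp a b (φ s x) = comp a b x := by
  have hfl := hφ.flow x hx
  have hd1 : ∀ t, HasDerivAt (fun s => (φ s x).1) (Z m ψ (φ t x)).1 t := fun t =>
    (ContinuousLinearMap.fst ℝ (Cfg N) (Cfg N)).hasFDerivAt.comp_hasDerivAt t (hfl.2 t).2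
  have hd2 : ∀ t, HasDerivAt (fun s => (φ s x).2) (Z m ψ (φ t x)).2 t := fun t =>
    (ContinuousLinearMap.snd ℝ (Cfg N) (Cfg N)).hasFDerivAt.comp_hasDerivAt t (hfl.2 t).2
  have hq : ∀ t i k, HasDerivAt (fun s => (φ s x).1 i k)
      (ψ (φ t x) * ((m i)⁻¹ * (φ t x).2 i k)) t := by
    intro t i k
    have h1 := hasDerivAt_pi.mp (hd1 t) i
    have h2 := (EuclideanSpace.proj (𝕜 := ℝ) k : E3 →L[ℝ] ℝ).hasFDerivAt.comp_hasDerivAt t h1
    exact h2
  have hp : ∀ t i k, HasDerivAt (fun s => (φ s x).2 i k)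
      (ψ (φ t x) * ∑ j, (m i * m j / ‖(φ t x).1 j - (φ t x).1 i‖ ^ 3) *
        ((φ t x).1 j k - (φ t x).1 i k)) t := by
    intro t i k
    have h1 := hasDerivAt_pi.mp (hd2 t) i
    have h2 := (EuclideanSpace.proj (𝕜 := ℝ) k : E3 →L[ℝ] ℝ).hasFDerivAt.comp_hasDerivAt t h1
    refine h2.congr_deriv ?_
    simp [Z]
  have hder : ∀ t, HasDerivAt (fun s => comp a b (φ s x)) 0 t := by
    intro t
    unfold comp
    have h1 : HasDerivAt (fun s => ∑ i, ((φ s x).1 i a * (φ s x).2 i b -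
        (φ s x).1 i b * (φ s x).2 i a)) (∑ i, (((ψ (φ t x) * ((m i)⁻¹ * (φ t x).2 i a)) *
          (φ t x).2 i b + (φ t x).1 i a * (ψ (φ t x) * ∑ j, (m i * m j /
          ‖(φ t x).1 j - (φ t x).1 i‖ ^ 3) * ((φ t x).1 j b - (φ t x).1 i b))) -
          ((ψ (φ t x) * ((m i)⁻¹ * (φ t x).2 i b)) *
          (φ t x).2 i a + (φ t x).1 i b * (ψ (φ t x) * ∑ j, (m i * m j /
          ‖(φ t x).1 j - (φ t x).1 i‖ ^ 3) * ((φ t x).1 j a - (φ t x).1 i a))))) t :=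
      HasDerivAt.fun_sum fun i _ => ((hq t i a).mul (hp t i b)).sub ((hq t i b).mul (hp t i a))
    refine h1.congr_deriv ?_
    have e1 : ∀ i, ((ψ (φ t x) * ((m i)⁻¹ * (φ t x).2 i a)) *
          (φ t x).2 i b + (φ t x).1 i a * (ψ (φ t x) * ∑ j, (m i * m j /
          ‖(φ t x).1 j - (φ t x).1 i‖ ^ 3) * ((φ t x).1 j b - (φ t x).1 i b))) -
          ((ψ (φ t x) * ((m i)⁻¹ * (φ t x).2 i b)) *
          (φ t x).2 i a + (φ t x).1 i b * (ψ (φ t x) * ∑ j, (m i * m j /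
          ‖(φ t x).1 j - (φ t x).1 i‖ ^ 3) * ((φ t x).1 j a - (φ t x).1 i a))) =
          ∑ j, ψ (φ t x) * (m i * m j / ‖(φ t x).1 j - (φ t x).1 i‖ ^ 3) *
            ((φ t x).1 i a * (φ t x).1 j b - (φ t x).1 i b * (φ t x).1 j a) := by
      intro i
      simp only [Finset.mul_sum]
      have : ∀ (u v : ℝ) (f g : Fin N → ℝ), (u + ∑ j, f j) - (v + ∑ j, g j) =
          (u - v) + ∑ j, (f j - g j) := by
        intro u v f g
        rw [Finset.sum_sub_distrib]; ring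
      rw [this]
      have e2 : ψ (φ t x) * ((m i)⁻¹ * (φ t x).2 i a) * (φ t x).2 i b -
          ψ (φ t x) * ((m i)⁻¹ * (φ t x).2 i b) * (φ t x).2 i a = 0 := by ring
      rw [e2, zero_add]
      refine Finset.sum_congr rfl fun j _ => ?_
      ring
    rw [Finset.sum_congr rfl fun i _ => e1 i]
    have e3 : ∑ i, ∑ j, ψ (φ t x) * (m i * m j / ‖(φ t x).1 j - (φ t x).1 i‖ ^ 3) *
            ((φ t x).1 i a * (φ t x).1 j b - (φ t x).1 i b * (φ t x).1 j a) =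
        -∑ i, ∑ j, ψ (φ t x) * (m i * m j / ‖(φ t x).1 j - (φ t x).1 i‖ ^ 3) *
            ((φ t x).1 i a * (φ t x).1 j b - (φ t x).1 i b * (φ t x).1 j a) := by
      conv_lhs => rw [Finset.sum_comm]
      rw [← Finset.sum_neg_distrib]
      refine Finset.sum_congr rfl fun i _ => ?_
      rw [← Finset.sum_neg_distrib]
      refine Finset.sum_congr rfl fun j _ => ?_
      rw [norm_sub_rev, mul_comm (m j) (m i)]
      ring
    linarith
  have h1 : ∀ t, comp a b (φ t x) = comp a b (φ 0 x) := by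
    intro t
    exact is_const_of_deriv_eq_zero (fun t => (hder t).differentiableAt)
      (fun t => (hder t).deriv) t 0
  rw [h1 s, hfl.1]

theorem ang2_const (m : Fin N → ℝ) (hm : ∀ i, 0 < m i) (E : ℝ) (ψ : Cfg N × Cfg N → ℝ)
    (φ : ℝ → Cfg N × Cfg N → Cfg N × Cfg N) (hφ : IsFl m E ψ φ) (x : Cfg N × Cfg N)
    (hx : x ∈ Surf m E) (s : ℝ) : ang2 (φ s x) = ang2 x := by
  unfold ang2
  rw [comp_const m hm E ψ φ hφ x hx, comp_const m hm E ψ φ hφ x hx,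
    comp_const m hm E ψ φ hφ x hx]

end Pool.Agent.T6.H53.NB
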