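import Pool.Agent.T6.H53.NB.Smooth

set_option autoImplicit false

/-! Three bodies: at a nonwandering point the function of Lagrange and Jacobi is bounded by a
constant times the fourth root of the moment of inertia. -/

namespace Pool.Agent.T6.H53.NB

open Set Filter Topology Pool.Agent.Y516.NW Pool.Agent.Y438.NW

/-- the moment of inertia -/
noncomputable def In {N : ℕ} (m : Fin N → ℝ) (q : Cfg N) : ℝ := ∑ i, m i * ‖q i‖ ^ 2

/-- the kinetic energy -/
noncomputable def Ki {N : ℕ} (m : Fin N → ℝ) (x : Cfg N × Cfg N) : ℝ :=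
  ∑ i, m i * ‖vel m x i‖ ^ 2 / 2

/-- the potential -/
noncomputable def Po {N : ℕ} (m : Fin N → ℝ) (q : Cfg N) : ℝ :=
  ∑ i, ∑ j, m i * m j / ‖q i - q j‖ / 2

theorem surf_ener {N : ℕ} (m : Fin N → ℝ) (hm : ∀ i, 0 < m i) (E : ℝ) (x : Cfg N × Cfg N)
    (hx : x ∈ Surf m E) : Ki m x - Po m x.1 = E := by
  rw [← hx.2.2.2]
  unfold Ki Po
  congr 1
  refine Finset.sum_congr rfl fun i _ => ?_
  simp only [vel, norm_smul, norm_inv, Real.norm_of_nonneg (hm i).le]
  have := (hm i).ne'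
  field_simp

theorem surf_mom {N : ℕ} (m : Fin N → ℝ) (hm : ∀ i, 0 < m i) (E : ℝ) (x : Cfg N × Cfg N)
    (hx : x ∈ Surf m E) : ∑ i, m i • vel m x i = 0 := by
  rw [← hx.2.2.1]
  refine Finset.sum_congr rfl fun i _ => ?_
  simp only [vel, smul_smul, mul_inv_cancel₀ (hm i).ne', one_smul]

theorem univ3 : ∀ a b c : Fin 3, a ≠ b → c ≠ a → c ≠ b → (Finset.univ : Finset (Fin 3)) = {a, b, c} := by
  decide

theorem sum3 {G : Type*} [AddCommMonoid G] (f : Fin 3 → G) (a b c : Fin 3) (hab : a ≠ b)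
    (hca : c ≠ a) (hcb : c ≠ b) : ∑ i, f i = f a + (f b + f c) := by
  rw [univ3 a b c hab hca hcb, Finset.sum_insert, Finset.sum_insert, Finset.sum_singleton]
  · simpa using hcb.symm
  · simp only [Finset.mem_insert, Finset.mem_singleton, not_or]
    exact ⟨hab, hca.symm⟩

theorem pairs3 : ∀ a b c i j : Fin 3, a ≠ b → c ≠ a → c ≠ b →
    (i ≠ j ∧ ¬(i = a ∧ j = b) ∧ ¬(i = b ∧ j = a)) →
    (i = a ∧ j = c) ∨ (i = c ∧ j = a) ∨ (i = b ∧ j = c) ∨ (i = c ∧ j = b) := by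
  decide

theorem third : ∀ a b : Fin 3, a ≠ b → ∃ c, c ≠ a ∧ c ≠ b := by decide

/-- Cauchy-Schwarz: `J ^ 2 ≤ 2 T I` -/
theorem cs {N : ℕ} (m : Fin N → ℝ) (hm : ∀ i, 0 < m i) (x : Cfg N × Cfg N) :
    (LJ m x) ^ 2 ≤ In m x.1 * (2 * Ki m x) := by
  have h1 : |LJ m x| ≤ ∑ i, (Real.sqrt (m i) * ‖x.1 i‖) * (Real.sqrt (m i) * ‖vel m x i‖) := by
    unfold LJ
    refine (Finset.abs_sum_le_sum_abs _ _).trans (Finset.sum_le_sum fun i _ => ?_)
    rw [abs_mul, abs_of_pos (hm i)]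
    have h2 := abs_real_inner_le_norm (x.1 i) (vel m x i)
    have h3 := Real.mul_self_sqrt (hm i).le
    calc m i * |inner ℝ (x.1 i) (vel m x i)| ≤ m i * (‖x.1 i‖ * ‖vel m x i‖) := by
          have := (hm i).le
          gcongr
      _ = (Real.sqrt (m i) * Real.sqrt (m i)) * (‖x.1 i‖ * ‖vel m x i‖) := by rw [h3]
      _ = _ := by ring
  have h2 := Finset.sum_mul_sq_le_sq_mul_sq Finset.univ (fun i => Real.sqrt (m i) * ‖x.1 i‖)
    (fun i => Real.sqrt (m i) * ‖vel m x i‖)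
  have h3 : ∑ i, (Real.sqrt (m i) * ‖x.1 i‖) ^ 2 = In m x.1 := by
    unfold In
    refine Finset.sum_congr rfl fun i _ => ?_
    rw [mul_pow, Real.sq_sqrt (hm i).le]
  have h4 : ∑ i, (Real.sqrt (m i) * ‖vel m x i‖) ^ 2 = 2 * Ki m x := by
    unfold Ki
    rw [Finset.mul_sum]
    refine Finset.sum_congr rfl fun i _ => ?_
    rw [mul_pow, Real.sq_sqrt (hm i).le]
    ring
  rw [h3, h4] at h2
  refine le_trans ?_ h2
  rw [← sq_abs (LJ m x)]
  exact pow_le_pow_left₀ (abs_nonneg _) h1 2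

/-- decomposition of the kinetic energy and of the function of Lagrange and Jacobi for a pair
and a third body -/
theorem split3 {a b c : ℝ} (ha : 0 < a) (hb : 0 < b) (x y z u v w : E3)
    (h1 : a • x + (b • y + c • z) = 0) (h2 : a • u + (b • v + c • w) = 0) :
    a * inner ℝ x u + (b * inner ℝ y v + c * inner ℝ z w) =
      a * b / (a + b) * inner ℝ (x - y) (u - v) +
        c * (a + b + c) / (a + b) * inner ℝ z w := by
  have hs : a + b ≠ 0 := by positivity
  have e1 : a • x + b • y = -(c • z) := by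
    rw [← add_assoc] at h1
    exact eq_neg_of_add_eq_zero_left h1
  have e2 : a • u + b • v = -(c • w) := by
    rw [← add_assoc] at h2
    exact eq_neg_of_add_eq_zero_left h2
  have e3 : inner ℝ (a • x + b • y) (a • u + b • v) = c ^ 2 * inner ℝ z w := by
    rw [e1, e2, inner_neg_neg, inner_smul_left, inner_smul_right]
    simp only [conj_trivial]
    ring
  have e4 : inner ℝ (a • x + b • y) (a • u + b • v) =
      a ^ 2 * inner ℝ x u + a * b * inner ℝ x v + a * b * inner ℝ y u + b ^ 2 * inner ℝ y v := by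
    simp only [inner_add_left, inner_add_right, inner_smul_left, inner_smul_right, conj_trivial]
    ring
  have e5 : inner ℝ (x - y) (u - v) = inner ℝ x u - inner ℝ x v - inner ℝ y u + inner ℝ y v := by
    simp only [inner_sub_left, inner_sub_right]
    ring
  rw [e5]
  field_simp
  nlinarith [e3, e4]

theorem split3' {a b c : ℝ} (ha : 0 < a) (hb : 0 < b) (u v w : E3)
    (h2 : a • u + (b • v + c • w) = 0) :
    a * ‖u‖ ^ 2 + (b * ‖v‖ ^ 2 + c * ‖w‖ ^ 2) =
      a * b / (a + b) * ‖u - v‖ ^ 2 + c * (a + b + c) / (a + b) * ‖w‖ ^ 2 := by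
  have := split3 ha hb u v w u v w h2 h2
  simpa only [real_inner_self_eq_norm_sq] using this

/-- the velocity of the third body relative to the pair -/
theorem rel3 {a b c : ℝ} (ha : 0 < a) (hb : 0 < b) (hc : 0 < c) (u v w : E3)
    (h2 : a • u + (b • v + c • w) = 0) :
    ‖(a + b)⁻¹ • (a • u + b • v) - w‖ = (a + b + c) / (a + b) * ‖w‖ := by
  have hs : a + b ≠ 0 := by positivity
  have e2 : a • u + b • v = -(c • w) := by
    rw [← add_assoc] at h2
    exact eq_neg_of_add_eq_zero_left h2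
  have e3 : (a + b)⁻¹ • (a • u + b • v) - w = -(((a + b + c) / (a + b)) • w) := by
    rw [e2, smul_neg, smul_smul]
    have : (a + b + c) / (a + b) = (a + b)⁻¹ * c + 1 := by field_simp; ring
    rw [this, add_smul, one_smul]
    abel
  rw [e3, norm_neg, norm_smul, Real.norm_of_nonneg (by positivity)]

/-- the potential is at most `M ^ 2 / (2 r)` -/
theorem Po_le {N : ℕ} (m : Fin N → ℝ) (hm : ∀ i, 0 < m i) (M : ℝ) (hM : ∑ i, m i = M) (q : Cfg N)
    (r : ℝ) (hr : 0 < r) (h : ∀ i j, i ≠ j → r ≤ ‖q i - q j‖) : Po m q ≤ M ^ 2 / (2 * r) := by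
  have h1 : Po m q ≤ ∑ i, ∑ j, m i * m j / r / 2 := by
    unfold Po
    refine Finset.sum_le_sum fun i _ => Finset.sum_le_sum fun j _ => ?_
    have hi := hm i
    have hj := hm j
    by_cases hij : i = j
    · subst hij
      simp only [sub_self, norm_zero, div_zero, zero_div]
      positivity
    · have := h i j hij
      gcongr
  have h2 : ∑ i, ∑ j, m i * m j / r / 2 = M ^ 2 / (2 * r) := by
    rw [← hM, sq, Finset.sum_mul_sum, Finset.sum_div]
    refine Finset.sum_congr rfl fun i _ => ?_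
    rw [Finset.sum_div]
    refine Finset.sum_congr rfl fun j _ => ?_
    field_simp
  rw [← h2]
  exact h1

/-- `I ≤ M D ^ 2` when all distances are at most `D` -/
theorem In_le {N : ℕ} (m : Fin N → ℝ) (hm : ∀ i, 0 < m i) (M : ℝ) (hM : ∑ i, m i = M)
    (hM0 : 0 < M) (q : Cfg N) (hq : ∑ i, m i • q i = 0)
    (D : ℝ) (h : ∀ i j, ‖q i - q j‖ ≤ D) : In m q ≤ M * D ^ 2 := by
  have hle : ∀ i, ‖q i‖ ≤ D := by
    intro i
    have e1 : M • q i = ∑ j, m j • (q i - q j) := by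
      simp only [smul_sub, Finset.sum_sub_distrib, hq, sub_zero]
      rw [← Finset.sum_smul, hM]
    have e2 : M * ‖q i‖ ≤ M * D := by
      have : M * ‖q i‖ = ‖M • q i‖ := by rw [norm_smul, Real.norm_of_nonneg hM0.le]
      rw [this, e1]
      refine (norm_sum_le _ _).trans ?_
      rw [← hM, Finset.sum_mul]
      refine Finset.sum_le_sum fun j _ => ?_
      rw [norm_smul, Real.norm_of_nonneg (hm j).le]
      have := (hm j).le
      have := h i j
      gcongr
    exact le_of_mul_le_mul_left e2 hM0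
  unfold In
  rw [← hM, Finset.sum_mul]
  refine Finset.sum_le_sum fun i _ => ?_
  have := (hm i).le
  have := hle i
  gcongr

theorem three : ∀ a b i j k l : Fin 3, a ≠ b →
    (i ≠ j ∧ ¬(i = a ∧ j = b) ∧ ¬(i = b ∧ j = a)) →
    (k ≠ l ∧ ¬(k = a ∧ l = b) ∧ ¬(k = b ∧ l = a)) →
    ¬(¬((if i = b then a else i) = (if k = b then a else k) ∧
        (if j = b then a else j) = (if l = b then a else l)) ∧
      ¬((if i = b then a else i) = (if l = b then a else l) ∧
        (if j = b then a else j) = (if k = b then a else k))) := by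
  decide

/-- at a nonwandering point with a tight pair the third body is slow -/
theorem slow3 (m : Fin 3 → ℝ) (M μ : ℝ) (hμ : 0 < μ)
    (hm : ∀ i, μ ≤ m i) (hM : ∑ i, m i ≤ M) (E : ℝ) (hE : E ≤ 0)
    (ψ : Cfg 3 × Cfg 3 → ℝ) (φ : ℝ → Cfg 3 × Cfg 3 → Cfg 3 × Cfg 3) (hφ : IsFl m E ψ φ)
    (x : Cfg 3 × Cfg 3) (hx : x ∈ Surf m E) (hNW : NonW (Surf m E) φ x)
    (a b c : Fin 3) (hab : a ≠ b) (hca : c ≠ a) (hcb : c ≠ b) (w δ : ℝ) (hw : 0 < w) (hδ : 0 < δ)
    (hC : 16000 * (M + M ^ 2 / μ) ≤ w ^ 2 * δ)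
    (hX : ∀ i j, P2 a b i j → δ ≤ ‖x.1 i - x.1 j‖) (hr : ‖x.1 a - x.1 b‖ ≤ δ / 128) :
    (m a + m b + m c) / (m a + m b) * ‖vel m x c‖ < w := by
  have hmpos : ∀ i, 0 < m i := fun i => hμ.trans_le (hm i)
  have hpt := Pool.Agent.T6.H52.NW.pointwise (n := 2) le_rfl m M μ hμ hm hM E hE ψ φ hφ x hx hNW
    a b hab w δ hw hδ hC hX hr
  have hac : P2 a b a c := ⟨hca.symm, fun h => hcb h.2, fun h => hab h.1⟩
  have hvs : m a • vel m x a + (m b • vel m x b + m c • vel m x c) = 0 := by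
    rw [← sum3 (fun i => m i • vel m x i) a b c hab hca hcb]
    exact surf_mom m hmpos E x hx
  have hrel := rel3 (hmpos a) (hmpos b) (hmpos c) _ _ _ hvs
  have hcm : cm m a b (vel m x) a - cm m a b (vel m x) c =
      (m a + m b)⁻¹ • (m a • vel m x a + m b • vel m x b) - vel m x c := by
    simp [cm, hca, hcb]
  rw [← hrel, ← hcm]
  rcases hpt with ⟨i, j, hP, h1⟩ | ⟨i, j, k, l, hP, hP', hD, _⟩
  · have hnd : ¬ Pool.Agent.T6.H52.NW.Diff a b i j a c := three a b i j a c hab hP hac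
    rcases Pool.Agent.T6.H52.NW.same m a b i j a c hnd (fun _ => 0) (vel m x) with
      ⟨_, e⟩ | ⟨_, e⟩
    · rw [e]; exact h1
    · rw [e, norm_neg]; exact h1
  · exact absurd hD (three a b i j k l hab hP hP')

/-- the a priori bound for three bodies -/
theorem apr3 (m : Fin 3 → ℝ) (hm : ∀ i, 0 < m i) : ∃ C : ℝ, 0 < C ∧
    ∀ (E : ℝ) (ψ : Cfg 3 × Cfg 3 → ℝ) (φ : ℝ → Cfg 3 × Cfg 3 → Cfg 3 × Cfg 3), IsFl m E ψ φ →
      ∀ x ∈ Surf m E, NonW (Surf m E) φ x →
        (LJ m x) ^ 2 ≤ C * Real.sqrt (In m x.1) := by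
  obtain ⟨μ, hμ, hμm⟩ : ∃ μ : ℝ, 0 < μ ∧ ∀ i, μ ≤ m i := by
    obtain ⟨μi, _, hμi⟩ := Finset.exists_min_image Finset.univ m ⟨0, Finset.mem_univ _⟩
    exact ⟨m μi, hm μi, fun i => hμi i (Finset.mem_univ _)⟩
  obtain ⟨M, hMdef⟩ : ∃ M : ℝ, M = ∑ i, m i := ⟨_, rfl⟩
  have hM : 0 < M := by
    rw [hMdef]; exact Finset.sum_pos (fun i _ => hm i) ⟨0, Finset.mem_univ _⟩
  obtain ⟨A, hA⟩ : ∃ A : ℝ, A = 16000 * (M + M ^ 2 / μ) := ⟨_, rfl⟩
  have hA0 : 0 < A := by rw [hA]; positivity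
  obtain ⟨R, hR⟩ : ∃ R : ℝ, R = Real.sqrt M := ⟨_, rfl⟩
  have hR0 : 0 < R := by rw [hR]; exact Real.sqrt_pos.mpr hM
  have hR2 : R ^ 2 = M := by rw [hR]; exact Real.sq_sqrt hM.le
  obtain ⟨ν, hν⟩ : ∃ ν : ℝ, ν = Real.sqrt μ := ⟨_, rfl⟩
  have hν0 : 0 < ν := by rw [hν]; exact Real.sqrt_pos.mpr hμ
  have hν2 : ν ^ 2 = μ := by rw [hν]; exact Real.sq_sqrt hμ.le
  refine ⟨256 * M ^ 2 * R + 2 * (2 * M ^ 3 / ν + 2 * M * R * A), by positivity, ?_⟩
  intro E ψ φ hφ x hx hNW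
  have hE : E ≤ 0 := by
    by_contra hE
    exact Pool.Agent.Y438.NW.pos 3 m hm E (not_le.mp hE) ψ φ hφ x hx hNW
  -- the closest pair
  obtain ⟨⟨a, b⟩, hab', hmin⟩ := Finset.exists_min_image
    (Finset.univ.filter (fun p : Fin 3 × Fin 3 => p.1 ≠ p.2)) (fun p => ‖x.1 p.1 - x.1 p.2‖)
    ⟨(0, 1), by simp⟩
  have hab : a ≠ b := by simpa using hab'
  obtain ⟨r, hr⟩ : ∃ r, r = ‖x.1 a - x.1 b‖ := ⟨_, rfl⟩
  have hr0 : 0 < r := by
    rw [hr]; exact norm_pos_iff.mpr (sub_ne_zero.mpr (hx.1 a b hab))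
  have hmin' : ∀ i j, i ≠ j → r ≤ ‖x.1 i - x.1 j‖ := by
    intro i j hij
    rw [hr]
    exact hmin (i, j) (by simpa using hij)
  obtain ⟨c, hca, hcb⟩ := third a b hab
  obtain ⟨δ, hδ⟩ : ∃ δ, δ = min ‖x.1 a - x.1 c‖ ‖x.1 b - x.1 c‖ := ⟨_, rfl⟩
  have hrδ : r ≤ δ := by
    rw [hδ]; exact le_min (hmin' a c hca.symm) (hmin' b c hcb.symm)
  have hδ0 : 0 < δ := hr0.trans_le hrδ
  have hδa : δ ≤ ‖x.1 a - x.1 c‖ := by rw [hδ]; exact min_le_left _ _
  have hδb : δ ≤ ‖x.1 b - x.1 c‖ := by rw [hδ]; exact min_le_right _ _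
  have t1 : ‖x.1 a - x.1 c‖ ≤ r + ‖x.1 b - x.1 c‖ := by
    rw [hr]
    have : x.1 a - x.1 c = (x.1 a - x.1 b) + (x.1 b - x.1 c) := by abel
    rw [this]; exact norm_add_le _ _
  have t2 : ‖x.1 b - x.1 c‖ ≤ r + ‖x.1 a - x.1 c‖ := by
    rw [hr, norm_sub_rev (x.1 a) (x.1 b)]
    have : x.1 b - x.1 c = (x.1 b - x.1 a) + (x.1 a - x.1 c) := by abel
    rw [this]; exact norm_add_le _ _
  have hDa : ‖x.1 a - x.1 c‖ ≤ 2 * δ := by
    rcases min_choice ‖x.1 a - x.1 c‖ ‖x.1 b - x.1 c‖ with h | h <;> rw [← hδ] at h <;> linarith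
  have hDb : ‖x.1 b - x.1 c‖ ≤ 2 * δ := by
    rcases min_choice ‖x.1 a - x.1 c‖ ‖x.1 b - x.1 c‖ with h | h <;> rw [← hδ] at h <;> linarith
  have hX : ∀ i j, P2 a b i j → δ ≤ ‖x.1 i - x.1 j‖ := by
    intro i j hP
    rcases pairs3 a b c i j hab hca hcb hP with ⟨rfl, rfl⟩ | ⟨rfl, rfl⟩ | ⟨rfl, rfl⟩ | ⟨rfl, rfl⟩
    · exact hδa
    · rw [norm_sub_rev]; exact hδa
    · exact hδb
    · rw [norm_sub_rev]; exact hδb
  have hD : ∀ i j, ‖x.1 i - x.1 j‖ ≤ 2 * δ := by
    intro i j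
    by_cases hij : i = j
    · subst hij; simp only [sub_self, norm_zero]; positivity
    · by_cases hP : P2 a b i j
      · rcases pairs3 a b c i j hab hca hcb hP with
          ⟨rfl, rfl⟩ | ⟨rfl, rfl⟩ | ⟨rfl, rfl⟩ | ⟨rfl, rfl⟩
        · exact hDa
        · rw [norm_sub_rev]; exact hDa
        · exact hDb
        · rw [norm_sub_rev]; exact hDb
      · have h1 : (i = a ∧ j = b) ∨ (i = b ∧ j = a) := by
          by_contra h1
          rw [not_or] at h1
          exact hP ⟨hij, h1.1, h1.2⟩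
        rcases h1 with ⟨rfl, rfl⟩ | ⟨rfl, rfl⟩
        · rw [← hr]; linarith
        · rw [norm_sub_rev, ← hr]; linarith
  obtain ⟨S, hS⟩ : ∃ S, S = Real.sqrt (In m x.1) := ⟨_, rfl⟩
  have hIn0 : 0 ≤ In m x.1 := by
    unfold In
    exact Finset.sum_nonneg fun i _ => by have := (hm i).le; positivity
  have hS0 : 0 ≤ S := by rw [hS]; exact Real.sqrt_nonneg _
  have hS2 : S ^ 2 = In m x.1 := by rw [hS]; exact Real.sq_sqrt hIn0
  have hSδ : S ≤ 2 * R * δ := by
    have h1 := In_le m hm M hMdef.symm hM x.1 hx.2.1 (2 * δ) hD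
    rw [← hS2, ← hR2] at h1
    refine (pow_le_pow_iff_left₀ hS0 (by positivity) two_ne_zero).1 ?_
    calc S ^ 2 ≤ R ^ 2 * (2 * δ) ^ 2 := h1
      _ = _ := by ring
  have hK : Ki m x ≤ M ^ 2 / (2 * r) := by
    have h1 := surf_ener m hm E x hx
    have h2 := Po_le m hm M hMdef.symm x.1 r hr0 hmin'
    linarith
  rw [← hS]
  rcases lt_or_ge (δ / 128) r with hcase | hcase
  · -- all distances are comparable
    have h1 := cs m hm x
    rw [← hS2] at h1
    have h2 : 2 * Ki m x ≤ 128 * M ^ 2 / δ := by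
      have h3 : M ^ 2 / (2 * r) ≤ M ^ 2 / (2 * (δ / 128)) := by gcongr
      have h4 : M ^ 2 / (2 * (δ / 128)) = 64 * M ^ 2 / δ := by field_simp; norm_num
      have h5 : 128 * M ^ 2 / δ = 2 * (64 * M ^ 2 / δ) := by ring
      rw [h5, ← h4]
      linarith
    have h3 : S ^ 2 * (2 * Ki m x) ≤ 256 * M ^ 2 * R * S := by
      calc S ^ 2 * (2 * Ki m x) ≤ S ^ 2 * (128 * M ^ 2 / δ) := by gcongr
        _ = S * (128 * M ^ 2 / δ) * S := by ring
        _ ≤ (2 * R * δ) * (128 * M ^ 2 / δ) * S := by gcongr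
        _ = 256 * M ^ 2 * R * S := by field_simp; ring
    have h4 : 0 ≤ 2 * (2 * M ^ 3 / ν + 2 * M * R * A) * S := by positivity
    nlinarith [h1, h3, h4]
  · -- a tight pair
    have hw : 0 < Real.sqrt (A / δ) := Real.sqrt_pos.mpr (by positivity)
    have hslow := slow3 m M μ hμ hμm hMdef.ge E hE ψ φ hφ x hx hNW a b c hab hca hcb
      (Real.sqrt (A / δ)) δ hw hδ0
      (by rw [Real.sq_sqrt (by positivity), div_mul_cancel₀ _ hδ0.ne', hA]) hX
      (by rw [← hr]; exact hcase)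
    have hma := hm a
    have hmb := hm b
    have hmc := hm c
    have hMs : m a + m b + m c = M := by
      rw [hMdef, sum3 m a b c hab hca hcb]; ring
    have hvs : m a • vel m x a + (m b • vel m x b + m c • vel m x c) = 0 := by
      rw [← sum3 (fun i => m i • vel m x i) a b c hab hca hcb]
      exact surf_mom m hm E x hx
    have hqs : m a • x.1 a + (m b • x.1 b + m c • x.1 c) = 0 := by
      rw [← sum3 (fun i => m i • x.1 i) a b c hab hca hcb]
      exact hx.2.1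
    have hJ : LJ m x = m a * m b / (m a + m b) * inner ℝ (x.1 a - x.1 b)
        (vel m x a - vel m x b) + m c * M / (m a + m b) * inner ℝ (x.1 c) (vel m x c) := by
      rw [← hMs, ← split3 hma hmb _ _ _ _ _ _ hqs hvs]
      unfold LJ
      rw [sum3 _ a b c hab hca hcb]
    have hT : 2 * Ki m x = m a * m b / (m a + m b) * ‖vel m x a - vel m x b‖ ^ 2 +
        m c * M / (m a + m b) * ‖vel m x c‖ ^ 2 := by
      rw [← hMs, ← split3' hma hmb _ _ _ hvs]
      unfold Ki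
      rw [sum3 _ a b c hab hca hcb]
      ring
    obtain ⟨α, hα⟩ : ∃ α, α = m a * m b / (m a + m b) := ⟨_, rfl⟩
    have hα0 : 0 < α := by rw [hα]; positivity
    have hαM : α ≤ M := by
      rw [hα, div_le_iff₀ (by positivity), ← hMs]
      nlinarith
    -- the inner part
    have hin : (α * inner ℝ (x.1 a - x.1 b) (vel m x a - vel m x b)) ^ 2 ≤ 2 * M ^ 3 / ν * S := by
      have h1 := abs_real_inner_le_norm (x.1 a - x.1 b) (vel m x a - vel m x b)
      rw [← hr] at h1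
      have h2 : (inner ℝ (x.1 a - x.1 b) (vel m x a - vel m x b)) ^ 2 ≤
          r ^ 2 * ‖vel m x a - vel m x b‖ ^ 2 := by
        rw [← sq_abs, ← mul_pow]
        exact pow_le_pow_left₀ (abs_nonneg _) h1 2
      have h3 : α * ‖vel m x a - vel m x b‖ ^ 2 ≤ M ^ 2 / r := by
        have h4 : 0 ≤ m c * M / (m a + m b) * ‖vel m x c‖ ^ 2 := by positivity
        have h5 : 2 * (M ^ 2 / (2 * r)) = M ^ 2 / r := by field_simp
        rw [← hα] at hT
        linarith
      have h4 : r ≤ 2 * S / ν := by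
        have h5 : ∀ i, ν * ‖x.1 i‖ ≤ S := by
          intro i
          refine (pow_le_pow_iff_left₀ (by positivity) hS0 two_ne_zero).1 ?_
          rw [mul_pow, hν2, hS2]
          have h6 : m i * ‖x.1 i‖ ^ 2 ≤ In m x.1 := by
            unfold In
            exact Finset.single_le_sum (f := fun i => m i * ‖x.1 i‖ ^ 2)
              (fun i _ => by have := (hm i).le; positivity) (Finset.mem_univ i)
          have h7 := hμm i
          have h8 : μ * ‖x.1 i‖ ^ 2 ≤ m i * ‖x.1 i‖ ^ 2 := by gcongr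
          linarith
        rw [le_div_iff₀ hν0, hr]
        have h6 := norm_sub_le (x.1 a) (x.1 b)
        have h7 := h5 a
        have h8 := h5 b
        nlinarith
      calc (α * inner ℝ (x.1 a - x.1 b) (vel m x a - vel m x b)) ^ 2
          = α ^ 2 * (inner ℝ (x.1 a - x.1 b) (vel m x a - vel m x b)) ^ 2 := by ring
        _ ≤ α ^ 2 * (r ^ 2 * ‖vel m x a - vel m x b‖ ^ 2) := by gcongr
        _ = α * r ^ 2 * (α * ‖vel m x a - vel m x b‖ ^ 2) := by ring
        _ ≤ α * r ^ 2 * (M ^ 2 / r) := by gcongr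
        _ = α * M ^ 2 * r := by field_simp
        _ ≤ M * M ^ 2 * (2 * S / ν) := by gcongr
        _ = 2 * M ^ 3 / ν * S := by ring
    -- the outer part
    have hout : (m c * M / (m a + m b) * inner ℝ (x.1 c) (vel m x c)) ^ 2 ≤
        2 * M * R * A * S := by
      have h1 := abs_real_inner_le_norm (x.1 c) (vel m x c)
      have h2 : (inner ℝ (x.1 c) (vel m x c)) ^ 2 ≤ ‖x.1 c‖ ^ 2 * ‖vel m x c‖ ^ 2 := by
        rw [← sq_abs, ← mul_pow]
        exact pow_le_pow_left₀ (abs_nonneg _) h1 2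
      have h3 : m c * ‖x.1 c‖ ^ 2 ≤ S ^ 2 := by
        rw [hS2]
        unfold In
        exact Finset.single_le_sum (f := fun i => m i * ‖x.1 i‖ ^ 2)
          (fun i _ => by have := (hm i).le; positivity) (Finset.mem_univ c)
      have h4 : (M / (m a + m b) * ‖vel m x c‖) ^ 2 ≤ A / δ := by
        rw [hMs] at hslow
        have h5 := pow_le_pow_left₀ (by positivity) hslow.le 2
        rwa [Real.sq_sqrt (by positivity)] at h5
      have h6 : S * S / δ ≤ 2 * R * S := by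
        rw [div_le_iff₀ hδ0]
        nlinarith
      calc (m c * M / (m a + m b) * inner ℝ (x.1 c) (vel m x c)) ^ 2
          = (m c * M / (m a + m b)) ^ 2 * (inner ℝ (x.1 c) (vel m x c)) ^ 2 := by ring
        _ ≤ (m c * M / (m a + m b)) ^ 2 * (‖x.1 c‖ ^ 2 * ‖vel m x c‖ ^ 2) := by gcongr
        _ = m c * (m c * ‖x.1 c‖ ^ 2) * (M / (m a + m b) * ‖vel m x c‖) ^ 2 := by ring
        _ ≤ M * S ^ 2 * (A / δ) := by
            have : m c ≤ M := by linarith
            gcongr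
        _ = M * A * (S * S / δ) := by ring
        _ ≤ M * A * (2 * R * S) := by gcongr
        _ = 2 * M * R * A * S := by ring
    rw [hJ, ← hα]
    have h5 : 0 ≤ 256 * M ^ 2 * R * S := by positivity
    have h6 : ∀ y z : ℝ, (y + z) ^ 2 ≤ 2 * (y ^ 2 + z ^ 2) := by
      intro y z; nlinarith [sq_nonneg (y - z)]
    have h7 := h6 (α * inner ℝ (x.1 a - x.1 b) (vel m x a - vel m x b))
      (m c * M / (m a + m b) * inner ℝ (x.1 c) (vel m x c))
    nlinarith [h7, hin, hout, h5]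

end Pool.Agent.T6.H53.NB
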