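import Pool.Agent.T6.H53.NB.Ang

set_option autoImplicit false

/-! Escape of the third body from a tight pair. -/

namespace Pool.Agent.T6.H53.NB

open Set Filter Topology Pool.Agent.Y516.NW Pool.Agent.Y438.NW MeasureTheory

/-- abstract form of the escape argument: `W = u ^ 2`, `P = u u'`, `V` the square of the speed of
the third body, `A` the radial force, `r` the distance of the pair -/
theorem escAbs (W P V A r ψ : ℝ → ℝ) (k B : ℝ) (hk : 0 ≤ k) (hB : 0 < B)
    (hW : ∀ s, HasDerivAt W (2 * (ψ s * P s)) s)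
    (hP : ∀ s, HasDerivAt P (ψ s * (V s + A s)) s) (hψ : ∀ s, 0 < ψ s)
    (hr : Continuous r) (hrpos : ∀ s, 0 < r s) (hcs : ∀ s, P s ^ 2 ≤ W s * V s)
    (hA : ∀ s, 0 < W s → r s ≤ Real.sqrt (W s) / 2 → -(k / Real.sqrt (W s)) ≤ A s)
    (hen : ∀ s, 0 < W s → r s ≤ Real.sqrt (W s) / 2 →
      P s ^ 2 / W s - 2 * k / Real.sqrt (W s) ≤ B / r s)
    (h0W : 0 < W 0) (h0P : 0 < P 0) (h0r : r 0 < Real.sqrt (W 0) / 2)
    (h0G : 2 * B / Real.sqrt (W 0) < P 0 ^ 2 / W 0 - 2 * k / Real.sqrt (W 0)) :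
    ∀ s, 0 ≤ s → W 0 ≤ W s := by
  have hWc : Continuous W := continuous_iff_continuousAt.mpr fun s => (hW s).continuousAt
  have hPc : Continuous P := continuous_iff_continuousAt.mpr fun s => (hP s).continuousAt
  have hu0 : 0 < Real.sqrt (W 0) := Real.sqrt_pos.mpr h0W
  -- the increasing function
  have hG : ∀ s, 0 < W s → HasDerivAt (fun s => P s ^ 2 / W s - 2 * k / Real.sqrt (W s))
      (ψ s * (2 * P s / W s) * (V s + A s - P s ^ 2 / W s + k / Real.sqrt (W s))) s := by
    intro s h0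
    have hus : 0 < Real.sqrt (W s) := Real.sqrt_pos.mpr h0
    have hρ : HasDerivAt (fun s => Real.sqrt (W s)) (2 * (ψ s * P s) / (2 * Real.sqrt (W s))) s :=
      (hW s).sqrt h0.ne'
    have h1 := (((hP s).pow 2).div (hW s) h0.ne').sub
      ((hasDerivAt_const s (2 * k)).div hρ hus.ne')
    refine h1.congr_deriv ?_
    obtain ⟨y, hy⟩ : ∃ y, y = Real.sqrt (W s) := ⟨_, rfl⟩
    have hy2 : W s = y ^ 2 := by rw [hy]; exact (Real.sq_sqrt h0.le).symm
    have hy0 : 0 < y := by rw [hy]; exact hus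
    rw [← hy, hy2]
    simp only [Pi.pow_apply]
    field_simp
    ring
  have hb := Pool.Agent.Y275.NW.boot (Option Bool) (fun α s => match α with
      | none => W s - W 0 / 2
      | some true => Real.sqrt (W s) / 2 - r s
      | some false => P s)
    (by
      rintro (_ | _ | _)
      · exact hWc.sub continuous_const
      · exact hPc
      · exact (hWc.sqrt.div_const 2).sub hr)
    (by
      rintro (_ | _ | _)
      · show 0 < W 0 - W 0 / 2
        linarith
      · exact h0P
      · show 0 < Real.sqrt (W 0) / 2 - r 0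
        linarith)
    (by
      intro Tm hT0 hall
      have hle : ∀ t ∈ Icc 0 Tm, r t ≤ Real.sqrt (W t) / 2 := fun t ht => by
        have : 0 ≤ Real.sqrt (W t) / 2 - r t := hall t ht.1 ht.2 (some true)
        linarith
      have hPn : ∀ t ∈ Icc 0 Tm, 0 ≤ P t := fun t ht => hall t ht.1 ht.2 (some false)
      have hWp : ∀ t ∈ Icc 0 Tm, 0 < W t := fun t ht => by
        have : 0 ≤ W t - W 0 / 2 := hall t ht.1 ht.2 none
        linarith
      have hWm : MonotoneOn W (Icc 0 Tm) := by
        refine monotoneOn_of_deriv_nonneg (convex_Icc 0 Tm)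
          (fun s _ => (hW s).continuousAt.continuousWithinAt)
          (fun s _ => (hW s).differentiableAt.differentiableWithinAt) ?_
        intro s hs
        rw [(hW s).deriv]
        have e1 := hPn s (interior_subset hs)
        have e2 := hψ s
        positivity
      have hGm : MonotoneOn (fun s => P s ^ 2 / W s - 2 * k / Real.sqrt (W s)) (Icc 0 Tm) := by
        refine monotoneOn_of_deriv_nonneg (convex_Icc 0 Tm)
          (fun s hs => (hG s (hWp s hs)).continuousAt.continuousWithinAt)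
          (fun s hs => (hG s (hWp s (interior_subset hs))).differentiableAt.differentiableWithinAt)
          ?_
        intro s hs
        have e3 := hWp s (interior_subset hs)
        rw [(hG s e3).deriv]
        have e1 := hPn s (interior_subset hs)
        have e2 := hψ s
        have e4 := hA s e3 (hle s (interior_subset hs))
        have e5 : P s ^ 2 / W s ≤ V s := by
          rw [div_le_iff₀ e3]
          linarith [hcs s]
        have e6 : 0 ≤ V s + A s - P s ^ 2 / W s + k / Real.sqrt (W s) := by linarith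
        positivity
      have hWT := hWm ⟨le_rfl, hT0⟩ ⟨hT0, le_rfl⟩ hT0
      have hGT := hGm ⟨le_rfl, hT0⟩ ⟨hT0, le_rfl⟩ hT0
      simp only at hGT
      have huT : Real.sqrt (W 0) ≤ Real.sqrt (W Tm) := Real.sqrt_le_sqrt hWT
      have huTp : 0 < Real.sqrt (W Tm) := hu0.trans_le huT
      have e1 := hen Tm (hWp Tm ⟨hT0, le_rfl⟩) (hle Tm ⟨hT0, le_rfl⟩)
      have hpos : 0 < P Tm ^ 2 / W Tm - 2 * k / Real.sqrt (W Tm) :=
        lt_of_lt_of_le (lt_trans (by positivity) h0G) hGT
      rintro (_ | _ | _)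
      · show 0 < W Tm - W 0 / 2
        linarith
      · show 0 < P Tm
        have h1 := hPn Tm ⟨hT0, le_rfl⟩
        rcases eq_or_lt_of_le h1 with h2 | h2
        · exfalso
          rw [← h2] at hpos
          have h3 : 0 ≤ 2 * k / Real.sqrt (W Tm) := by positivity
          norm_num at hpos
          linarith
        · exact h2
      · show 0 < Real.sqrt (W Tm) / 2 - r Tm
        have h3 : 2 * B / Real.sqrt (W Tm) ≤ 2 * B / Real.sqrt (W 0) := by gcongr
        have h4 : 2 * B / Real.sqrt (W Tm) < B / r Tm := by linarith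
        rw [div_lt_div_iff₀ huTp (hrpos Tm)] at h4
        have h5 : B * (2 * r Tm) < B * Real.sqrt (W Tm) := by linarith
        have h6 := lt_of_mul_lt_mul_left h5 hB.le
        linarith)
  intro s hs
  have hWm : MonotoneOn W (Ici 0) := by
    refine monotoneOn_of_deriv_nonneg (convex_Ici 0)
      (fun s _ => (hW s).continuousAt.continuousWithinAt)
      (fun s _ => (hW s).differentiableAt.differentiableWithinAt) ?_
    intro s hs
    rw [interior_Ici] at hs
    rw [(hW s).deriv]
    have e1 : 0 < P s := hb s (le_of_lt hs) (some false)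
    have e2 := hψ s
    positivity
  exact hWm (mem_Ici.mpr le_rfl) (mem_Ici.mpr hs) hs

/-- the potential of three bodies -/
theorem Po3 (m : Fin 3 → ℝ) (q : Cfg 3) (a b c : Fin 3) (hab : a ≠ b) (hca : c ≠ a)
    (hcb : c ≠ b) : Po m q = m a * m b / ‖q a - q b‖ + m a * m c / ‖q a - q c‖ +
      m b * m c / ‖q b - q c‖ := by
  unfold Po
  simp only [sum3 _ a b c hab hca hcb, sub_self, norm_zero, div_zero, zero_div, zero_add, add_zero]
  rw [norm_sub_rev (q b) (q a), norm_sub_rev (q c) (q a), norm_sub_rev (q c) (q b)]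
  ring

/-- distances of the third body from the pair -/
theorem dist3 {a b c : ℝ} (ha : 0 < a) (hb : 0 < b) (hc : 0 < c) (x y z : E3)
    (h : a • x + (b • y + c • z) = 0) : ‖z‖ - ‖x - y‖ ≤ ‖x - z‖ := by
  have hs : a + b ≠ 0 := by positivity
  have e2 : a • x + b • y = -(c • z) := by
    rw [← add_assoc] at h
    exact eq_neg_of_add_eq_zero_left h
  have e3 : x - z = (b / (a + b)) • (x - y) - ((a + b + c) / (a + b)) • z := by
    have h1 : (a + b) • (x - z) = (a + b) • ((b / (a + b)) • (x - y) -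
        ((a + b + c) / (a + b)) • z) := by
      rw [smul_sub (a + b) ((b / (a + b)) • (x - y)), smul_smul, smul_smul,
        mul_div_cancel₀ _ hs, mul_div_cancel₀ _ hs]
      have h2 : (a + b) • (x - z) = (a • x + b • y) + b • (x - y) - (a + b) • z := by
        simp only [smul_sub, add_smul]; abel
      rw [h2, e2]
      simp only [add_smul]
      abel
    exact smul_right_injective _ hs h1
  have e4 : (1 : ℝ) ≤ (a + b + c) / (a + b) := by
    rw [le_div_iff₀ (by positivity)]; linarith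
  have e5 : b / (a + b) ≤ 1 := by
    rw [div_le_one (by positivity)]; linarith
  have e6 : (a + b + c) / (a + b) * ‖z‖ - b / (a + b) * ‖x - y‖ ≤ ‖x - z‖ := by
    rw [e3]
    have h1 := norm_sub_norm_le (((a + b + c) / (a + b)) • z) ((b / (a + b)) • (x - y))
    rw [norm_smul, norm_smul, Real.norm_of_nonneg (by positivity),
      Real.norm_of_nonneg (by positivity)] at h1
    rw [norm_sub_rev ((b / (a + b)) • (x - y))]
    exact h1
  have e7 : ‖z‖ ≤ (a + b + c) / (a + b) * ‖z‖ := by
    nlinarith [norm_nonneg z]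
  have e8 : b / (a + b) * ‖x - y‖ ≤ ‖x - y‖ := by
    nlinarith [norm_nonneg (x - y)]
  linarith

/-- escape of the third body: its distance from the centre of mass does not decrease -/
theorem dyn (m : Fin 3 → ℝ) (hm : ∀ i, 0 < m i) (M : ℝ) (hM : ∑ i, m i = M) (E : ℝ) (hE : E ≤ 0)
    (ψ : Cfg 3 × Cfg 3 → ℝ) (φ : ℝ → Cfg 3 × Cfg 3 → Cfg 3 × Cfg 3) (hφ : IsFl m E ψ φ)
    (y : Cfg 3 × Cfg 3) (hy : y ∈ Surf m E) (a b c : Fin 3) (hab : a ≠ b) (hca : c ≠ a)
    (hcb : c ≠ b) (hP : 0 < inner ℝ (y.1 c) (vel m y c))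
    (hr : ‖y.1 a - y.1 b‖ < ‖y.1 c‖ / 2)
    (hG : 2 * (2 * (m a * m b) / m c) / ‖y.1 c‖ <
      inner ℝ (y.1 c) (vel m y c) ^ 2 / ‖y.1 c‖ ^ 2 - 2 * (4 * M) / ‖y.1 c‖) :
    ∀ s, 0 ≤ s → ‖y.1 c‖ ^ 2 ≤ ‖(φ s y).1 c‖ ^ 2 := by
  obtain ⟨τ, hmot⟩ := mot_of_flow m hm E ψ φ hφ y hy
  have hfl := hφ.flow y hy
  have h0 : φ 0 y = y := hfl.1
  have hma := hm a
  have hmb := hm b
  have hmc := hm c
  have hMs : m a + m b + m c = M := by
    rw [← hM, sum3 m a b c hab hca hcb]; ring
  have hM0 : 0 < M := by rw [← hMs]; positivity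
  have hqs : ∀ s, m a • (φ s y).1 a + (m b • (φ s y).1 b + m c • (φ s y).1 c) = 0 := by
    intro s
    rw [← sum3 (fun i => m i • (φ s y).1 i) a b c hab hca hcb]
    exact (hfl.2 s).1.2.1
  have hvs : ∀ s, m a • vel m (φ s y) a + (m b • vel m (φ s y) b + m c • vel m (φ s y) c) = 0 := by
    intro s
    rw [← sum3 (fun i => m i • vel m (φ s y) i) a b c hab hca hcb]
    exact surf_mom m hm E _ (hfl.2 s).1
  have hda : ∀ s, ‖(φ s y).1 c‖ - ‖(φ s y).1 a - (φ s y).1 b‖ ≤ ‖(φ s y).1 a - (φ s y).1 c‖ :=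
    fun s => dist3 hma hmb hmc _ _ _ (hqs s)
  have hdb : ∀ s, ‖(φ s y).1 c‖ - ‖(φ s y).1 a - (φ s y).1 b‖ ≤ ‖(φ s y).1 b - (φ s y).1 c‖ := by
    intro s
    rw [norm_sub_rev ((φ s y).1 a)]
    refine dist3 hmb hma hmc _ _ _ ?_
    rw [← hqs s]; abel
  have hqc : Continuous fun s => ‖(φ s y).1 a - (φ s y).1 b‖ := by
    have h1 : ∀ i, Continuous fun s => (φ s y).1 i := fun i =>
      continuous_iff_continuousAt.mpr fun t => (hmot.qd t i).continuousAt
    exact ((h1 a).sub (h1 b)).norm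
  have hu : ∀ s, Real.sqrt (‖(φ s y).1 c‖ ^ 2) = ‖(φ s y).1 c‖ := fun s =>
    Real.sqrt_sq (norm_nonneg _)
  have hc0 : 0 < ‖y.1 c‖ := by
    rw [norm_pos_iff]
    intro h
    rw [h, inner_zero_left] at hP
    exact lt_irrefl _ hP
  have key := escAbs (fun s => ‖(φ s y).1 c‖ ^ 2)
    (fun s => inner ℝ ((φ s y).1 c) (vel m (φ s y) c)) (fun s => ‖vel m (φ s y) c‖ ^ 2)
    (fun s => inner ℝ ((φ s y).1 c) (acc m (φ s y).1 c))
    (fun s => ‖(φ s y).1 a - (φ s y).1 b‖) (fun s => ψ (φ s y)) (4 * M)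
    (2 * (m a * m b) / m c) (by positivity) (by positivity)
    (by
      intro s
      refine ((hmot.qd s c).norm_sq).congr_deriv ?_
      rw [inner_smul_right])
    (by
      intro s
      refine ((hmot.qd s c).inner ℝ (hmot.vd s c)).congr_deriv ?_
      rw [inner_smul_right, real_inner_smul_left, real_inner_self_eq_norm_sq]
      ring)
    hmot.cpos hqc
    (fun s => norm_pos_iff.mpr (sub_ne_zero.mpr (hmot.ne s a b hab)))
    (by
      intro s
      have h1 := abs_real_inner_le_norm ((φ s y).1 c) (vel m (φ s y) c)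
      rw [← sq_abs, ← mul_pow]
      exact pow_le_pow_left₀ (abs_nonneg _) h1 2)
    (by
      intro s hW hrs
      simp only [hu] at hrs ⊢
      have hus : 0 < ‖(φ s y).1 c‖ := by
        rcases eq_or_lt_of_le (norm_nonneg ((φ s y).1 c)) with h | h
        · simp only [← h] at hW; norm_num at hW
        · exact h
      have e1 := hda s
      have e2 := hdb s
      obtain ⟨u, hu'⟩ : ∃ u, u = ‖(φ s y).1 c‖ := ⟨_, rfl⟩
      rw [← hu'] at hus hrs e1 e2 ⊢
      have e3 : u / 2 ≤ ‖(φ s y).1 a - (φ s y).1 c‖ := by linarith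
      have e4 : u / 2 ≤ ‖(φ s y).1 b - (φ s y).1 c‖ := by linarith
      have hterm : ∀ (mi : ℝ) (z : E3), 0 < mi → u / 2 ≤ ‖z‖ →
          ‖(mi / ‖z‖ ^ 3) • z‖ ≤ 4 * mi / u ^ 2 := by
        intro mi z hmi hz
        have hz0 : 0 < ‖z‖ := (by positivity : 0 < u / 2).trans_le hz
        rw [norm_smul, Real.norm_of_nonneg (by positivity)]
        have : mi / ‖z‖ ^ 3 * ‖z‖ = mi / ‖z‖ ^ 2 := by field_simp
        rw [this]
        calc mi / ‖z‖ ^ 2 ≤ mi / (u / 2) ^ 2 := by gcongr
          _ = 4 * mi / u ^ 2 := by field_simp; norm_num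
      have e5 : ‖acc m (φ s y).1 c‖ ≤ 4 * M / u ^ 2 := by
        unfold acc
        rw [sum3 _ a b c hab hca hcb]
        simp only [sub_self, smul_zero, add_zero]
        refine (norm_add_le _ _).trans ?_
        have f1 := hterm (m a) _ hma e3
        have f2 := hterm (m b) _ hmb e4
        have f3 : 4 * m a / u ^ 2 + 4 * m b / u ^ 2 ≤ 4 * M / u ^ 2 := by
          rw [← add_div, ← hMs]
          gcongr
          linarith
        linarith
      have e6 := abs_real_inner_le_norm ((φ s y).1 c) (acc m (φ s y).1 c)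
      have e7 := neg_abs_le (inner ℝ ((φ s y).1 c) (acc m (φ s y).1 c))
      rw [← hu'] at e6
      have e8 : u * ‖acc m (φ s y).1 c‖ ≤ u * (4 * M / u ^ 2) := by gcongr
      have e9 : u * (4 * M / u ^ 2) = 4 * M / u := by field_simp
      linarith)
    (by
      intro s hW hrs
      simp only [hu] at hrs ⊢
      have hus : 0 < ‖(φ s y).1 c‖ := by
        rcases eq_or_lt_of_le (norm_nonneg ((φ s y).1 c)) with h | h
        · simp only [← h] at hW; norm_num at hW
        · exact h
      have e1 := hda s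
      have e2 := hdb s
      have hcs := abs_real_inner_le_norm ((φ s y).1 c) (vel m (φ s y) c)
      have hrp : 0 < ‖(φ s y).1 a - (φ s y).1 b‖ :=
        norm_pos_iff.mpr (sub_ne_zero.mpr (hmot.ne s a b hab))
      have hen := surf_ener m hm E (φ s y) (hfl.2 s).1
      rw [Po3 m _ a b c hab hca hcb] at hen
      have hT : 2 * Ki m (φ s y) = m a * m b / (m a + m b) *
          ‖vel m (φ s y) a - vel m (φ s y) b‖ ^ 2 +
          m c * (m a + m b + m c) / (m a + m b) * ‖vel m (φ s y) c‖ ^ 2 := by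
        rw [← split3' hma hmb _ _ _ (hvs s)]
        unfold Ki
        rw [sum3 _ a b c hab hca hcb]
        ring
      obtain ⟨u, hu'⟩ : ∃ u, u = ‖(φ s y).1 c‖ := ⟨_, rfl⟩
      obtain ⟨P, hP'⟩ : ∃ P, P = inner ℝ ((φ s y).1 c) (vel m (φ s y) c) := ⟨_, rfl⟩
      obtain ⟨r, hr'⟩ : ∃ r, r = ‖(φ s y).1 a - (φ s y).1 b‖ := ⟨_, rfl⟩
      obtain ⟨V, hV'⟩ : ∃ V, V = ‖vel m (φ s y) c‖ := ⟨_, rfl⟩
      rw [← hu', ← hP', ← hV'] at hcs
      rw [← hu', ← hr'] at hrs e1 e2
      rw [← hu'] at hus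
      rw [← hr'] at hrp hen
      rw [← hV'] at hT
      rw [← hu', ← hP', ← hr']
      have e3 : u / 2 ≤ ‖(φ s y).1 a - (φ s y).1 c‖ := by linarith
      have e4 : u / 2 ≤ ‖(φ s y).1 b - (φ s y).1 c‖ := by linarith
      have f1 : m a * m c / ‖(φ s y).1 a - (φ s y).1 c‖ ≤ m a * m c / (u / 2) := by gcongr
      have f2 : m b * m c / ‖(φ s y).1 b - (φ s y).1 c‖ ≤ m b * m c / (u / 2) := by gcongr
      have f3 : m a * m c / (u / 2) + m b * m c / (u / 2) ≤ 2 * (m c * M) / u := by
        have : m a * m c / (u / 2) + m b * m c / (u / 2) = 2 * (m c * (m a + m b)) / u := by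
          field_simp
        rw [this]
        gcongr
        linarith
      have f4 : m c * V ^ 2 ≤ m c * (m a + m b + m c) / (m a + m b) * V ^ 2 := by
        have : m c ≤ m c * (m a + m b + m c) / (m a + m b) := by
          rw [le_div_iff₀ (by positivity)]
          nlinarith [mul_pos hmc hmc]
        gcongr
      have f5 : 0 ≤ m a * m b / (m a + m b) *
          ‖vel m (φ s y) a - vel m (φ s y) b‖ ^ 2 := by positivity
      have f6 : P ^ 2 / u ^ 2 ≤ V ^ 2 := by
        rw [div_le_iff₀ (by positivity), ← sq_abs P]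
        have := pow_le_pow_left₀ (abs_nonneg P) hcs 2
        linarith
      have f7 : m c * (P ^ 2 / u ^ 2) ≤ m c * V ^ 2 := by gcongr
      have f8 : m c * (P ^ 2 / u ^ 2) / 2 - 2 * (m c * M) / u ≤ m a * m b / r := by linarith
      have f9 : P ^ 2 / u ^ 2 - 4 * M / u ≤ 2 * (m a * m b) / m c / r := by
        have g1 : 2 * (m a * m b) / m c / r = 2 / m c * (m a * m b / r) := by
          field_simp
        have g2 : P ^ 2 / u ^ 2 - 4 * M / u = 2 / m c * (m c * (P ^ 2 / u ^ 2) / 2 -
            2 * (m c * M) / u) := by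
          field_simp
          ring
        rw [g1, g2]
        gcongr
      have f10 : 4 * M / u ≤ 2 * (4 * M) / u := by
        have h1 : 2 * (4 * M) / u = 4 * M / u + 4 * M / u := by ring
        have h2 : 0 ≤ 4 * M / u := by positivity
        linarith
      linarith)
    (by
      show 0 < ‖(φ 0 y).1 c‖ ^ 2
      rw [h0]; positivity)
    (by show 0 < inner ℝ ((φ 0 y).1 c) (vel m (φ 0 y) c); rw [h0]; exact hP)
    (by
      show ‖(φ 0 y).1 a - (φ 0 y).1 b‖ < Real.sqrt (‖(φ 0 y).1 c‖ ^ 2) / 2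
      rw [hu, h0]; exact hr)
    (by
      simp only [h0, Real.sqrt_sq (norm_nonneg _)]
      exact hG)
  intro s hs
  have := key s hs
  simp only [h0] at this
  exact this

end Pool.Agent.T6.H53.NB
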