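import Pool.Agent.T6.H53.NB.Dyn

set_option autoImplicit false

/-! One-sided escape: if `J > 0` and `J ^ 2 > C √I` then the moment of inertia stays at least one
half of its initial value for all later times. -/

namespace Pool.Agent.T6.H53.NB

open Set Filter Topology Pool.Agent.Y516.NW Pool.Agent.Y438.NW MeasureTheory

theorem esc (m : Fin 3 → ℝ) (hm : ∀ i, 0 < m i) : ∃ C : ℝ, 0 < C ∧
    ∀ (E : ℝ), E ≤ 0 → ∀ (ψ : Cfg 3 × Cfg 3 → ℝ) (φ : ℝ → Cfg 3 × Cfg 3 → Cfg 3 × Cfg 3),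
      IsFl m E ψ φ → ∀ y ∈ Surf m E, 0 < LJ m y → C * Real.sqrt (In m y.1) < (LJ m y) ^ 2 →
        ∀ s, 0 ≤ s → In m y.1 / 2 ≤ In m (φ s y).1 := by
  obtain ⟨μ, hμ, hμm⟩ : ∃ μ : ℝ, 0 < μ ∧ ∀ i, μ ≤ m i := by
    obtain ⟨μi, _, hμi⟩ := Finset.exists_min_image Finset.univ m ⟨0, Finset.mem_univ _⟩
    exact ⟨m μi, hm μi, fun i => hμi i (Finset.mem_univ _)⟩
  obtain ⟨M, hMdef⟩ : ∃ M : ℝ, M = ∑ i, m i := ⟨_, rfl⟩
  have hM : 0 < M := by
    rw [hMdef]; exact Finset.sum_pos (fun i _ => hm i) ⟨0, Finset.mem_univ _⟩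
  obtain ⟨g, hg⟩ : ∃ g : ℝ, g = M ^ 2 / μ := ⟨_, rfl⟩
  have hg0 : 0 < g := by rw [hg]; positivity
  obtain ⟨L, hL⟩ : ∃ L : ℝ, L = 4 * g + 8 * M := ⟨_, rfl⟩
  have hL0 : 0 < L := by rw [hL]; positivity
  obtain ⟨X, hX⟩ : ∃ X : ℝ, X = 4 * M ^ 5 + 8 * M ^ 4 * g + 16 * g ^ 3 * L ^ 2 := ⟨_, rfl⟩
  have hX1 : 4 * M ^ 5 ≤ X := by
    rw [hX]
    have : 0 ≤ 8 * M ^ 4 * g + 16 * g ^ 3 * L ^ 2 := by positivity
    linarith
  have hX2 : 8 * M ^ 4 * g ≤ X := by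
    rw [hX]
    have : 0 ≤ 4 * M ^ 5 + 16 * g ^ 3 * L ^ 2 := by positivity
    linarith
  have hX3 : 16 * g ^ 3 * L ^ 2 ≤ X := by
    rw [hX]
    have : 0 ≤ 4 * M ^ 5 + 8 * M ^ 4 * g := by positivity
    linarith
  have hX0 : 0 ≤ X := le_trans (by positivity) hX1
  obtain ⟨C, hC⟩ : ∃ C : ℝ, C = X + 1 := ⟨_, rfl⟩
  have hC0 : 0 < C := by rw [hC]; linarith
  have hXC : X ≤ C ^ 2 := by
    rw [hC]
    have h1 : 0 ≤ X ^ 2 := sq_nonneg X
    have h2 : (X + 1) ^ 2 = X ^ 2 + 2 * X + 1 := by ring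
    rw [h2]
    linarith
  refine ⟨C, hC0, ?_⟩
  intro E hE ψ φ hφ y hy hJ0 hJ
  -- the closest pair
  obtain ⟨⟨a, b⟩, hab', hmin⟩ := Finset.exists_min_image
    (Finset.univ.filter (fun p : Fin 3 × Fin 3 => p.1 ≠ p.2)) (fun p => ‖y.1 p.1 - y.1 p.2‖)
    ⟨(0, 1), by simp⟩
  have hab : a ≠ b := by simpa using hab'
  obtain ⟨r, hr⟩ : ∃ r, r = ‖y.1 a - y.1 b‖ := ⟨_, rfl⟩
  have hr0 : 0 < r := by
    rw [hr]; exact norm_pos_iff.mpr (sub_ne_zero.mpr (hy.1 a b hab))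
  have hmin' : ∀ i j, i ≠ j → r ≤ ‖y.1 i - y.1 j‖ := by
    intro i j hij
    rw [hr]
    exact hmin (i, j) (by simpa using hij)
  obtain ⟨c, hca, hcb⟩ := third a b hab
  have hma := hm a
  have hmb := hm b
  have hmc := hm c
  have hMs : m a + m b + m c = M := by
    rw [hMdef, sum3 m a b c hab hca hcb]; ring
  have hqs : m a • y.1 a + (m b • y.1 b + m c • y.1 c) = 0 := by
    rw [← sum3 (fun i => m i • y.1 i) a b c hab hca hcb]
    exact hy.2.1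
  have hvs : m a • vel m y a + (m b • vel m y b + m c • vel m y c) = 0 := by
    rw [← sum3 (fun i => m i • vel m y i) a b c hab hca hcb]
    exact surf_mom m hm E y hy
  have hIn : In m y.1 = m a * m b / (m a + m b) * ‖y.1 a - y.1 b‖ ^ 2 +
      m c * M / (m a + m b) * ‖y.1 c‖ ^ 2 := by
    rw [← hMs, ← split3' hma hmb _ _ _ hqs]
    unfold In
    rw [sum3 _ a b c hab hca hcb]
  have hJe : LJ m y = m a * m b / (m a + m b) * inner ℝ (y.1 a - y.1 b)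
      (vel m y a - vel m y b) + m c * M / (m a + m b) * inner ℝ (y.1 c) (vel m y c) := by
    rw [← hMs, ← split3 hma hmb _ _ _ _ _ _ hqs hvs]
    unfold LJ
    rw [sum3 _ a b c hab hca hcb]
  have hT : 2 * Ki m y = m a * m b / (m a + m b) * ‖vel m y a - vel m y b‖ ^ 2 +
      m c * M / (m a + m b) * ‖vel m y c‖ ^ 2 := by
    rw [← hMs, ← split3' hma hmb _ _ _ hvs]
    unfold Ki
    rw [sum3 _ a b c hab hca hcb]
    ring
  have hIn0 : 0 < In m y.1 := In_pos (by norm_num) m hm y (surf_free m E hy)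
  obtain ⟨S, hS⟩ : ∃ S, S = Real.sqrt (In m y.1) := ⟨_, rfl⟩
  have hS0 : 0 < S := by rw [hS]; exact Real.sqrt_pos.mpr hIn0
  have hS2 : S ^ 2 = In m y.1 := by rw [hS]; exact Real.sq_sqrt hIn0.le
  obtain ⟨α, hα⟩ : ∃ α, α = m a * m b / (m a + m b) := ⟨_, rfl⟩
  have hα0 : 0 < α := by rw [hα]; positivity
  have hαM : α ≤ M := by
    rw [hα, div_le_iff₀ (by positivity), ← hMs]
    have e1 : 0 ≤ m a * m a + m a * m b + m b * m b + m c * m a + m c * m b := by positivity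
    have e2 : (m a + m b + m c) * (m a + m b) =
        m a * m b + (m a * m a + m a * m b + m b * m b + m c * m a + m c * m b) := by ring
    rw [e2]
    linarith
  obtain ⟨γ, hγ⟩ : ∃ γ, γ = m c * M / (m a + m b) := ⟨_, rfl⟩
  have hγ0 : 0 < γ := by rw [hγ]; positivity
  have hγg : γ ≤ g := by
    rw [hγ, hg, div_le_div_iff₀ (by positivity) hμ]
    have h1 : m c ≤ M := by linarith
    have h2 : μ ≤ m a + m b := by have := hμm a; linarith
    have h3 : m c * μ ≤ M * (m a + m b) := by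
      have := hμ.le
      gcongr
    calc m c * M * μ = M * (m c * μ) := by ring
      _ ≤ M * (M * (m a + m b)) := by gcongr
      _ = _ := by ring
  obtain ⟨u, hu⟩ : ∃ u, u = ‖y.1 c‖ := ⟨_, rfl⟩
  obtain ⟨P, hP⟩ : ∃ P, P = inner ℝ (y.1 c) (vel m y c) := ⟨_, rfl⟩
  obtain ⟨Ai, hAi⟩ : ∃ Ai, Ai = α * inner ℝ (y.1 a - y.1 b) (vel m y a - vel m y b) := ⟨_, rfl⟩
  obtain ⟨J, hJd⟩ : ∃ J, J = LJ m y := ⟨_, rfl⟩
  have hu0 : 0 ≤ u := by rw [hu]; exact norm_nonneg _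
  rw [← hα, ← hγ, ← hr, ← hu, ← hS2] at hIn
  rw [← hα, ← hγ, ← hP, ← hAi, ← hJd] at hJe
  rw [← hα, ← hγ] at hT
  rw [← hS, ← hJd] at hJ
  rw [← hJd] at hJ0
  -- the pair is tight
  have hK : Ki m y ≤ M ^ 2 / (2 * r) := by
    have h1 := surf_ener m hm E y hy
    have h2 := Po_le m hm M hMdef.symm y.1 r hr0 hmin'
    linarith
  have hK2 : 2 * Ki m y ≤ M ^ 2 / r := by
    have : M ^ 2 / r = 2 * (M ^ 2 / (2 * r)) := by field_simp
    rw [this]; linarith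
  have hrC : r * C < M ^ 2 * S := by
    have h1 := cs m hm y
    rw [← hS2, ← hJd] at h1
    have h2 : C * S < S ^ 2 * (M ^ 2 / r) := by
      have : S ^ 2 * (2 * Ki m y) ≤ S ^ 2 * (M ^ 2 / r) := by gcongr
      linarith
    have h3 : S ^ 2 * (M ^ 2 / r) = S * (M ^ 2 * S) / r := by ring
    rw [h3, lt_div_iff₀ hr0] at h2
    have h4 : S * (r * C) < S * (M ^ 2 * S) := by linarith
    exact lt_of_mul_lt_mul_left h4 hS0.le
  have hrC2 : r ^ 2 * C ^ 2 < M ^ 4 * S ^ 2 := by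
    have := pow_lt_pow_left₀ hrC (by positivity) two_ne_zero
    calc r ^ 2 * C ^ 2 = (r * C) ^ 2 := by ring
      _ < (M ^ 2 * S) ^ 2 := this
      _ = _ := by ring
  have hC2 : 0 < C ^ 2 := by positivity
  -- `2 M r ^ 2 ≤ S ^ 2`
  have hr2 : 2 * M * r ^ 2 ≤ S ^ 2 := by
    have h1 : C ^ 2 * (2 * M * r ^ 2) ≤ C ^ 2 * S ^ 2 := by
      have h2 : 2 * M * (r ^ 2 * C ^ 2) ≤ 2 * M * (M ^ 4 * S ^ 2) := by gcongr
      have h3 : 4 * M ^ 5 * S ^ 2 ≤ C ^ 2 * S ^ 2 := by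
        have := hX1.trans hXC
        gcongr
      have h4 : 0 ≤ M ^ 5 * S ^ 2 := by positivity
      calc C ^ 2 * (2 * M * r ^ 2) = 2 * M * (r ^ 2 * C ^ 2) := by ring
        _ ≤ 2 * M * (M ^ 4 * S ^ 2) := h2
        _ = 2 * (M ^ 5 * S ^ 2) := by ring
        _ ≤ 4 * M ^ 5 * S ^ 2 := by linarith
        _ ≤ _ := h3
    exact le_of_mul_le_mul_left h1 hC2
  have hγu : S ^ 2 / 2 ≤ γ * u ^ 2 := by
    have : α * r ^ 2 ≤ M * r ^ 2 := by gcongr
    linarith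
  have hγu' : γ * u ^ 2 ≤ S ^ 2 := by
    have : 0 ≤ α * r ^ 2 := by positivity
    linarith
  have hupos : 0 < u := by
    rcases eq_or_lt_of_le hu0 with h | h
    · rw [← h] at hγu
      have : 0 < S ^ 2 := by positivity
      norm_num at hγu
      linarith
    · exact h
  -- `r < u / 2`
  have hru : r < u / 2 := by
    by_contra hcon
    push Not at hcon
    have h1 : u ^ 2 ≤ 4 * r ^ 2 := by
      have e1 := pow_le_pow_left₀ (by positivity : 0 ≤ u / 2) hcon 2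
      have e2 : (u / 2) ^ 2 = u ^ 2 / 4 := by ring
      rw [e2] at e1
      linarith
    have h2 : γ * u ^ 2 ≤ g * (4 * r ^ 2) := by gcongr
    have h3 : S ^ 2 ≤ 8 * g * r ^ 2 := by linarith
    have h4 : M ^ 4 * S ^ 2 ≤ M ^ 4 * (8 * g * r ^ 2) := by gcongr
    have h5 : 8 * M ^ 4 * g * r ^ 2 ≤ C ^ 2 * r ^ 2 := by
      have := hX2.trans hXC
      gcongr
    linarith
  -- the inner part of `J`
  have hAi2 : 4 * Ai ^ 2 ≤ C * S := by
    have h1 := abs_real_inner_le_norm (y.1 a - y.1 b) (vel m y a - vel m y b)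
    rw [← hr] at h1
    have h2 : (inner ℝ (y.1 a - y.1 b) (vel m y a - vel m y b)) ^ 2 ≤
        r ^ 2 * ‖vel m y a - vel m y b‖ ^ 2 := by
      rw [← sq_abs, ← mul_pow]
      exact pow_le_pow_left₀ (abs_nonneg _) h1 2
    have h3 : α * ‖vel m y a - vel m y b‖ ^ 2 ≤ M ^ 2 / r := by
      have h4 : 0 ≤ γ * ‖vel m y c‖ ^ 2 := by positivity
      linarith
    have h5 : Ai ^ 2 ≤ M ^ 3 * r := by
      calc Ai ^ 2 = α ^ 2 * (inner ℝ (y.1 a - y.1 b) (vel m y a - vel m y b)) ^ 2 := by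
            rw [hAi]; ring
        _ ≤ α ^ 2 * (r ^ 2 * ‖vel m y a - vel m y b‖ ^ 2) := by gcongr
        _ = α * r ^ 2 * (α * ‖vel m y a - vel m y b‖ ^ 2) := by ring
        _ ≤ α * r ^ 2 * (M ^ 2 / r) := by gcongr
        _ = α * M ^ 2 * r := by field_simp
        _ ≤ M * M ^ 2 * r := by gcongr
        _ = M ^ 3 * r := by ring
    have h6 : C * (4 * Ai ^ 2) ≤ C * (C * S) := by
      have e1 : M ^ 3 * (r * C) ≤ M ^ 3 * (M ^ 2 * S) := by gcongr
      have e2 : C * (4 * Ai ^ 2) ≤ C * (4 * (M ^ 3 * r)) := by gcongr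
      have e3 : 4 * M ^ 5 * S ≤ C ^ 2 * S := by
        have := hX1.trans hXC
        gcongr
      calc C * (4 * Ai ^ 2) ≤ C * (4 * (M ^ 3 * r)) := e2
        _ = 4 * (M ^ 3 * (r * C)) := by ring
        _ ≤ 4 * (M ^ 3 * (M ^ 2 * S)) := by linarith
        _ = 4 * M ^ 5 * S := by ring
        _ ≤ C ^ 2 * S := e3
        _ = C * (C * S) := by ring
    exact le_of_mul_le_mul_left h6 hC0
  have hAJ : 2 * Ai < J := by
    have h1 : (2 * Ai) ^ 2 < J ^ 2 := by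
      have e1 : (2 * Ai) ^ 2 = 4 * Ai ^ 2 := by ring
      rw [e1]
      linarith
    have h2 := abs_lt_of_sq_lt_sq h1 hJ0.le
    exact (abs_lt.1 h2).2
  have hγP : J / 2 < γ * P := by linarith
  have hPpos : 0 < P := by
    have h1 : 0 < γ * P := by linarith
    exact (mul_pos_iff_of_pos_left hγ0).1 h1
  have hPP : C * S < 4 * γ ^ 2 * P ^ 2 := by
    have h1 := pow_lt_pow_left₀ hγP (by positivity) two_ne_zero
    have e1 : (J / 2) ^ 2 = J ^ 2 / 4 := by ring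
    have e2 : (γ * P) ^ 2 = γ ^ 2 * P ^ 2 := by ring
    rw [e1, e2] at h1
    have e3 : 4 * γ ^ 2 * P ^ 2 = 4 * (γ ^ 2 * P ^ 2) := by ring
    rw [e3]
    linarith
  have hLP : L < P ^ 2 / u := by
    rw [lt_div_iff₀ hupos]
    by_contra hcon
    push Not at hcon
    have h1 : C * S < 4 * γ ^ 2 * (L * u) := by
      have : 4 * γ ^ 2 * P ^ 2 ≤ 4 * γ ^ 2 * (L * u) := by gcongr
      linarith
    have h2 := pow_lt_pow_left₀ h1 (by positivity) two_ne_zero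
    have h3 : (4 * γ ^ 2 * (L * u)) ^ 2 = 16 * γ ^ 3 * L ^ 2 * (γ * u ^ 2) := by ring
    have h4 : 16 * γ ^ 3 * L ^ 2 * (γ * u ^ 2) ≤ 16 * g ^ 3 * L ^ 2 * S ^ 2 := by gcongr
    have h5 : 16 * g ^ 3 * L ^ 2 * S ^ 2 ≤ C ^ 2 * S ^ 2 := by
      have := hX3.trans hXC
      gcongr
    rw [h3, mul_pow] at h2
    linarith
  have hdyn := dyn m hm M hMdef.symm E hE ψ φ hφ y hy a b c hab hca hcb
    (by rw [← hP]; exact hPpos) (by rw [← hr, ← hu]; exact hru)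
    (by
      rw [← hu, ← hP]
      have e1 : 2 * (2 * (m a * m b) / m c) ≤ 4 * g := by
        have : 2 * (2 * (m a * m b) / m c) = 4 * (m a * m b / m c) := by ring
        rw [this]
        have h1 : m a * m b / m c ≤ g := by
          rw [hg, sq]
          have h1 : m a ≤ M := by linarith
          have h2 : m b ≤ M := by linarith
          have h3 := hμm c
          gcongr
        linarith
      have e2 : P ^ 2 / u ^ 2 = P ^ 2 / u / u := by field_simp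
      rw [e2, ← sub_div]
      have e3 : 2 * (2 * (m a * m b) / m c) < P ^ 2 / u - 2 * (4 * M) := by linarith
      gcongr)
  intro s hs
  have h1 := hdyn s hs
  have h2 : γ * ‖(φ s y).1 c‖ ^ 2 ≤ In m (φ s y).1 := by
    have hqs' : m a • (φ s y).1 a + (m b • (φ s y).1 b + m c • (φ s y).1 c) = 0 := by
      rw [← sum3 (fun i => m i • (φ s y).1 i) a b c hab hca hcb]
      exact ((hφ.flow y hy).2 s).1.2.1
    have h3 : In m (φ s y).1 = m a * m b / (m a + m b) * ‖(φ s y).1 a - (φ s y).1 b‖ ^ 2 +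
        m c * M / (m a + m b) * ‖(φ s y).1 c‖ ^ 2 := by
      rw [← hMs, ← split3' hma hmb _ _ _ hqs']
      unfold In
      rw [sum3 _ a b c hab hca hcb]
    rw [h3, ← hγ, ← hα]
    have : 0 ≤ α * ‖(φ s y).1 a - (φ s y).1 b‖ ^ 2 := by positivity
    linarith
  rw [← hS2]
  rw [← hu] at h1
  have h3 : γ * u ^ 2 ≤ γ * ‖(φ s y).1 c‖ ^ 2 := by gcongr
  linarith

end Pool.Agent.T6.H53.NB
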