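import Mathlib

set_option autoImplicit false

/-! Complete flows of locally Lipschitz fields on an invariant set: group law, continuity of the
maps of the flow, invariance of the set of nonwandering points. -/

namespace Pool.Agent.T6.H53.NB

open Set Filter Topology
open scoped NNReal

variable {F : Type*} [NormedAddCommGroup F] [NormedSpace ℝ F]

/-- a complete flow on `S` of the field `Z`, which is locally Lipschitz near the points of `S` -/
structure FlowOn (S : Set F) (Z : F → F) (φ : ℝ → F → F) : Prop where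
  zero : ∀ x ∈ S, φ 0 x = x
  mem : ∀ x ∈ S, ∀ t, φ t x ∈ S
  der : ∀ x ∈ S, ∀ t, HasDerivAt (fun s => φ s x) (Z (φ t x)) t
  lip : ∀ x ∈ S, ∃ K : ℝ≥0, ∃ u ∈ 𝓝 x, LipschitzOnWith K Z u

/-- two global solutions in `S` with the same initial value agree -/
theorem uniq {S : Set F} {Z : F → F}
    (hlip : ∀ x ∈ S, ∃ K : ℝ≥0, ∃ u ∈ 𝓝 x, LipschitzOnWith K Z u) {f g : ℝ → F}
    (hf : ∀ t, f t ∈ S ∧ HasDerivAt f (Z (f t)) t) (hg : ∀ t, g t ∈ S ∧ HasDerivAt g (Z (g t)) t)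
    (h0 : f 0 = g 0) : ∀ t, f t = g t := by
  have hfc : Continuous f := continuous_iff_continuousAt.mpr fun t => (hf t).2.continuousAt
  have hgc : Continuous g := continuous_iff_continuousAt.mpr fun t => (hg t).2.continuousAt
  have hcl : IsClosed {t | f t = g t} := isClosed_eq hfc hgc
  have hop : IsOpen {t | f t = g t} := by
    rw [isOpen_iff_mem_nhds]
    intro t0 ht0
    obtain ⟨K, u, hu, hK⟩ := hlip (f t0) (hf t0).1
    have h1 : ∀ᶠ t in 𝓝 t0, HasDerivAt f (Z (f t)) t ∧ f t ∈ u :=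
      (hfc.continuousAt.eventually_mem hu).mono fun t ht => ⟨(hf t).2, ht⟩
    have h2 : ∀ᶠ t in 𝓝 t0, HasDerivAt g (Z (g t)) t ∧ g t ∈ u := by
      have hu' : u ∈ 𝓝 (g t0) := by
        have : f t0 = g t0 := ht0
        rw [← this]; exact hu
      exact (hgc.continuousAt.eventually_mem hu').mono fun t ht => ⟨(hg t).2, ht⟩
    exact ODE_solution_unique_of_eventually (v := fun _ => Z) (s := fun _ => u) (K := K)
      (Eventually.of_forall fun _ => hK) h1 h2 ht0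
  have huniv := (IsClopen.eq_univ ⟨hcl, hop⟩ ⟨0, h0⟩)
  intro t
  have : t ∈ {t | f t = g t} := by rw [huniv]; trivial
  exact this

theorem FlowOn.add {S : Set F} {Z : F → F} {φ : ℝ → F → F} (h : FlowOn S Z φ) {x : F}
    (hx : x ∈ S) (s t : ℝ) : φ t (φ s x) = φ (t + s) x := by
  have hsx := h.mem x hx s
  refine uniq h.lip (f := fun t => φ t (φ s x)) (g := fun t => φ (t + s) x)
    (fun t => ⟨h.mem _ hsx t, h.der _ hsx t⟩) (fun t => ⟨h.mem x hx _, ?_⟩) ?_ t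
  · exact (h.der x hx (t + s)).comp_add_const t s
  · show φ 0 (φ s x) = φ (0 + s) x
    rw [h.zero _ hsx, zero_add]

/-- curves starting near `x0` stay near `x0` for a short time -/
theorem stay {Z : F → F} {x0 : F} {ρ L s1 : ℝ} (hL : 0 ≤ L)
    (hZ : ∀ y ∈ Metric.ball x0 ρ, ‖Z y‖ ≤ L) (hLs : L * s1 < ρ / 2) {γ : ℝ → F}
    (hγ : ∀ t, HasDerivAt γ (Z (γ t)) t) (h0 : γ 0 ∈ Metric.ball x0 (ρ / 2)) :
    ∀ s, 0 ≤ s → s ≤ s1 → γ s ∈ Metric.ball x0 ρ := by
  have hcont : Continuous γ := continuous_iff_continuousAt.2 fun s => (hγ s).continuousAt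
  by_contra hcon
  push Not at hcon
  obtain ⟨s, hs0, hss, hsb⟩ := hcon
  obtain ⟨A, hA⟩ : ∃ A : Set ℝ, A = Icc 0 s1 ∩ {s | ρ ≤ ‖γ s - x0‖} := ⟨_, rfl⟩
  have hcl : IsClosed A := by
    rw [hA]
    exact isClosed_Icc.inter (isClosed_le continuous_const ((hcont.sub continuous_const).norm))
  have hne : A.Nonempty := by
    rw [hA]
    refine ⟨s, ⟨hs0, hss⟩, ?_⟩
    rw [mem_ball_iff_norm] at hsb
    exact not_lt.1 hsb
  have hbd : BddBelow A := by
    rw [hA]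
    exact ⟨0, fun x hx => hx.1.1⟩
  have hT := hcl.csInf_mem hne hbd
  obtain ⟨T, hTT⟩ : ∃ T, T = sInf A := ⟨_, rfl⟩
  rw [← hTT] at hT
  have hT2 := hT
  rw [hA] at hT2
  obtain ⟨⟨hT0, hTs⟩, hTρ⟩ := hT2
  have hlow : ∀ u ∈ Ico 0 T, ‖Z (γ u)‖ ≤ L := by
    intro u hu
    have h4 : γ u ∈ Metric.ball x0 ρ := by
      by_contra hc
      have h5 : u ∈ A := by
        rw [hA]
        refine ⟨⟨hu.1, hu.2.le.trans hTs⟩, ?_⟩
        rw [mem_ball_iff_norm] at hc
        exact not_lt.1 hc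
      have h6 := csInf_le hbd h5
      rw [← hTT] at h6
      linarith [hu.2]
    exact hZ _ h4
  have h7 := norm_image_sub_le_of_norm_deriv_le_segment' (f := γ)
    (f' := fun t => Z (γ t)) (a := 0) (b := T) (C := L)
    (fun x _ => (hγ x).hasDerivWithinAt) hlow T ⟨hT0, le_rfl⟩
  simp only [sub_zero] at h7
  have h8 : ‖γ 0 - x0‖ < ρ / 2 := by
    rw [← mem_ball_iff_norm]
    exact h0
  have h9 : ρ ≤ ‖γ T - x0‖ := hTρ
  have h10 : ‖γ T - x0‖ ≤ ‖γ T - γ 0‖ + ‖γ 0 - x0‖ := by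
    have : γ T - x0 = (γ T - γ 0) + (γ 0 - x0) := by abel
    rw [this]
    exact norm_add_le _ _
  have h11 : L * T ≤ L * s1 := by gcongr
  linarith

/-- short-time Lipschitz dependence on the initial value, forward in time -/
theorem FlowOn.short {S : Set F} {Z : F → F} {φ : ℝ → F → F} (h : FlowOn S Z φ) {x0 : F}
    (hx0 : x0 ∈ S) : ∃ ρ > 0, ∃ s1 > 0, ∃ K : ℝ≥0, ∀ y ∈ S ∩ Metric.ball x0 ρ,
      ∀ y' ∈ S ∩ Metric.ball x0 ρ, ∀ t, 0 ≤ t → t ≤ s1 →
        dist (φ t y) (φ t y') ≤ dist y y' * Real.exp (K * t) := by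
  obtain ⟨K, u, hu, hK⟩ := h.lip x0 hx0
  obtain ⟨ρ, hρ, hball⟩ := Metric.mem_nhds_iff.1 hu
  obtain ⟨L, hL⟩ : ∃ L, L = ‖Z x0‖ + K * ρ + 1 := ⟨_, rfl⟩
  have hLp : 0 < L := by rw [hL]; positivity
  have hZ : ∀ y ∈ Metric.ball x0 ρ, ‖Z y‖ ≤ L := by
    intro y hy
    have h1 := hK.dist_le_mul y (hball hy) x0 (hball (Metric.mem_ball_self hρ))
    rw [dist_eq_norm] at h1
    have h2 : (K : ℝ) * dist y x0 ≤ K * ρ := by
      gcongr
      exact (Metric.mem_ball.1 hy).le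
    have h3 : ‖Z y‖ ≤ ‖Z y - Z x0‖ + ‖Z x0‖ := by
      have : Z y = (Z y - Z x0) + Z x0 := by abel
      calc ‖Z y‖ = ‖(Z y - Z x0) + Z x0‖ := by rw [← this]
        _ ≤ _ := norm_add_le _ _
    rw [hL]
    linarith
  obtain ⟨s1, hs1⟩ : ∃ s1, s1 = ρ / (4 * L) := ⟨_, rfl⟩
  have hs1p : 0 < s1 := by rw [hs1]; positivity
  have hLs : L * s1 < ρ / 2 := by
    rw [hs1]
    have : L * (ρ / (4 * L)) = ρ / 4 := by field_simp
    rw [this]
    linarith
  refine ⟨ρ / 2, by positivity, s1, hs1p, K, ?_⟩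
  rintro y ⟨hyS, hyb⟩ y' ⟨hyS', hyb'⟩ t ht0 ht1
  have e1 := stay (γ := fun t => φ t y) hLp.le hZ hLs (h.der y hyS)
    (by show φ 0 y ∈ _; rw [h.zero y hyS]; exact hyb)
  have e2 := stay (γ := fun t => φ t y') hLp.le hZ hLs (h.der y' hyS')
    (by show φ 0 y' ∈ _; rw [h.zero y' hyS']; exact hyb')
  have h1 := dist_le_of_trajectories_ODE_of_mem (v := fun _ => Z) (K := K) (s := fun _ => u)
    (f := fun t => φ t y) (g := fun t => φ t y') (a := 0) (b := s1) (δ := dist y y')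
    (fun _ _ => hK)
    (fun t _ => (h.der y hyS t).continuousAt.continuousWithinAt)
    (fun t _ => (h.der y hyS t).hasDerivWithinAt)
    (fun t ht => hball (e1 t ht.1 ht.2.le))
    (fun t _ => (h.der y' hyS' t).continuousAt.continuousWithinAt)
    (fun t _ => (h.der y' hyS' t).hasDerivWithinAt)
    (fun t ht => hball (e2 t ht.1 ht.2.le))
    (by show dist (φ 0 y) (φ 0 y') ≤ _; rw [h.zero y hyS, h.zero y' hyS']) t ⟨ht0, ht1⟩
  simpa using h1

/-- the reversed flow -/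
theorem FlowOn.rev {S : Set F} {Z : F → F} {φ : ℝ → F → F} (h : FlowOn S Z φ) :
    FlowOn S (fun x => -Z x) (fun t => φ (-t)) := by
  refine ⟨fun x hx => by simpa using h.zero x hx, fun x hx t => h.mem x hx _, ?_, ?_⟩
  · intro x hx t
    have h1 : HasDerivAt (fun t => φ (-t) x) ((-1 : ℝ) • Z (φ (-t) x)) t :=
      (h.der x hx (-t)).scomp t (hasDerivAt_neg t)
    simpa using h1
  · intro x hx
    obtain ⟨K, u, hu, hK⟩ := h.lip x hx
    exact ⟨K, u, hu, hK.neg⟩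

/-- short-time continuity -/
theorem FlowOn.cont_short {S : Set F} {Z : F → F} {φ : ℝ → F → F} (h : FlowOn S Z φ) {x0 : F}
    (hx0 : x0 ∈ S) : ∃ ρ > 0, ∃ s1 > 0, ∀ y ∈ S ∩ Metric.ball x0 ρ, ∀ t, |t| ≤ s1 →
      ContinuousWithinAt (φ t) S y := by
  obtain ⟨ρ, hρ, s1, hs1, K, hK⟩ := h.short hx0
  obtain ⟨ρ', hρ', s1', hs1', K', hK'⟩ := h.rev.short hx0
  have key : ∀ (r : ℝ) (C : ℝ) (f : F → F) (y : F), 0 ≤ C → y ∈ S ∩ Metric.ball x0 r →
      (∀ y' ∈ S ∩ Metric.ball x0 r, dist (f y) (f y') ≤ dist y y' * C) →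
      ContinuousWithinAt f S y := by
    intro r C f y hC hy hf
    rw [Metric.continuousWithinAt_iff]
    intro ε hε
    obtain ⟨r', hr', hb⟩ := Metric.isOpen_iff.1 (Metric.isOpen_ball (x := x0) (ε := r)) y hy.2
    refine ⟨min r' (ε / (C + 1)), lt_min hr' (by positivity), ?_⟩
    intro y' hy' hd
    have h1 : y' ∈ Metric.ball x0 r := hb (Metric.mem_ball.2 (hd.trans_le (min_le_left _ _)))
    have h2 := hf y' ⟨hy', h1⟩
    have h3 : dist y' y < ε / (C + 1) := hd.trans_le (min_le_right _ _)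
    rw [lt_div_iff₀ (by positivity)] at h3
    rw [dist_comm]
    rw [dist_comm y y'] at h2
    nlinarith [dist_nonneg (x := y') (y := y)]
  refine ⟨min ρ ρ', lt_min hρ hρ', min s1 s1', lt_min hs1 hs1', ?_⟩
  intro y hy t ht
  rcases le_total 0 t with h0 | h0
  · rw [abs_of_nonneg h0] at ht
    have hsub : Metric.ball x0 (min ρ ρ') ⊆ Metric.ball x0 ρ :=
      Metric.ball_subset_ball (min_le_left _ _)
    refine key ρ (Real.exp (K * t)) (φ t) y (Real.exp_pos _).le ⟨hy.1, hsub hy.2⟩ ?_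
    intro y' hy'
    exact hK y ⟨hy.1, hsub hy.2⟩ y' hy' t h0 (ht.trans (min_le_left _ _))
  · rw [abs_of_nonpos h0] at ht
    have hsub : Metric.ball x0 (min ρ ρ') ⊆ Metric.ball x0 ρ' :=
      Metric.ball_subset_ball (min_le_right _ _)
    refine key ρ' (Real.exp (K' * (-t))) (φ t) y (Real.exp_pos _).le ⟨hy.1, hsub hy.2⟩ ?_
    intro y' hy'
    have := hK' y ⟨hy.1, hsub hy.2⟩ y' hy' (-t) (by linarith) (ht.trans (min_le_right _ _))
    simpa using this

/-- the maps of the flow are continuous on `S` -/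
theorem FlowOn.cont {S : Set F} {Z : F → F} {φ : ℝ → F → F} (h : FlowOn S Z φ) {x : F}
    (hx : x ∈ S) (s : ℝ) : ContinuousWithinAt (φ s) S x := by
  have hxc : Continuous fun t => φ t x :=
    continuous_iff_continuousAt.2 fun t => (h.der x hx t).continuousAt
  have key : ∀ t0 : ℝ, ∃ ε > 0, ∀ a b, |a - t0| < ε → |b - t0| < ε →
      ContinuousWithinAt (φ a) S x → ContinuousWithinAt (φ b) S x := by
    intro t0
    obtain ⟨ρ, hρ, s1, hs1, hloc⟩ := h.cont_short (h.mem x hx t0)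
    have h1 : ∀ᶠ t in 𝓝 t0, φ t x ∈ Metric.ball (φ t0 x) ρ :=
      hxc.continuousAt.eventually_mem (Metric.ball_mem_nhds _ hρ)
    obtain ⟨ε, hε, he⟩ := Metric.eventually_nhds_iff.1 h1
    refine ⟨min ε (s1 / 2), lt_min hε (by positivity), ?_⟩
    intro a b ha hb hca
    have h2 : φ a x ∈ Metric.ball (φ t0 x) ρ := he (by
      rw [Real.dist_eq]; exact ha.trans_le (min_le_left _ _))
    have h3 : |b - a| ≤ s1 := by
      have e1 := ha.trans_le (min_le_right _ _)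
      have e2 := hb.trans_le (min_le_right _ _)
      rw [abs_lt] at e1 e2
      rw [abs_le]
      constructor <;> linarith [e1.1, e1.2, e2.1, e2.2]
    have h4 := hloc (φ a x) ⟨h.mem x hx a, h2⟩ (b - a) h3
    have h5 : ContinuousWithinAt (φ (b - a) ∘ φ a) S x :=
      ContinuousWithinAt.comp h4 hca (fun y hy => h.mem y hy a)
    refine h5.congr (fun y hy => ?_) ?_
    · show φ b y = φ (b - a) (φ a y)
      rw [h.add hy, sub_add_cancel]
    · show φ b x = φ (b - a) (φ a x)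
      rw [h.add hx, sub_add_cancel]
  have hop : IsOpen {t | ContinuousWithinAt (φ t) S x} := by
    rw [Metric.isOpen_iff]
    intro t0 ht0
    obtain ⟨ε, hε, hk⟩ := key t0
    refine ⟨ε, hε, fun b hb => hk t0 b (by simpa using hε) ?_ ht0⟩
    rw [Metric.mem_ball, Real.dist_eq] at hb
    exact hb
  have hcl : IsClosed {t | ContinuousWithinAt (φ t) S x} := by
    rw [← isOpen_compl_iff, Metric.isOpen_iff]
    intro t0 ht0
    obtain ⟨ε, hε, hk⟩ := key t0
    refine ⟨ε, hε, fun b hb hcb => ht0 (hk b t0 ?_ (by simpa using hε) hcb)⟩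
    rw [Metric.mem_ball, Real.dist_eq] at hb
    exact hb
  have h0 : (0 : ℝ) ∈ {t | ContinuousWithinAt (φ t) S x} := by
    show ContinuousWithinAt (φ 0) S x
    exact continuousWithinAt_id.congr (fun y hy => h.zero y hy) (h.zero x hx)
  have huniv := IsClopen.eq_univ ⟨hcl, hop⟩ ⟨0, h0⟩
  have : s ∈ {t | ContinuousWithinAt (φ t) S x} := by rw [huniv]; trivial
  exact this

/-- the set of nonwandering points is invariant -/
theorem FlowOn.nonw {S : Set F} {Z : F → F} {φ : ℝ → F → F} (h : FlowOn S Z φ) {x : F}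
    (hx : x ∈ S)
    (hN : ∀ V : Set F, IsOpen V → x ∈ V → ∀ T : ℝ, ∃ t : ℝ, T < t ∧ ∃ y ∈ V ∩ S, φ t y ∈ V)
    (s : ℝ) :
    ∀ V : Set F, IsOpen V → φ s x ∈ V → ∀ T : ℝ, ∃ t : ℝ, T < t ∧ ∃ y ∈ V ∩ S, φ t y ∈ V := by
  intro V hV hxV T
  have h1 : (φ s) ⁻¹' V ∈ 𝓝[S] x := (h.cont hx s).preimage_mem_nhdsWithin (hV.mem_nhds hxV)
  obtain ⟨W, hW, hxW, hWV⟩ := mem_nhdsWithin.1 h1
  obtain ⟨t, ht, y, ⟨hyW, hyS⟩, hφy⟩ := hN W hW hxW T
  refine ⟨t, ht, φ s y, ⟨hWV ⟨hyW, hyS⟩, h.mem y hyS s⟩, ?_⟩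
  have h2 : φ t (φ s y) = φ s (φ t y) := by
    rw [h.add hyS, h.add hyS, add_comm]
  rw [h2]
  exact hWV ⟨hφy, h.mem y hyS t⟩

end Pool.Agent.T6.H53.NB
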