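import Pool.Agent.T6.H53.NB.Sharp3

set_option autoImplicit false

/-! Growth of nonwandering orbits at most at the parabolic rate. -/

namespace Pool.Agent.T6.H53.NB

open Set Filter Topology Pool.Agent.Y516.NW Pool.Agent.Y438.NW MeasureTheory

/-- growth bound, forward, when `f' ≤ B g'` as long as `f ≥ f0` -/
theorem growFwd (f f' g g' : ℝ → ℝ) (B f0 : ℝ)
    (hf : ∀ s, HasDerivAt f (f' s) s) (hg : ∀ s, HasDerivAt g (g' s) s) (hg' : ∀ s, 0 < g' s)
    (h : ∀ s, f0 ≤ f s → f' s ≤ B * g' s) (hB : 0 ≤ B) (s : ℝ) (hs : 0 ≤ s) :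
    f s ≤ max (f 0) f0 + B * (g s - g 0) := by
  have hgm : Monotone g := monotone_of_deriv_nonneg (fun s => (hg s).differentiableAt)
    (fun s => by rw [(hg s).deriv]; exact (hg' s).le)
  have hgs : 0 ≤ g s - g 0 := by have := hgm hs; linarith
  have key : ∀ d : ℝ, 0 < d → f s ≤ max (f 0) f0 + (B + d) * (g s - g 0) + d := by
    intro d hd
    have := image_le_of_deriv_right_lt_deriv_boundary (f := f) (f' := f') (a := 0) (b := s)
      (B := fun u => max (f 0) f0 + (B + d) * (g u - g 0) + d) (B' := fun u => (B + d) * g' u)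
      (fun u _ => (hf u).continuousAt.continuousWithinAt)
      (fun u _ => (hf u).hasDerivWithinAt)
      (by
        show f 0 ≤ max (f 0) f0 + (B + d) * (g 0 - g 0) + d
        have := le_max_left (f 0) f0
        rw [sub_self, mul_zero]
        linarith)
      (fun u => by
        have h1 : HasDerivAt (fun u => max (f 0) f0 + (B + d) * (g u - g 0) + d)
            ((B + d) * g' u) u :=
          ((((hg u).sub_const (g 0)).const_mul (B + d)).const_add (max (f 0) f0)).add_const d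
        exact h1)
      (by
        intro u hu hfu
        have e1 : f u = max (f 0) f0 + (B + d) * (g u - g 0) + d := hfu
        have e2 := le_max_right (f 0) f0
        have e3 : 0 ≤ g u - g 0 := by have := hgm hu.1; linarith
        have e4 : 0 ≤ (B + d) * (g u - g 0) := by positivity
        have e5 := h u (by linarith)
        have e6 := hg' u
        have e7 : B * g' u < (B + d) * g' u := by
          have : 0 < d * g' u := by positivity
          linarith [add_mul B d (g' u)]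
        exact lt_of_le_of_lt e5 e7)
    exact this ⟨hs, le_rfl⟩
  refine le_of_forall_pos_le_add fun e he => ?_
  have h1 : 0 < e / (g s - g 0 + 1) := by positivity
  have h2 := key (e / (g s - g 0 + 1)) h1
  have h3 : (e / (g s - g 0 + 1)) * (g s - g 0) + e / (g s - g 0 + 1) = e := by
    field_simp
  linarith [add_mul B (e / (g s - g 0 + 1)) (g s - g 0)]

/-- both directions -/
theorem growBoth (f f' g g' : ℝ → ℝ) (B f0 : ℝ)
    (hf : ∀ s, HasDerivAt f (f' s) s) (hg : ∀ s, HasDerivAt g (g' s) s) (hg' : ∀ s, 0 < g' s)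
    (h : ∀ s, f0 ≤ f s → |f' s| ≤ B * g' s) (hB : 0 ≤ B) (s : ℝ) :
    f s ≤ max (f 0) f0 + B * |g s - g 0| := by
  rcases le_total 0 s with hs | hs
  · refine (growFwd f f' g g' B f0 hf hg hg' (fun s hs => (le_abs_self _).trans (h s hs)) hB s
      hs).trans ?_
    gcongr
    exact le_abs_self _
  · have hrev : ∀ (f f' : ℝ → ℝ), (∀ s, HasDerivAt f (f' s) s) →
        ∀ s, HasDerivAt (fun s => f (-s)) (-(f' (-s))) s := by
      intro f f' hf s
      have h1 : HasDerivAt (fun s => f (-s)) (f' (-s) * (-1)) s :=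
        (hf (-s)).comp s (hasDerivAt_neg s)
      refine h1.congr_deriv ?_
      ring
    have h1 := growFwd (fun s => f (-s)) (fun s => -(f' (-s))) (fun s => -(g (-s)))
      (fun s => g' (-s)) B f0 (hrev f f' hf)
      (fun s => ((hrev g g' hg s).neg).congr_deriv (by ring))
      (fun s => hg' _) (fun s hs => (neg_le_abs _).trans (h (-s) hs)) hB (-s) (by linarith)
    simp only [neg_neg, neg_zero] at h1
    refine h1.trans ?_
    have h2 : -g s - -g 0 ≤ |g s - g 0| := by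
      have := neg_le_abs (g s - g 0)
      linarith
    gcongr

/-- the sharp bound at all far points of a nonwandering orbit, and the growth it implies -/
theorem sharpAll (m : Fin 3 → ℝ) (hm : ∀ i, 0 < m i) (p : ℝ) (hp : ∀ c, par m c ≤ p) (ε : ℝ)
    (hε : 0 < ε) : ∃ K : ℝ, 0 < K ∧
    ∀ (E : ℝ), E < 0 → ∀ (ψ : Cfg 3 × Cfg 3 → ℝ) (φ : ℝ → Cfg 3 × Cfg 3 → Cfg 3 × Cfg 3),
      ContDiffOn ℝ ((⊤ : ℕ∞) : WithTop ℕ∞) ψ (Free 3) → IsFl m E ψ φ →
      ∀ x ∈ Surf m E, NonW (Surf m E) φ x →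
        (K ≤ Real.sqrt (In m x.1) * (-E) →
          ∃ c, (LJ m x) ^ 2 ≤ (1 + ε) * par m c * Real.sqrt (In m x.1)) ∧
        ∀ s, Real.sqrt (In m (φ s x).1) ^ (3 / 2 : ℝ) ≤
          max (Real.sqrt (In m x.1)) (K / (-E)) ^ (3 / 2 : ℝ) +
            3 / 2 * Real.sqrt ((1 + ε) * p) * |tau ψ φ x s| := by
  obtain ⟨K, hK, h⟩ := sharp m hm ε hε
  refine ⟨K, hK, ?_⟩
  intro E hE ψ φ hψ hφ x hx hNW
  refine ⟨h E hE ψ φ hψ hφ x hx hNW, ?_⟩
  have hsur : ∀ s, φ s x ∈ Surf m E := fun s => ((hφ.flow x hx).2 s).1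
  have hnw : ∀ s, NonW (Surf m E) φ (φ s x) := fun s => nonw m E ψ hψ φ hφ x hx hNW s
  have hI : ∀ s, 0 < In m (φ s x).1 := fun s =>
    In_pos (by norm_num) m hm _ (surf_free m E (hsur s))
  have hψp : ∀ s, 0 < ψ (φ s x) := fun s => hφ.pos _ (surf_free m E (hsur s))
  have hE' : 0 < -E := by linarith
  have hf : ∀ s, HasDerivAt (fun s => (In m (φ s x).1) ^ (3 / 4 : ℝ))
      (2 * (ψ (φ s x) * LJ m (φ s x)) * (3 / 4 : ℝ) * (In m (φ s x).1) ^ ((3 / 4 : ℝ) - 1)) s :=
    fun s => (In_der m hm E ψ φ hφ x hx s).rpow_const (Or.inl (hI s).ne')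
  have hpow : ∀ I : ℝ, 0 ≤ I → Real.sqrt I ^ (3 / 2 : ℝ) = I ^ (3 / 4 : ℝ) := by
    intro I hI
    rw [Real.sqrt_eq_rpow, ← Real.rpow_mul hI]
    norm_num
  have hp0 : 0 ≤ (1 + ε) * p := by
    have h1 : 0 ≤ par m 0 := by
      unfold par
      have h3 : 0 ≤ m 0 * (∑ i, m i - m 0) := by
        have h4 : m 0 ≤ ∑ i, m i :=
          Finset.single_le_sum (f := m) (fun i _ => (hm i).le) (Finset.mem_univ 0)
        have := (hm 0).le
        exact mul_nonneg this (by linarith)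
      positivity
    have := h1.trans (hp 0)
    positivity
  intro s
  have key := growBoth _ _ (tau ψ φ x) _ (3 / 2 * Real.sqrt ((1 + ε) * p))
    ((K / (-E)) ^ (3 / 2 : ℝ)) hf (tau_der m E ψ φ hφ x hx) hψp (by
      intro s hs
      have e2 := hI s
      have hfar : K ≤ Real.sqrt (In m (φ s x).1) * (-E) := by
        have h1 : (K / (-E)) ^ (3 / 2 : ℝ) ≤ Real.sqrt (In m (φ s x).1) ^ (3 / 2 : ℝ) := by
          rw [hpow _ e2.le]; exact hs
        have h2 := (Real.rpow_le_rpow_iff (by positivity) (Real.sqrt_nonneg _)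
          (by norm_num : (0:ℝ) < 3 / 2)).1 h1
        rwa [div_le_iff₀ hE'] at h2
      obtain ⟨c, hc⟩ := h E hE ψ φ hψ hφ (φ s x) (hsur s) (hnw s) hfar
      have e1 : (LJ m (φ s x)) ^ 2 ≤ (1 + ε) * p * Real.sqrt (In m (φ s x).1) := by
        refine hc.trans ?_
        have := hp c
        gcongr
      have e3 : |LJ m (φ s x)| ≤ Real.sqrt ((1 + ε) * p) * (In m (φ s x).1) ^ (1 / 4 : ℝ) := by
        refine (pow_le_pow_iff_left₀ (abs_nonneg _) (by positivity) two_ne_zero).1 ?_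
        rw [sq_abs, mul_pow, Real.sq_sqrt hp0, ← Real.rpow_natCast, ← Real.rpow_natCast,
          ← Real.rpow_mul e2.le]
        rw [Real.sqrt_eq_rpow] at e1
        have : (1 / 4 : ℝ) * ((2 : ℕ) : ℝ) = 1 / 2 := by norm_num
        rw [this]
        exact_mod_cast e1
      have e4 : (In m (φ s x).1) ^ (1 / 4 : ℝ) * (In m (φ s x).1) ^ ((3 / 4 : ℝ) - 1) = 1 := by
        rw [← Real.rpow_add e2]; norm_num
      rw [abs_mul, abs_mul, abs_mul, abs_mul, abs_of_pos (hψp s), abs_of_pos (Real.rpow_pos_of_pos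
        e2 ((3 / 4 : ℝ) - 1)), abs_of_pos (by norm_num : (0:ℝ) < 2),
        abs_of_pos (by norm_num : (0:ℝ) < 3 / 4)]
      have e5 := (hψp s).le
      calc 2 * (ψ (φ s x) * |LJ m (φ s x)|) * (3 / 4) * (In m (φ s x).1) ^ ((3 / 4 : ℝ) - 1)
          ≤ 2 * (ψ (φ s x) * (Real.sqrt ((1 + ε) * p) * (In m (φ s x).1) ^ (1 / 4 : ℝ))) *
            (3 / 4) * (In m (φ s x).1) ^ ((3 / 4 : ℝ) - 1) := by gcongr
        _ = 3 / 2 * Real.sqrt ((1 + ε) * p) * ψ (φ s x) * ((In m (φ s x).1) ^ (1 / 4 : ℝ) *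
            (In m (φ s x).1) ^ ((3 / 4 : ℝ) - 1)) := by ring
        _ = _ := by rw [e4, mul_one]) (by positivity) s
  have h0 : φ 0 x = x := (hφ.flow x hx).1
  have ht0 : tau ψ φ x 0 = 0 := by unfold tau; simp
  simp only [h0, ht0, sub_zero] at key
  rw [hpow _ (hI s).le]
  refine key.trans ?_
  gcongr
  refine max_le ?_ ?_
  · rw [← hpow _ (by have := (hI 0).le; rwa [h0] at this)]
    gcongr
    exact le_max_left _ _
  · gcongr
    exact le_max_right _ _

end Pool.Agent.T6.H53.NB
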