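import Pool.Agent.T6.H53.NB.Wand4

set_option autoImplicit false

/-! Nonwandering orbits of the three-body problem: the four estimates. -/

namespace Pool.Agent.T6.H53.NB

open Set Filter Topology Pool.Agent.Y516.NW Pool.Agent.Y438.NW MeasureTheory

theorem main (m : Fin 3 → ℝ) (hm : ∀ i, 0 < m i) : ∃ C : ℝ, 0 < C ∧
    ∀ (E : ℝ) (ψ : Cfg 3 × Cfg 3 → ℝ) (φ : ℝ → Cfg 3 × Cfg 3 → Cfg 3 × Cfg 3),
      ContDiffOn ℝ ((⊤ : ℕ∞) : WithTop ℕ∞) ψ (Free 3) → IsFl m E ψ φ →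
      ∀ x ∈ Surf m E, NonW (Surf m E) φ x → ∀ s : ℝ,
        (LJ m (φ s x)) ^ 2 ≤ C * Real.sqrt (In m (φ s x).1) ∧
        ang2 (φ s x) ≤ (C + 2 * Real.sqrt (ang2 (φ s x) * (-2 * E))) *
          Real.sqrt (In m (φ s x).1) ∧
        |(In m (φ s x).1) ^ (3 / 4 : ℝ) - (In m x.1) ^ (3 / 4 : ℝ)| ≤ C * |tau ψ φ x s| ∧
        |∫ u in (0:ℝ)..s, ψ (φ u x) * (Ki m (φ u x) + E)| ≤
          C * ((In m x.1) ^ (1 / 4 : ℝ) + |tau ψ φ x s| ^ (1 / 3 : ℝ)) := by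
  obtain ⟨C1, hC1, h1⟩ := apr3 m hm
  obtain ⟨C2, hC2, h2⟩ := wand4 m hm
  obtain ⟨C, hC⟩ : ∃ C : ℝ, C = C1 + C2 + 3 / 2 * Real.sqrt C1 + 2 * (Real.sqrt C1 + C1) :=
    ⟨_, rfl⟩
  have hs1 := Real.sqrt_nonneg C1
  have hC1C : C1 ≤ C := by rw [hC]; linarith
  have hC2C : C2 ≤ C := by rw [hC]; linarith
  have hC3C : 3 / 2 * Real.sqrt C1 ≤ C := by rw [hC]; linarith
  have hC4C : 2 * (Real.sqrt C1 + C1) ≤ C := by rw [hC]; linarith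
  refine ⟨C, by linarith, ?_⟩
  intro E ψ φ hψ hφ x hx hNW s
  have hE : E ≤ 0 := by
    by_contra hE
    exact Pool.Agent.Y438.NW.pos 3 m hm E (not_le.mp hE) ψ φ hφ x hx hNW
  have hsur : ∀ s, φ s x ∈ Surf m E := fun s => ((hφ.flow x hx).2 s).1
  have hnw : ∀ s, NonW (Surf m E) φ (φ s x) := fun s => nonw m E ψ hψ φ hφ x hx hNW s
  have hJ : ∀ s, (LJ m (φ s x)) ^ 2 ≤ C1 * Real.sqrt (In m (φ s x).1) := fun s =>
    h1 E ψ φ hφ (φ s x) (hsur s) (hnw s)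
  have hρ := Real.sqrt_nonneg (In m (φ s x).1)
  refine ⟨(hJ s).trans (by gcongr), ?_, ?_, ?_⟩
  · by_contra hcon
    push Not at hcon
    refine h2 E hE ψ φ hψ hφ (φ s x) (hsur s) ?_ (hnw s)
    show (C2 + 2 * Real.sqrt (ang2 (φ s x) * (-2 * E))) * Real.sqrt (In m (φ s x).1) <
      ang2 (φ s x)
    refine lt_of_le_of_lt ?_ hcon
    gcongr
  · refine (growth (by norm_num) m hm E ψ φ hφ x hx C1 hC1 hJ s).trans ?_
    gcongr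
  · rw [LJ_int m hm E ψ φ hφ x hx s]
    refine (viri (by norm_num) m hm E ψ φ hφ x hx C1 hC1 hJ s).trans ?_
    have hI0 : 0 ≤ In m x.1 := (In_pos (by norm_num) m hm x (surf_free m E hx)).le
    gcongr

end Pool.Agent.T6.H53.NB
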