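import Pool.Agent.T6.H53.NB.Core

set_option autoImplicit false

/-! The argument of Sundman and Birkhoff for a single orbit, with one-sided escape. -/

namespace Pool.Agent.T6.H53.NB

open Set Filter Topology

/-- as long as `ρ ≤ ρ1`, the functions `J` and `F` increase -/
theorem mono2 (I J T ψ : ℝ → ℝ) (E c2 : ℝ)
    (hI : ∀ s, HasDerivAt I (2 * (ψ s * J s)) s) (hJ : ∀ s, HasDerivAt J (ψ s * (T s + E)) s)
    (hψ : ∀ s, 0 < ψ s) (hIpos : ∀ s, 0 < I s)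
    (hSun : ∀ s, J s ^ 2 + c2 ≤ I s * (2 * T s)) (hE : E ≤ 0) (hJ0 : 0 ≤ J 0)
    (ρ1 : ℝ) (h1 : 0 ≤ c2 + 2 * E * ρ1 ^ 2) (Tm : ℝ) (hT0 : 0 ≤ Tm)
    (hle : ∀ t ∈ Icc 0 Tm, Real.sqrt (I t) ≤ ρ1) :
    MonotoneOn J (Icc 0 Tm) ∧ MonotoneOn (fun s => (J s ^ 2 + c2) / (2 * Real.sqrt (I s))
      - E * Real.sqrt (I s)) (Icc 0 Tm) := by
  have hρpos : ∀ s, 0 < Real.sqrt (I s) := fun s => Real.sqrt_pos.mpr (hIpos s)
  have hTE : ∀ s, Real.sqrt (I s) ≤ ρ1 → 0 ≤ T s + E := by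
    intro s hs
    have e1 := hSun s
    have e2 : I s ≤ ρ1 ^ 2 := by
      have := pow_le_pow_left₀ (hρpos s).le hs 2
      rwa [Real.sq_sqrt (hIpos s).le] at this
    have e3 : 0 ≤ c2 + 2 * E * I s := by nlinarith
    have e4 : 0 ≤ I s * (2 * (T s + E)) := by nlinarith [sq_nonneg (J s)]
    have e5 : 0 ≤ 2 * (T s + E) := by
      by_contra hcon
      push Not at hcon
      nlinarith [hIpos s]
    linarith
  have hJm : MonotoneOn J (Icc 0 Tm) := by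
    refine monotoneOn_of_deriv_nonneg (convex_Icc 0 Tm)
      (fun s _ => (hJ s).continuousAt.continuousWithinAt)
      (fun s _ => (hJ s).differentiableAt.differentiableWithinAt) ?_
    intro s hs
    rw [(hJ s).deriv]
    exact mul_nonneg (hψ s).le (hTE s (hle s (interior_subset hs)))
  have hJn : ∀ t ∈ Icc 0 Tm, 0 ≤ J t := fun t ht =>
    hJ0.trans (hJm ⟨le_rfl, hT0⟩ ht ht.1)
  refine ⟨hJm, ?_⟩
  refine monotoneOn_of_deriv_nonneg (convex_Icc 0 Tm)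
    (fun s _ => (F_der I J T ψ E c2 hI hJ hIpos s).continuousAt.continuousWithinAt)
    (fun s _ =>
      (F_der I J T ψ E c2 hI hJ hIpos s).differentiableAt.differentiableWithinAt) ?_
  intro s hs
  rw [(F_der I J T ψ E c2 hI hJ hIpos s).deriv]
  have e1 := hJn s (interior_subset hs)
  have e2 := hψ s
  have e3 := hρpos s
  have e4 := hIpos s
  have e5 : 0 ≤ T s - (J s ^ 2 + c2) / (2 * I s) := by
    rw [sub_nonneg, div_le_iff₀ (by positivity)]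
    have := hSun s
    linarith
  positivity

theorem orb1 (I J T ψ τ : ℝ → ℝ) (E C c2 : ℝ)
    (hI : ∀ s, HasDerivAt I (2 * (ψ s * J s)) s) (hJ : ∀ s, HasDerivAt J (ψ s * (T s + E)) s)
    (hτ : ∀ s, HasDerivAt τ (ψ s) s) (hτ0 : τ 0 = 0) (hψ : ∀ s, 0 < ψ s)
    (hIpos : ∀ s, 0 < I s)
    (hSun : ∀ s, J s ^ 2 + c2 ≤ I s * (2 * T s))
    (hesc : ∀ s2, 0 ≤ s2 → 0 < J s2 → C * Real.sqrt (I s2) < J s2 ^ 2 →
      ∀ s, s2 ≤ s → I s2 / 2 ≤ I s)
    (hE : E ≤ 0) (hJ0 : 0 < J 0)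
    (ρ1 : ℝ) (hρ1 : 2 * Real.sqrt (I 0) ≤ ρ1) (h1 : 0 ≤ c2 + 2 * E * ρ1 ^ 2)
    (h2 : C / 2 + c2 / (2 * ρ1) - E * ρ1 < c2 / (2 * Real.sqrt (I 0))) (s : ℝ) (hs : 0 ≤ s) :
    min (I 0 + 2 * J 0 * τ s) (2 * I 0) ≤ I s := by
  have hIc : Continuous I := continuous_iff_continuousAt.mpr fun s => (hI s).continuousAt
  have hρpos : ∀ s, 0 < Real.sqrt (I s) := fun s => Real.sqrt_pos.mpr (hIpos s)
  have hρ0 := hρpos 0
  by_cases hcase : ∀ t ∈ Icc 0 s, Real.sqrt (I t) ≤ ρ1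
  · refine (min_le_left _ _).trans ?_
    have hm := (mono2 I J T ψ E c2 hI hJ hψ hIpos hSun hE hJ0.le ρ1 h1 s hs hcase).1
    have hmono : MonotoneOn (fun s => I s - 2 * J 0 * τ s) (Icc 0 s) := by
      have hd : ∀ s, HasDerivAt (fun s => I s - 2 * J 0 * τ s)
          (2 * (ψ s * J s) - 2 * J 0 * ψ s) s := fun s => (hI s).sub ((hτ s).const_mul _)
      refine monotoneOn_of_deriv_nonneg (convex_Icc 0 s)
        (fun s _ => (hd s).continuousAt.continuousWithinAt)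
        (fun s _ => (hd s).differentiableAt.differentiableWithinAt) ?_
      intro t ht
      rw [(hd t).deriv]
      have ht' := interior_subset ht
      have e1 : J 0 ≤ J t := hm ⟨le_rfl, hs⟩ ht' ht'.1
      nlinarith [hψ t]
    have h3 := hmono ⟨le_rfl, hs⟩ ⟨hs, le_rfl⟩ hs
    simp only [hτ0] at h3
    linarith
  · refine (min_le_right _ _).trans ?_
    push Not at hcase
    obtain ⟨t, ht, htρ⟩ := hcase
    have hfc : Continuous fun t => Real.sqrt (I t) := hIc.sqrt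
    -- first time at which `ρ = ρ1`
    have ivt : ∀ t, 0 ≤ t → ρ1 ≤ Real.sqrt (I t) → ∃ t' ∈ Icc 0 t, Real.sqrt (I t') = ρ1 := by
      intro t ht0 htt
      have := intermediate_value_Icc ht0 hfc.continuousOn
      have h3 : ρ1 ∈ Icc (Real.sqrt (I 0)) (Real.sqrt (I t)) := ⟨by linarith, htt⟩
      obtain ⟨t', ht', he⟩ := this h3
      exact ⟨t', ht', he⟩
    obtain ⟨A, hA⟩ : ∃ A : Set ℝ, A = Ici 0 ∩ {t | Real.sqrt (I t) = ρ1} := ⟨_, rfl⟩
    have hcl : IsClosed A := by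
      rw [hA]; exact isClosed_Ici.inter (isClosed_eq hfc continuous_const)
    obtain ⟨t', ht', he'⟩ := ivt t ht.1 htρ.le
    have hne : A.Nonempty := ⟨t', by rw [hA]; exact ⟨ht'.1, he'⟩⟩
    have hbd : BddBelow A := ⟨0, fun x hx => by rw [hA] at hx; exact hx.1⟩
    have hmem := hcl.csInf_mem hne hbd
    obtain ⟨s2, hs2⟩ : ∃ s2, s2 = sInf A := ⟨_, rfl⟩
    rw [← hs2, hA] at hmem
    obtain ⟨hs20, hs2e⟩ := hmem
    have hs20' : (0:ℝ) ≤ s2 := hs20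
    have hs2e' : Real.sqrt (I s2) = ρ1 := hs2e
    have hs2t : s2 ≤ s := by
      have : s2 ≤ t' := by rw [hs2]; exact csInf_le hbd (by rw [hA]; exact ⟨ht'.1, he'⟩)
      exact this.trans (ht'.2.trans ht.2)
    have hle : ∀ t ∈ Icc 0 s2, Real.sqrt (I t) ≤ ρ1 := by
      intro t ht
      by_contra hcon
      push Not at hcon
      obtain ⟨t'', ht'', he''⟩ := ivt t ht.1 hcon.le
      have h3 : s2 ≤ t'' := by rw [hs2]; exact csInf_le hbd (by rw [hA]; exact ⟨ht''.1, he''⟩)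
      have h4 : t = s2 := le_antisymm ht.2 (h3.trans ht''.2)
      rw [h4, hs2e'] at hcon
      exact lt_irrefl _ hcon
    obtain ⟨hJm, hFm⟩ := mono2 I J T ψ E c2 hI hJ hψ hIpos hSun hE hJ0.le ρ1 h1 s2 hs20' hle
    have hJ2 : J 0 ≤ J s2 := hJm ⟨le_rfl, hs20'⟩ ⟨hs20', le_rfl⟩ hs20'
    have hF := hFm ⟨le_rfl, hs20'⟩ ⟨hs20', le_rfl⟩ hs20'
    simp only [hs2e'] at hF
    have hρ1pos : 0 < ρ1 := by linarith
    have e1 : c2 / (2 * Real.sqrt (I 0)) ≤ (J 0 ^ 2 + c2) / (2 * Real.sqrt (I 0)) := by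
      gcongr
      nlinarith [sq_nonneg (J 0)]
    have e2 : 0 ≤ -(E * Real.sqrt (I 0)) := by nlinarith
    have e3 : C / 2 < J s2 ^ 2 / (2 * ρ1) := by
      have e0 : (J s2 ^ 2 + c2) / (2 * ρ1) = J s2 ^ 2 / (2 * ρ1) + c2 / (2 * ρ1) := add_div _ _ _
      linarith
    have e4 : C * ρ1 < J s2 ^ 2 := by
      rw [lt_div_iff₀ (by positivity)] at e3
      linarith
    have h5 := hesc s2 hs20' (hJ0.trans_le hJ2) (by rw [hs2e']; exact e4) s hs2t
    have h6 : I s2 = ρ1 ^ 2 := by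
      rw [← hs2e', Real.sq_sqrt (hIpos s2).le]
    have h7 : 4 * I 0 ≤ ρ1 ^ 2 := by
      have := pow_le_pow_left₀ (by positivity) hρ1 2
      rw [mul_pow, Real.sq_sqrt (hIpos 0).le] at this
      linarith
    linarith

/-- an orbit starting with `J > 0` close to the triple collision does not come back -/
theorem orb (I J T ψ τ : ℝ → ℝ) (E C c2 : ℝ) (hC0 : 0 < C)
    (hI : ∀ s, HasDerivAt I (2 * (ψ s * J s)) s) (hJ : ∀ s, HasDerivAt J (ψ s * (T s + E)) s)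
    (hτ : ∀ s, HasDerivAt τ (ψ s) s) (hτ0 : τ 0 = 0) (hψ : ∀ s, 0 < ψ s)
    (hIpos : ∀ s, 0 < I s)
    (hSun : ∀ s, J s ^ 2 + c2 ≤ I s * (2 * T s))
    (hesc : ∀ s2, 0 ≤ s2 → 0 < J s2 → C * Real.sqrt (I s2) < J s2 ^ 2 →
      ∀ s, s2 ≤ s → I s2 / 2 ≤ I s)
    (hE : E ≤ 0) (hc : 0 ≤ c2) (hJ0 : 0 < J 0)
    (hcon : (C + 2 * Real.sqrt (c2 * (-2 * E))) * Real.sqrt (I 0) < c2) (s : ℝ) (hs : 0 ≤ s) :
    min (I 0 + 2 * J 0 * τ s) (2 * I 0) ≤ I s := by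
  have hρ0 : 0 < Real.sqrt (I 0) := Real.sqrt_pos.mpr (hIpos 0)
  obtain ⟨r, hr⟩ : ∃ r, r = Real.sqrt (I 0) := ⟨_, rfl⟩
  rw [← hr] at hcon hρ0
  have hc' : 0 < c2 := lt_of_le_of_lt (by positivity) hcon
  obtain ⟨c, hcc⟩ : ∃ c, c = Real.sqrt c2 := ⟨_, rfl⟩
  have hc0 : 0 < c := by rw [hcc]; exact Real.sqrt_pos.mpr hc'
  have hc2 : c2 = c ^ 2 := by rw [hcc]; exact (Real.sq_sqrt hc).symm
  obtain ⟨e, he⟩ : ∃ e, e = Real.sqrt (-2 * E) := ⟨_, rfl⟩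
  have he0 : 0 ≤ e := by rw [he]; exact Real.sqrt_nonneg _
  have he2 : E = -(e ^ 2) / 2 := by rw [he, Real.sq_sqrt (by linarith)]; ring
  have hce : Real.sqrt (c2 * (-2 * E)) = c * e := by rw [Real.sqrt_mul hc, ← hcc, ← he]
  rw [hce] at hcon
  rcases eq_or_lt_of_le he0 with h0 | h0
  · -- `E = 0`
    obtain ⟨η, hη⟩ : ∃ η, η = c2 / (2 * r) - C / 2 := ⟨_, rfl⟩
    have hη0 : 0 < η := by
      rw [hη, sub_pos, div_lt_div_iff₀ (by norm_num) (by positivity)]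
      rw [← h0] at hcon
      nlinarith
    have hE0 : E = 0 := by rw [he2, ← h0]; norm_num
    have hηr : η * (2 * r) ≤ c2 := by
      rw [hη, sub_mul, div_mul_cancel₀ _ (by positivity)]
      nlinarith
    refine orb1 I J T ψ τ E C c2 hI hJ hτ hτ0 hψ hIpos hSun hesc hE hJ0 (c2 / η) ?_ ?_ ?_ s hs
    · rw [← hr, le_div_iff₀ hη0]
      linarith
    · rw [hE0]; simpa using hc
    · rw [hE0, ← hr]
      have e1 : c2 / (2 * (c2 / η)) = η / 2 := by field_simp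
      rw [e1]
      linarith
  · -- `E < 0`
    refine orb1 I J T ψ τ E C c2 hI hJ hτ hτ0 hψ hIpos hSun hesc hE hJ0 (c / e) ?_ ?_ ?_ s hs
    · rw [← hr, le_div_iff₀ h0]
      rw [hc2] at hcon
      have e1 : 0 < C * r := by positivity
      have e2 : c * (2 * (r * e)) < c * c := by nlinarith
      have e3 := lt_of_mul_lt_mul_left e2 hc0.le
      linarith
    · rw [he2, hc2]
      have : c ^ 2 + 2 * (-(e ^ 2) / 2) * (c / e) ^ 2 = 0 := by field_simp; ring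
      rw [this]
    · rw [he2, ← hr, hc2]
      have e1 : C / 2 + c ^ 2 / (2 * (c / e)) - -(e ^ 2) / 2 * (c / e) = (C + 2 * (c * e)) / 2 := by
        field_simp
        ring
      rw [e1, div_lt_div_iff₀ (by norm_num) (by positivity)]
      rw [hc2] at hcon
      nlinarith

end Pool.Agent.T6.H53.NB
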