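import Pool.Agent.T6.H53.NB.Wand4

set_option autoImplicit false

/-! The sharp threshold of escape far away from the triple collision. -/

namespace Pool.Agent.T6.H53.NB

open Set Filter Topology Pool.Agent.Y516.NW Pool.Agent.Y438.NW MeasureTheory

/-- abstract form of the escape argument with growth: `W = ρ ^ 2`, `P = ρ ρ'`, `V` the square of
the relative speed, `A` the radial force, `r` the distance of the pair -/
theorem escAbs2 (W P V A r ψ τ : ℝ → ℝ) (k η g : ℝ) (hk : 0 ≤ k) (hη : 0 < η) (hg : 0 < g)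
    (hW : ∀ s, HasDerivAt W (2 * (ψ s * P s)) s)
    (hP : ∀ s, HasDerivAt P (ψ s * (V s + A s)) s) (hψ : ∀ s, 0 < ψ s)
    (hτ : ∀ s, HasDerivAt τ (ψ s) s) (hτ0 : τ 0 = 0)
    (hr : Continuous r) (hcs : ∀ s, P s ^ 2 ≤ W s * V s)
    (hA : ∀ s, 0 < W s → r s ≤ η * Real.sqrt (W s) → -(k / Real.sqrt (W s)) ≤ A s)
    (hen : ∀ s, 0 < W s → r s ≤ η * Real.sqrt (W s) →
      0 < P s ^ 2 / W s - 2 * k / Real.sqrt (W s) → r s < η * Real.sqrt (W 0))
    (h0W : 0 < W 0) (h0P : 0 < P 0) (h0r : r 0 < η * Real.sqrt (W 0))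
    (h0G : g ≤ P 0 ^ 2 / W 0 - 2 * k / Real.sqrt (W 0)) :
    ∀ s, 0 ≤ s → W 0 + 2 * Real.sqrt (g * W 0) * τ s ≤ W s := by
  have hWc : Continuous W := continuous_iff_continuousAt.mpr fun s => (hW s).continuousAt
  have hPc : Continuous P := continuous_iff_continuousAt.mpr fun s => (hP s).continuousAt
  have hu0 : 0 < Real.sqrt (W 0) := Real.sqrt_pos.mpr h0W
  -- the increasing function
  have hG : ∀ s, 0 < W s → HasDerivAt (fun s => P s ^ 2 / W s - 2 * k / Real.sqrt (W s))
      (ψ s * (2 * P s / W s) * (V s + A s - P s ^ 2 / W s + k / Real.sqrt (W s))) s := by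
    intro s h0
    have hus : 0 < Real.sqrt (W s) := Real.sqrt_pos.mpr h0
    have hρ : HasDerivAt (fun s => Real.sqrt (W s)) (2 * (ψ s * P s) / (2 * Real.sqrt (W s))) s :=
      (hW s).sqrt h0.ne'
    have h1 := (((hP s).pow 2).div (hW s) h0.ne').sub
      ((hasDerivAt_const s (2 * k)).div hρ hus.ne')
    refine h1.congr_deriv ?_
    obtain ⟨y, hy⟩ : ∃ y, y = Real.sqrt (W s) := ⟨_, rfl⟩
    have hy2 : W s = y ^ 2 := by rw [hy]; exact (Real.sq_sqrt h0.le).symm
    have hy0 : 0 < y := by rw [hy]; exact hus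
    rw [← hy, hy2]
    simp only [Pi.pow_apply]
    field_simp
    ring
  -- monotonicity on intervals on which the conditions hold
  have hGmono : ∀ D : Set ℝ, Convex ℝ D → (∀ t ∈ D, 0 < W t ∧ 0 ≤ P t ∧
      r t ≤ η * Real.sqrt (W t)) →
      MonotoneOn (fun s => P s ^ 2 / W s - 2 * k / Real.sqrt (W s)) D := by
    intro D hD h
    refine monotoneOn_of_deriv_nonneg hD
      (fun s hs => (hG s (h s hs).1).continuousAt.continuousWithinAt)
      (fun s hs => (hG s (h s (interior_subset hs)).1).differentiableAt.differentiableWithinAt) ?_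
    intro s hs
    obtain ⟨e3, e1, er⟩ := h s (interior_subset hs)
    rw [(hG s e3).deriv]
    have e2 := hψ s
    have e4 := hA s e3 er
    have e5 : P s ^ 2 / W s ≤ V s := by
      rw [div_le_iff₀ e3]
      linarith [hcs s]
    have e6 : 0 ≤ V s + A s - P s ^ 2 / W s + k / Real.sqrt (W s) := by linarith
    positivity
  have hb := Pool.Agent.Y275.NW.boot (Option Bool) (fun α s => match α with
      | none => W s - W 0 / 2
      | some true => η * Real.sqrt (W s) - r s
      | some false => P s)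
    (by
      rintro (_ | _ | _)
      · exact hWc.sub continuous_const
      · exact hPc
      · exact (continuous_const.mul hWc.sqrt).sub hr)
    (by
      rintro (_ | _ | _)
      · show 0 < W 0 - W 0 / 2
        linarith
      · exact h0P
      · show 0 < η * Real.sqrt (W 0) - r 0
        linarith)
    (by
      intro Tm hT0 hall
      have hle : ∀ t ∈ Icc 0 Tm, r t ≤ η * Real.sqrt (W t) := fun t ht => by
        have : 0 ≤ η * Real.sqrt (W t) - r t := hall t ht.1 ht.2 (some true)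
        linarith
      have hPn : ∀ t ∈ Icc 0 Tm, 0 ≤ P t := fun t ht => hall t ht.1 ht.2 (some false)
      have hWp : ∀ t ∈ Icc 0 Tm, 0 < W t := fun t ht => by
        have : 0 ≤ W t - W 0 / 2 := hall t ht.1 ht.2 none
        linarith
      have hWm : MonotoneOn W (Icc 0 Tm) := by
        refine monotoneOn_of_deriv_nonneg (convex_Icc 0 Tm)
          (fun s _ => (hW s).continuousAt.continuousWithinAt)
          (fun s _ => (hW s).differentiableAt.differentiableWithinAt) ?_
        intro s hs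
        rw [(hW s).deriv]
        have e1 := hPn s (interior_subset hs)
        have e2 := hψ s
        positivity
      have hGm := hGmono (Icc 0 Tm) (convex_Icc 0 Tm)
        (fun t ht => ⟨hWp t ht, hPn t ht, hle t ht⟩)
      have hWT := hWm ⟨le_rfl, hT0⟩ ⟨hT0, le_rfl⟩ hT0
      have hGT := hGm ⟨le_rfl, hT0⟩ ⟨hT0, le_rfl⟩ hT0
      simp only at hGT
      have huT : Real.sqrt (W 0) ≤ Real.sqrt (W Tm) := Real.sqrt_le_sqrt hWT
      have huTp : 0 < Real.sqrt (W Tm) := hu0.trans_le huT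
      have hpos : 0 < P Tm ^ 2 / W Tm - 2 * k / Real.sqrt (W Tm) := by linarith
      have e1 := hen Tm (hWp Tm ⟨hT0, le_rfl⟩) (hle Tm ⟨hT0, le_rfl⟩) hpos
      rintro (_ | _ | _)
      · show 0 < W Tm - W 0 / 2
        linarith
      · show 0 < P Tm
        have h1 := hPn Tm ⟨hT0, le_rfl⟩
        rcases eq_or_lt_of_le h1 with h2 | h2
        · exfalso
          rw [← h2] at hpos
          have h3 : 0 ≤ 2 * k / Real.sqrt (W Tm) := by positivity
          norm_num at hpos
          linarith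
        · exact h2
      · show 0 < η * Real.sqrt (W Tm) - r Tm
        have h3 : η * Real.sqrt (W 0) ≤ η * Real.sqrt (W Tm) := by gcongr
        linarith)
  have hPp : ∀ s, 0 ≤ s → 0 < P s := fun s hs => hb s hs (some false)
  have hrp : ∀ s, 0 ≤ s → r s ≤ η * Real.sqrt (W s) := fun s hs => by
    have : 0 < η * Real.sqrt (W s) - r s := hb s hs (some true)
    linarith
  have hWp : ∀ s, 0 ≤ s → 0 < W s := fun s hs => by
    have : 0 < W s - W 0 / 2 := hb s hs none
    linarith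
  have hWm : MonotoneOn W (Ici 0) := by
    refine monotoneOn_of_deriv_nonneg (convex_Ici 0)
      (fun s _ => (hW s).continuousAt.continuousWithinAt)
      (fun s _ => (hW s).differentiableAt.differentiableWithinAt) ?_
    intro s hs
    rw [interior_Ici] at hs
    rw [(hW s).deriv]
    have e1 := hPp s (le_of_lt hs)
    have e2 := hψ s
    positivity
  have hGm := hGmono (Ici 0) (convex_Ici 0)
    (fun t ht => ⟨hWp t ht, (hPp t ht).le, hrp t ht⟩)
  have hPlow : ∀ s, 0 ≤ s → Real.sqrt (g * W 0) ≤ P s := by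
    intro s hs
    have e1 := hGm (mem_Ici.mpr le_rfl) (mem_Ici.mpr hs) hs
    simp only at e1
    have e2 := hWm (mem_Ici.mpr le_rfl) (mem_Ici.mpr hs) hs
    have e3 := hWp s hs
    have e4 : 0 ≤ 2 * k / Real.sqrt (W s) := by positivity
    have e5 : g ≤ P s ^ 2 / W s := by linarith
    rw [le_div_iff₀ e3] at e5
    have e6 : g * W 0 ≤ P s ^ 2 := by
      have : g * W 0 ≤ g * W s := by gcongr
      linarith
    exact (Real.sqrt_le_left (hPp s hs).le).2 e6
  intro s hs
  have hmono : MonotoneOn (fun s => W s - 2 * Real.sqrt (g * W 0) * τ s) (Ici 0) := by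
    have hd : ∀ s, HasDerivAt (fun s => W s - 2 * Real.sqrt (g * W 0) * τ s)
        (2 * (ψ s * P s) - 2 * Real.sqrt (g * W 0) * ψ s) s := fun s =>
      (hW s).sub ((hτ s).const_mul _)
    refine monotoneOn_of_deriv_nonneg (convex_Ici 0)
      (fun s _ => (hd s).continuousAt.continuousWithinAt)
      (fun s _ => (hd s).differentiableAt.differentiableWithinAt) ?_
    intro t ht
    rw [interior_Ici] at ht
    rw [(hd t).deriv]
    have e1 := hPlow t (le_of_lt ht)
    nlinarith [hψ t]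
  have h3 := hmono (mem_Ici.mpr le_rfl) (mem_Ici.mpr hs) hs
  simp only [hτ0] at h3
  linarith

/-- distances of the third body from the pair -/
theorem dist3' {a b c : ℝ} (ha : 0 < a) (hb : 0 < b) (hc : 0 < c) (x y z : E3)
    (h : a • x + (b • y + c • z) = 0) :
    (a + b + c) / (a + b) * ‖z‖ - ‖x - y‖ ≤ ‖x - z‖ := by
  have hs : a + b ≠ 0 := by positivity
  have e2 : a • x + b • y = -(c • z) := by
    rw [← add_assoc] at h
    exact eq_neg_of_add_eq_zero_left h
  have e3 : x - z = (b / (a + b)) • (x - y) - ((a + b + c) / (a + b)) • z := by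
    have h1 : (a + b) • (x - z) = (a + b) • ((b / (a + b)) • (x - y) -
        ((a + b + c) / (a + b)) • z) := by
      rw [smul_sub (a + b) ((b / (a + b)) • (x - y)), smul_smul, smul_smul,
        mul_div_cancel₀ _ hs, mul_div_cancel₀ _ hs]
      have h2 : (a + b) • (x - z) = (a • x + b • y) + b • (x - y) - (a + b) • z := by
        simp only [smul_sub, add_smul]; abel
      rw [h2, e2]
      simp only [add_smul]
      abel
    exact smul_right_injective _ hs h1
  have e5 : b / (a + b) ≤ 1 := by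
    rw [div_le_one (by positivity)]; linarith
  have e6 : (a + b + c) / (a + b) * ‖z‖ - b / (a + b) * ‖x - y‖ ≤ ‖x - z‖ := by
    rw [e3]
    have h1 := norm_sub_norm_le (((a + b + c) / (a + b)) • z) ((b / (a + b)) • (x - y))
    rw [norm_smul, norm_smul, Real.norm_of_nonneg (by positivity),
      Real.norm_of_nonneg (by positivity)] at h1
    rw [norm_sub_rev ((b / (a + b)) • (x - y))]
    exact h1
  have e8 : b / (a + b) * ‖x - y‖ ≤ ‖x - y‖ := by
    nlinarith [norm_nonneg (x - y)]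
  linarith

/-- escape of the third body with growth of its distance `ρ = lam |q_c|` from the centre of mass of
the pair -/
theorem dyn2 (m : Fin 3 → ℝ) (hm : ∀ i, 0 < m i) (M : ℝ) (hM : ∑ i, m i = M) (E : ℝ) (hE : E < 0)
    (ψ : Cfg 3 × Cfg 3 → ℝ) (φ : ℝ → Cfg 3 × Cfg 3 → Cfg 3 × Cfg 3) (hφ : IsFl m E ψ φ)
    (y : Cfg 3 × Cfg 3) (hy : y ∈ Surf m E) (a b c : Fin 3) (hab : a ≠ b) (hca : c ≠ a)
    (hcb : c ≠ b) (lam k η g : ℝ) (hlam : lam = M / (m a + m b)) (hη : 0 < η) (hη1 : η < 1)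
    (hk : k = M / (1 - η) ^ 2) (hg : 0 < g)
    (hP : 0 < inner ℝ (y.1 c) (vel m y c))
    (hr : ‖y.1 a - y.1 b‖ < η * (lam * ‖y.1 c‖))
    (hr' : m a * m b / (-E) < η * (lam * ‖y.1 c‖))
    (hG : g ≤ (lam ^ 2 * inner ℝ (y.1 c) (vel m y c)) ^ 2 / (lam * ‖y.1 c‖) ^ 2 -
      2 * k / (lam * ‖y.1 c‖)) :
    ∀ s, 0 ≤ s → (lam * ‖y.1 c‖) ^ 2 + 2 * Real.sqrt (g * (lam * ‖y.1 c‖) ^ 2) * tau ψ φ y s ≤
      (lam * ‖(φ s y).1 c‖) ^ 2 := by
  obtain ⟨τ, hmot⟩ := mot_of_flow m hm E ψ φ hφ y hy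
  have hfl := hφ.flow y hy
  have h0 : φ 0 y = y := hfl.1
  have hma := hm a
  have hmb := hm b
  have hmc := hm c
  have hMs : m a + m b + m c = M := by
    rw [← hM, sum3 m a b c hab hca hcb]; ring
  have hM0 : 0 < M := by rw [← hMs]; positivity
  have hlam0 : 0 < lam := by rw [hlam]; positivity
  have h1η : 0 < 1 - η := by linarith
  have hk0 : 0 < k := by rw [hk]; positivity
  have hqs : ∀ s, m a • (φ s y).1 a + (m b • (φ s y).1 b + m c • (φ s y).1 c) = 0 := by
    intro s
    rw [← sum3 (fun i => m i • (φ s y).1 i) a b c hab hca hcb]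
    exact (hfl.2 s).1.2.1
  have hvs : ∀ s, m a • vel m (φ s y) a + (m b • vel m (φ s y) b + m c • vel m (φ s y) c) = 0 := by
    intro s
    rw [← sum3 (fun i => m i • vel m (φ s y) i) a b c hab hca hcb]
    exact surf_mom m hm E _ (hfl.2 s).1
  have hda : ∀ s, lam * ‖(φ s y).1 c‖ - ‖(φ s y).1 a - (φ s y).1 b‖ ≤
      ‖(φ s y).1 a - (φ s y).1 c‖ := by
    intro s
    rw [hlam, ← hMs]
    exact dist3' hma hmb hmc _ _ _ (hqs s)
  have hdb : ∀ s, lam * ‖(φ s y).1 c‖ - ‖(φ s y).1 a - (φ s y).1 b‖ ≤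
      ‖(φ s y).1 b - (φ s y).1 c‖ := by
    intro s
    rw [norm_sub_rev ((φ s y).1 a), hlam, ← hMs, add_comm (m a) (m b)]
    refine dist3' hmb hma hmc _ _ _ ?_
    rw [← hqs s]; abel
  have hqc : Continuous fun s => ‖(φ s y).1 a - (φ s y).1 b‖ := by
    have h1 : ∀ i, Continuous fun s => (φ s y).1 i := fun i =>
      continuous_iff_continuousAt.mpr fun t => (hmot.qd t i).continuousAt
    exact ((h1 a).sub (h1 b)).norm
  have hu : ∀ s, Real.sqrt ((lam * ‖(φ s y).1 c‖) ^ 2) = lam * ‖(φ s y).1 c‖ := fun s =>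
    Real.sqrt_sq (by positivity)
  have hc0 : 0 < ‖y.1 c‖ := by
    rw [norm_pos_iff]
    intro h
    rw [h, inner_zero_left] at hP
    exact lt_irrefl _ hP
  have hτ0 : tau ψ φ y 0 = 0 := by unfold tau; simp
  have key := escAbs2 (fun s => (lam * ‖(φ s y).1 c‖) ^ 2)
    (fun s => lam ^ 2 * inner ℝ ((φ s y).1 c) (vel m (φ s y) c))
    (fun s => lam ^ 2 * ‖vel m (φ s y) c‖ ^ 2)
    (fun s => lam ^ 2 * inner ℝ ((φ s y).1 c) (acc m (φ s y).1 c))
    (fun s => ‖(φ s y).1 a - (φ s y).1 b‖) (fun s => ψ (φ s y)) (tau ψ φ y) k η g hk0.le hη hg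
    (by
      intro s
      have h1 : HasDerivAt (fun s => lam ^ 2 * ‖(φ s y).1 c‖ ^ 2)
          (lam ^ 2 * (2 * inner ℝ ((φ s y).1 c) (ψ (φ s y) • vel m (φ s y) c))) s :=
        ((hmot.qd s c).norm_sq).const_mul (lam ^ 2)
      have h2 : (fun s => (lam * ‖(φ s y).1 c‖) ^ 2) =
          fun s => lam ^ 2 * ‖(φ s y).1 c‖ ^ 2 := by
        funext s; ring
      rw [h2]
      refine h1.congr_deriv ?_
      rw [inner_smul_right]
      ring)
    (by
      intro s
      refine (((hmot.qd s c).inner ℝ (hmot.vd s c)).const_mul (lam ^ 2)).congr_deriv ?_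
      rw [inner_smul_right, real_inner_smul_left, real_inner_self_eq_norm_sq]
      ring)
    hmot.cpos (fun s => tau_der m E ψ φ hφ y hy s) hτ0 hqc
    (by
      intro s
      have h1 := abs_real_inner_le_norm ((φ s y).1 c) (vel m (φ s y) c)
      have h2 := pow_le_pow_left₀ (abs_nonneg _) h1 2
      rw [sq_abs] at h2
      calc (lam ^ 2 * inner ℝ ((φ s y).1 c) (vel m (φ s y) c)) ^ 2
          = lam ^ 4 * (inner ℝ ((φ s y).1 c) (vel m (φ s y) c)) ^ 2 := by ring
        _ ≤ lam ^ 4 * (‖(φ s y).1 c‖ * ‖vel m (φ s y) c‖) ^ 2 := by gcongr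
        _ = _ := by ring)
    (by
      intro s hW hrs
      simp only [hu] at hrs ⊢
      have hus : 0 < lam * ‖(φ s y).1 c‖ := by
        rcases eq_or_lt_of_le (by positivity : 0 ≤ lam * ‖(φ s y).1 c‖) with h | h
        · simp only [← h] at hW; norm_num at hW
        · exact h
      have e1 := hda s
      have e2 := hdb s
      have hi := abs_real_inner_le_norm ((φ s y).1 c) (acc m (φ s y).1 c)
      have hi' := neg_abs_le (inner ℝ ((φ s y).1 c) (acc m (φ s y).1 c))
      obtain ⟨ρ, hρ⟩ : ∃ ρ, ρ = lam * ‖(φ s y).1 c‖ := ⟨_, rfl⟩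
      rw [← hρ] at hus hrs e1 e2 ⊢
      have e3 : (1 - η) * ρ ≤ ‖(φ s y).1 a - (φ s y).1 c‖ := by linarith
      have e4 : (1 - η) * ρ ≤ ‖(φ s y).1 b - (φ s y).1 c‖ := by linarith
      have hterm : ∀ (mi : ℝ) (z : E3), 0 < mi → (1 - η) * ρ ≤ ‖z‖ →
          ‖(mi / ‖z‖ ^ 3) • z‖ ≤ mi / ((1 - η) * ρ) ^ 2 := by
        intro mi z hmi hz
        have hz0 : 0 < ‖z‖ := (by positivity : 0 < (1 - η) * ρ).trans_le hz
        rw [norm_smul, Real.norm_of_nonneg (by positivity)]
        have : mi / ‖z‖ ^ 3 * ‖z‖ = mi / ‖z‖ ^ 2 := by field_simp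
        rw [this]
        gcongr
      have e5 : ‖acc m (φ s y).1 c‖ ≤ (m a + m b) / ((1 - η) * ρ) ^ 2 := by
        unfold acc
        rw [sum3 _ a b c hab hca hcb]
        simp only [sub_self, smul_zero, add_zero]
        refine (norm_add_le _ _).trans ?_
        have f1 := hterm (m a) _ hma e3
        have f2 := hterm (m b) _ hmb e4
        rw [add_div]
        linarith
      have e8 : lam ^ 2 * (‖(φ s y).1 c‖ * ‖acc m (φ s y).1 c‖) ≤ k / ρ := by
        calc lam ^ 2 * (‖(φ s y).1 c‖ * ‖acc m (φ s y).1 c‖)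
            = lam * ρ * ‖acc m (φ s y).1 c‖ := by rw [hρ]; ring
          _ ≤ lam * ρ * ((m a + m b) / ((1 - η) * ρ) ^ 2) := by gcongr
          _ = k / ρ := by
              rw [hlam, hk]
              field_simp
      have e9 : lam ^ 2 * |inner ℝ ((φ s y).1 c) (acc m (φ s y).1 c)| ≤
          lam ^ 2 * (‖(φ s y).1 c‖ * ‖acc m (φ s y).1 c‖) := by gcongr
      have e10 : lam ^ 2 * (-|inner ℝ ((φ s y).1 c) (acc m (φ s y).1 c)|) ≤
          lam ^ 2 * inner ℝ ((φ s y).1 c) (acc m (φ s y).1 c) := by gcongr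
      linarith)
    (by
      intro s hW hrs hGs
      simp only [hu] at hrs hGs ⊢
      rw [h0]
      have hus : 0 < lam * ‖(φ s y).1 c‖ := by
        rcases eq_or_lt_of_le (by positivity : 0 ≤ lam * ‖(φ s y).1 c‖) with h | h
        · simp only [← h] at hW; norm_num at hW
        · exact h
      have e1 := hda s
      have e2 := hdb s
      have hcs := abs_real_inner_le_norm ((φ s y).1 c) (vel m (φ s y) c)
      have hrp : 0 < ‖(φ s y).1 a - (φ s y).1 b‖ :=
        norm_pos_iff.mpr (sub_ne_zero.mpr (hmot.ne s a b hab))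
      have hen := surf_ener m hm E (φ s y) (hfl.2 s).1
      rw [Po3 m _ a b c hab hca hcb] at hen
      have hT : 2 * Ki m (φ s y) = m a * m b / (m a + m b) *
          ‖vel m (φ s y) a - vel m (φ s y) b‖ ^ 2 +
          m c * M / (m a + m b) * ‖vel m (φ s y) c‖ ^ 2 := by
        rw [← hMs, ← split3' hma hmb _ _ _ (hvs s)]
        unfold Ki
        rw [sum3 _ a b c hab hca hcb]
        ring
      obtain ⟨ρ, hρ⟩ : ∃ ρ, ρ = lam * ‖(φ s y).1 c‖ := ⟨_, rfl⟩
      obtain ⟨P, hP'⟩ : ∃ P, P = inner ℝ ((φ s y).1 c) (vel m (φ s y) c) := ⟨_, rfl⟩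
      obtain ⟨r, hrd⟩ : ∃ r, r = ‖(φ s y).1 a - (φ s y).1 b‖ := ⟨_, rfl⟩
      obtain ⟨V, hV'⟩ : ∃ V, V = ‖vel m (φ s y) c‖ := ⟨_, rfl⟩
      rw [← hP', ← hV'] at hcs
      have hcs2 : lam * |P| ≤ ρ * V := by
        rw [hρ]
        calc lam * |P| ≤ lam * (‖(φ s y).1 c‖ * V) := by gcongr
          _ = _ := by ring
      rw [← hρ, ← hrd] at hrs e1 e2
      rw [← hρ] at hus
      rw [← hP', ← hρ] at hGs
      rw [← hrd] at hrp hen
      rw [← hV'] at hT
      rw [← hrd]
      refine lt_of_le_of_lt ?_ hr'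
      have e3 : (1 - η) * ρ ≤ ‖(φ s y).1 a - (φ s y).1 c‖ := by linarith
      have e4 : (1 - η) * ρ ≤ ‖(φ s y).1 b - (φ s y).1 c‖ := by linarith
      have f1 : m a * m c / ‖(φ s y).1 a - (φ s y).1 c‖ ≤ m a * m c / ((1 - η) * ρ) := by gcongr
      have f2 : m b * m c / ‖(φ s y).1 b - (φ s y).1 c‖ ≤ m b * m c / ((1 - η) * ρ) := by gcongr
      have f3 : m a * m c / ((1 - η) * ρ) + m b * m c / ((1 - η) * ρ) =
          m c * (m a + m b) / ((1 - η) * ρ) := by
        rw [← add_div]; ring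
      have f4 : 2 * k / ρ < lam ^ 2 * V ^ 2 := by
        have g1 : (lam ^ 2 * P) ^ 2 / ρ ^ 2 ≤ lam ^ 2 * V ^ 2 := by
          rw [div_le_iff₀ (by positivity)]
          have g2 := pow_le_pow_left₀ (by positivity) hcs2 2
          rw [mul_pow, sq_abs] at g2
          calc (lam ^ 2 * P) ^ 2 = lam ^ 2 * (lam ^ 2 * P ^ 2) := by ring
            _ ≤ lam ^ 2 * (ρ * V) ^ 2 := by gcongr
            _ = _ := by ring
        linarith
      have f5 : 2 * M / ((1 - η) * ρ) ≤ 2 * k / ρ := by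
        rw [hk]
        have g1 : 2 * (M / (1 - η) ^ 2) / ρ = 2 * M / ((1 - η) ^ 2 * ρ) := by
          field_simp
        rw [g1]
        have g2 : (1 - η) ^ 2 ≤ 1 - η := by
          have : (1 - η) ^ 2 = (1 - η) * (1 - η) := sq _
          rw [this]
          nlinarith
        gcongr
      have f6 : m c * M / (m a + m b) * V ^ 2 = m c * (m a + m b) / M * (lam ^ 2 * V ^ 2) := by
        rw [hlam]
        field_simp
      have f7 : m c * (m a + m b) / M * (2 * M / ((1 - η) * ρ)) ≤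
          m c * (m a + m b) / M * (lam ^ 2 * V ^ 2) := by
        have : 2 * M / ((1 - η) * ρ) ≤ lam ^ 2 * V ^ 2 := f5.trans f4.le
        gcongr
      have f8 : m c * (m a + m b) / M * (2 * M / ((1 - η) * ρ)) =
          2 * (m c * (m a + m b) / ((1 - η) * ρ)) := by
        field_simp
      have f9 : 0 ≤ m a * m b / (m a + m b) *
          ‖vel m (φ s y) a - vel m (φ s y) b‖ ^ 2 := by positivity
      have f10 : -E ≤ m a * m b / r := by linarith
      rw [le_div_iff₀ (by linarith)]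
      rw [le_div_iff₀ hrp] at f10
      linarith)
    (by
      show 0 < (lam * ‖(φ 0 y).1 c‖) ^ 2
      rw [h0]; positivity)
    (by
      show 0 < lam ^ 2 * inner ℝ ((φ 0 y).1 c) (vel m (φ 0 y) c)
      rw [h0]; positivity)
    (by
      show ‖(φ 0 y).1 a - (φ 0 y).1 b‖ < η * Real.sqrt ((lam * ‖(φ 0 y).1 c‖) ^ 2)
      rw [hu, h0]; exact hr)
    (by
      simp only [h0, Real.sqrt_sq (by positivity : 0 ≤ lam * ‖y.1 c‖)]
      exact hG)
  intro s hs
  have := key s hs
  simp only [h0] at this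
  exact this

end Pool.Agent.T6.H53.NB
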