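import Pool.Agent.T6.H53.NB.Sharp

set_option autoImplicit false

/-! The sharp threshold of escape: wandering points and the static estimate. -/

namespace Pool.Agent.T6.H53.NB

open Set Filter Topology Pool.Agent.Y516.NW Pool.Agent.Y438.NW MeasureTheory

theorem wandO (m : Fin 3 → ℝ) (hm : ∀ i, 0 < m i) (M : ℝ) (hM : ∑ i, m i = M) (E : ℝ) (hE : E < 0)
    (ψ : Cfg 3 × Cfg 3 → ℝ) (φ : ℝ → Cfg 3 × Cfg 3 → Cfg 3 × Cfg 3) (hφ : IsFl m E ψ φ)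
    (x : Cfg 3 × Cfg 3) (hx : x ∈ Surf m E) (a b c : Fin 3) (hab : a ≠ b) (hca : c ≠ a)
    (hcb : c ≠ b) (lam k η : ℝ) (hlam : lam = M / (m a + m b)) (hη : 0 < η) (hη1 : η < 1)
    (hk : k = M / (1 - η) ^ 2)
    (hP : 0 < inner ℝ (x.1 c) (vel m x c))
    (hr : ‖x.1 a - x.1 b‖ < η * (lam * ‖x.1 c‖))
    (hr' : m a * m b / (-E) < η * (lam * ‖x.1 c‖))
    (hG : 2 * k * (lam * ‖x.1 c‖) < (lam ^ 2 * inner ℝ (x.1 c) (vel m x c)) ^ 2) :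
    ¬ NonW (Surf m E) φ x := by
  intro hNW
  have hma := hm a
  have hmb := hm b
  have hM0 : 0 < M := by
    rw [← hM]; exact Finset.sum_pos (fun i _ => hm i) ⟨0, Finset.mem_univ _⟩
  have hlam0 : 0 < lam := by rw [hlam]; positivity
  have hc0 : 0 < ‖x.1 c‖ := by
    rw [norm_pos_iff]
    intro h
    rw [h, inner_zero_left] at hP
    exact lt_irrefl _ hP
  have hρx : 0 < lam * ‖x.1 c‖ := by positivity
  obtain ⟨V1, hV1o, hxV1, s1, hs1, δ, hδ, hloc⟩ := Pool.Agent.Y275.NW.loc (Cfg 3 × Cfg 3) (Free 3)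
    (Surf m E) (Z m ψ) ψ φ free_open (surf_free m E) (Z_cont m ψ hφ.cont) hφ.cont hφ.pos hφ.flow x
    (surf_free m E hx)
  -- the constants
  obtain ⟨g, hg⟩ : ∃ g, g = ((lam ^ 2 * inner ℝ (x.1 c) (vel m x c)) ^ 2 -
    2 * k * (lam * ‖x.1 c‖)) / (lam * ‖x.1 c‖) ^ 2 / 2 := ⟨_, rfl⟩
  have hg0 : 0 < g := by
    rw [hg]
    have : 0 < (lam ^ 2 * inner ℝ (x.1 c) (vel m x c)) ^ 2 - 2 * k * (lam * ‖x.1 c‖) := by
      linarith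
    positivity
  have hgx : g * (lam * ‖x.1 c‖) ^ 2 + 2 * k * (lam * ‖x.1 c‖) <
      (lam ^ 2 * inner ℝ (x.1 c) (vel m x c)) ^ 2 := by
    have e1 : g * (lam * ‖x.1 c‖) ^ 2 = ((lam ^ 2 * inner ℝ (x.1 c) (vel m x c)) ^ 2 -
        2 * k * (lam * ‖x.1 c‖)) / 2 := by
      rw [hg]; field_simp
    rw [e1]
    linarith
  obtain ⟨w, hw⟩ : ∃ w, w = (lam * ‖x.1 c‖) ^ 2 / 2 := ⟨_, rfl⟩
  have hw0 : 0 < w := by rw [hw]; positivity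
  obtain ⟨κ, hκ⟩ : ∃ κ, κ = 2 * Real.sqrt (g * w) * δ := ⟨_, rfl⟩
  have hκ0 : 0 < κ := by rw [hκ]; have := Real.sqrt_pos.mpr (mul_pos hg0 hw0); positivity
  -- continuity
  have cq : ∀ i, Continuous fun y : Cfg 3 × Cfg 3 => y.1 i := fun i =>
    (continuous_apply i).comp continuous_fst
  have cv : ∀ i, Continuous fun y : Cfg 3 × Cfg 3 => vel m y i := fun i =>
    (((continuous_apply i).comp continuous_snd).const_smul ((m i)⁻¹))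
  have cρ : Continuous fun y : Cfg 3 × Cfg 3 => lam * ‖y.1 c‖ :=
    continuous_const.mul (cq c).norm
  have cP : Continuous fun y : Cfg 3 × Cfg 3 => inner ℝ (y.1 c) (vel m y c) :=
    (cq c).inner (cv c)
  have o1 : IsOpen {y : Cfg 3 × Cfg 3 | 0 < inner ℝ (y.1 c) (vel m y c)} :=
    isOpen_lt continuous_const cP
  have o2 : IsOpen {y : Cfg 3 × Cfg 3 | ‖y.1 a - y.1 b‖ < η * (lam * ‖y.1 c‖)} :=
    isOpen_lt ((cq a).sub (cq b)).norm (continuous_const.mul cρ)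
  have o3 : IsOpen {y : Cfg 3 × Cfg 3 | m a * m b / (-E) < η * (lam * ‖y.1 c‖)} :=
    isOpen_lt continuous_const (continuous_const.mul cρ)
  have o4 : IsOpen {y : Cfg 3 × Cfg 3 | g * (lam * ‖y.1 c‖) ^ 2 + 2 * k * (lam * ‖y.1 c‖) <
      (lam ^ 2 * inner ℝ (y.1 c) (vel m y c)) ^ 2} :=
    isOpen_lt ((continuous_const.mul (cρ.pow 2)).add (continuous_const.mul cρ))
      ((continuous_const.mul cP).pow 2)
  have o5 : IsOpen {y : Cfg 3 × Cfg 3 | w < (lam * ‖y.1 c‖) ^ 2} :=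
    isOpen_lt continuous_const (cρ.pow 2)
  have o6 : IsOpen {y : Cfg 3 × Cfg 3 | |(lam * ‖y.1 c‖) ^ 2 - (lam * ‖x.1 c‖) ^ 2| < κ / 2} :=
    isOpen_lt (((cρ.pow 2).sub continuous_const).abs) continuous_const
  have hgrow : ∀ y ∈ V1 ∩ Surf m E, 0 < inner ℝ (y.1 c) (vel m y c) →
      ‖y.1 a - y.1 b‖ < η * (lam * ‖y.1 c‖) → m a * m b / (-E) < η * (lam * ‖y.1 c‖) →
      g * (lam * ‖y.1 c‖) ^ 2 + 2 * k * (lam * ‖y.1 c‖) <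
        (lam ^ 2 * inner ℝ (y.1 c) (vel m y c)) ^ 2 → w < (lam * ‖y.1 c‖) ^ 2 →
      ∀ t ≥ s1, (lam * ‖y.1 c‖) ^ 2 + κ ≤ (lam * ‖(φ t y).1 c‖) ^ 2 := by
    intro y hy h1 h2 h3 h4 h5 t ht
    have hcy : 0 < ‖y.1 c‖ := by
      rw [norm_pos_iff]
      intro h
      rw [h, inner_zero_left] at h1
      exact lt_irrefl _ h1
    have hρy : 0 < lam * ‖y.1 c‖ := by positivity
    have hτ0 : tau ψ φ y 0 = 0 := by unfold tau; simp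
    have h := dyn2 m hm M hM E hE ψ φ hφ y hy.2 a b c hab hca hcb lam k η g hlam hη hη1 hk hg0
      h1 h2 h3 (by
        rw [le_sub_iff_add_le, le_div_iff₀ (by positivity)]
        have e1 : (g + 2 * k / (lam * ‖y.1 c‖)) * (lam * ‖y.1 c‖) ^ 2 =
            g * (lam * ‖y.1 c‖) ^ 2 + 2 * k * (lam * ‖y.1 c‖) := by
          field_simp
        rw [e1]
        exact h4.le) t (hs1.le.trans ht)
    have hτt : δ ≤ tau ψ φ y t := hloc y hy (tau ψ φ y) hτ0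
      (fun s => tau_der m E ψ φ hφ y hy.2 s) t ht
    have e2 : Real.sqrt (g * w) ≤ Real.sqrt (g * (lam * ‖y.1 c‖) ^ 2) := by
      apply Real.sqrt_le_sqrt
      gcongr
    have e3 : κ ≤ 2 * Real.sqrt (g * (lam * ‖y.1 c‖) ^ 2) * tau ψ φ y t := by
      rw [hκ]
      gcongr
    linarith
  obtain ⟨t, ht, y, ⟨⟨⟨⟨⟨⟨⟨hy0, hy1⟩, hy2⟩, hy3⟩, hy4⟩, hy5⟩, hy6⟩, hyS⟩, ⟨_, hφy⟩⟩ := hNW
    (((((((V1 ∩ {y : Cfg 3 × Cfg 3 | 0 < inner ℝ (y.1 c) (vel m y c)}) ∩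
      {y : Cfg 3 × Cfg 3 | ‖y.1 a - y.1 b‖ < η * (lam * ‖y.1 c‖)}) ∩
      {y : Cfg 3 × Cfg 3 | m a * m b / (-E) < η * (lam * ‖y.1 c‖)}) ∩
      {y : Cfg 3 × Cfg 3 | g * (lam * ‖y.1 c‖) ^ 2 + 2 * k * (lam * ‖y.1 c‖) <
      (lam ^ 2 * inner ℝ (y.1 c) (vel m y c)) ^ 2}) ∩
      {y : Cfg 3 × Cfg 3 | w < (lam * ‖y.1 c‖) ^ 2}) ∩
      {y : Cfg 3 × Cfg 3 | |(lam * ‖y.1 c‖) ^ 2 - (lam * ‖x.1 c‖) ^ 2| < κ / 2}))
    ((((((hV1o.inter o1).inter o2).inter o3).inter o4).inter o5).inter o6)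
    ⟨⟨⟨⟨⟨⟨hxV1, hP⟩, hr⟩, hr'⟩, hgx⟩, by
      show w < (lam * ‖x.1 c‖) ^ 2
      rw [hw]; have : 0 < (lam * ‖x.1 c‖) ^ 2 := by positivity
      linarith⟩, by
      show |(lam * ‖x.1 c‖) ^ 2 - (lam * ‖x.1 c‖) ^ 2| < κ / 2
      rw [sub_self, abs_zero]; positivity⟩ s1
  have h1 := hgrow y ⟨hy0, hyS⟩ hy1 hy2 hy3 hy4 hy5 t ht.le
  have h2 : |(lam * ‖y.1 c‖) ^ 2 - (lam * ‖x.1 c‖) ^ 2| < κ / 2 := hy6
  have h3 : |(lam * ‖(φ t y).1 c‖) ^ 2 - (lam * ‖x.1 c‖) ^ 2| < κ / 2 := hφy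
  rw [abs_lt] at h2 h3
  linarith [h2.1, h2.2, h3.1, h3.2]

/-- the parabolic constant of the body `c` -/
noncomputable def par (m : Fin 3 → ℝ) (c : Fin 3) : ℝ :=
  2 * (m c * (∑ i, m i - m c)) ^ (3 / 2 : ℝ) / Real.sqrt (∑ i, m i)

theorem par_eq (m : Fin 3 → ℝ) (M : ℝ) (hM : ∑ i, m i = M) (hM0 : 0 < M) (c : Fin 3)
    (hz : 0 ≤ m c * (M - m c)) :
    par m c = 2 * M * (Real.sqrt (m c * (M - m c) / M)) ^ 3 := by
  unfold par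
  rw [hM, Pool.Agent.T6.H52.NW.rp hz, Real.sqrt_div hz]
  obtain ⟨R, hR⟩ : ∃ R, R = Real.sqrt M := ⟨_, rfl⟩
  have hR0 : 0 < R := by rw [hR]; exact Real.sqrt_pos.mpr hM0
  have hR2 : M = R ^ 2 := by rw [hR]; exact (Real.sq_sqrt hM0.le).symm
  obtain ⟨z, hz'⟩ : ∃ z, z = Real.sqrt (m c * (M - m c)) := ⟨_, rfl⟩
  rw [← hR, ← hz', hR2]
  field_simp

end Pool.Agent.T6.H53.NB
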