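import Pool.Agent.T6.H53.NB.Sharp2

set_option autoImplicit false

/-! The sharp threshold of escape: conclusion. -/

namespace Pool.Agent.T6.H53.NB

open Set Filter Topology Pool.Agent.Y516.NW Pool.Agent.Y438.NW MeasureTheory

theorem sharpPos (m : Fin 3 → ℝ) (hm : ∀ i, 0 < m i) (ε : ℝ) (hε : 0 < ε) : ∃ K : ℝ, 0 < K ∧
    ∀ (E : ℝ), E < 0 → ∀ (ψ : Cfg 3 × Cfg 3 → ℝ) (φ : ℝ → Cfg 3 × Cfg 3 → Cfg 3 × Cfg 3),
      IsFl m E ψ φ → ∀ x ∈ Surf m E, 0 < LJ m x → K ≤ Real.sqrt (In m x.1) * (-E) →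
        (∀ c, (1 + ε) * par m c * Real.sqrt (In m x.1) < (LJ m x) ^ 2) →
        ¬ NonW (Surf m E) φ x := by
  obtain ⟨M, hMdef⟩ : ∃ M : ℝ, M = ∑ i, m i := ⟨_, rfl⟩
  have hM : 0 < M := by
    rw [hMdef]; exact Finset.sum_pos (fun i _ => hm i) ⟨0, Finset.mem_univ _⟩
  -- `μ_c = m_c (M - m_c) / M`
  have hMc : ∀ c, 0 < M - m c := by
    intro c
    obtain ⟨a, b, hab, hca, hcb⟩ : ∃ a b : Fin 3, a ≠ b ∧ c ≠ a ∧ c ≠ b := by
      revert c; decide
    rw [hMdef, sum3 m a b c hab hca hcb]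
    linarith [hm a, hm b]
  have hμc : ∀ c, 0 < m c * (M - m c) / M := fun c => by
    have := hm c
    have := hMc c
    positivity
  have hpar : ∀ c, par m c = 2 * M * (Real.sqrt (m c * (M - m c) / M)) ^ 3 := fun c =>
    par_eq m M hMdef.symm hM c (mul_pos (hm c) (hMc c)).le
  have hpar0 : ∀ c, 0 < par m c := fun c => by
    rw [hpar c]
    have := Real.sqrt_pos.mpr (hμc c)
    positivity
  obtain ⟨p, hp, hpc⟩ : ∃ p : ℝ, 0 < p ∧ ∀ c, p ≤ par m c := by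
    obtain ⟨c, _, hc⟩ := Finset.exists_min_image Finset.univ (par m) ⟨0, Finset.mem_univ _⟩
    exact ⟨par m c, hpar0 c, fun c' => hc c' (Finset.mem_univ _)⟩
  obtain ⟨η, hη⟩ : ∃ η, η = ε / (4 * (2 + ε)) := ⟨_, rfl⟩
  have hη0 : 0 < η := by rw [hη]; positivity
  have hη1 : η < 1 := by
    rw [hη, div_lt_one (by positivity)]; linarith
  obtain ⟨θ, hθ⟩ : ∃ θ, θ = ε / (4 * (1 + ε)) := ⟨_, rfl⟩
  have hθ0 : 0 < θ := by rw [hθ]; positivity
  have hθ1 : θ < 1 := by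
    rw [hθ, div_lt_one (by positivity)]; linarith
  have hθε : (1 - θ) * (1 + ε) = 1 + 3 / 4 * ε := by
    rw [hθ]; field_simp; ring
  obtain ⟨K1, hK1⟩ : ∃ K1, K1 = 2 * M ^ 5 / (θ * ε * p) := ⟨_, rfl⟩
  obtain ⟨K2, hK2⟩ : ∃ K2, K2 = 2 * M ^ 5 / η ^ 2 := ⟨_, rfl⟩
  have hK10 : 0 < K1 := by rw [hK1]; positivity
  have hK20 : 0 < K2 := by rw [hK2]; positivity
  obtain ⟨K3, hK3⟩ : ∃ K3, K3 = 2 * M ^ 5 / p := ⟨_, rfl⟩
  have hK30 : 0 < K3 := by rw [hK3]; positivity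
  obtain ⟨K, hK⟩ : ∃ K, K = K1 + K2 + K3 + 1 := ⟨_, rfl⟩
  have hK0 : 0 < K := by rw [hK]; linarith
  refine ⟨K, hK0, ?_⟩
  intro E hE ψ φ hφ x hx hJ0 hKS hJ
  -- the closest pair
  obtain ⟨⟨a, b⟩, hab', hmin⟩ := Finset.exists_min_image
    (Finset.univ.filter (fun p : Fin 3 × Fin 3 => p.1 ≠ p.2)) (fun p => ‖x.1 p.1 - x.1 p.2‖)
    ⟨(0, 1), by simp⟩
  have hab : a ≠ b := by simpa using hab'
  obtain ⟨r, hr⟩ : ∃ r, r = ‖x.1 a - x.1 b‖ := ⟨_, rfl⟩
  have hr0 : 0 < r := by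
    rw [hr]; exact norm_pos_iff.mpr (sub_ne_zero.mpr (hx.1 a b hab))
  have hmin' : ∀ i j, i ≠ j → r ≤ ‖x.1 i - x.1 j‖ := by
    intro i j hij
    rw [hr]
    exact hmin (i, j) (by simpa using hij)
  obtain ⟨c, hca, hcb⟩ := third a b hab
  have hma := hm a
  have hmb := hm b
  have hmc := hm c
  have hMs : m a + m b + m c = M := by
    rw [hMdef, sum3 m a b c hab hca hcb]; ring
  have hMs' : M - m c = m a + m b := by linarith
  have hqs : m a • x.1 a + (m b • x.1 b + m c • x.1 c) = 0 := by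
    rw [← sum3 (fun i => m i • x.1 i) a b c hab hca hcb]
    exact hx.2.1
  have hvs : m a • vel m x a + (m b • vel m x b + m c • vel m x c) = 0 := by
    rw [← sum3 (fun i => m i • vel m x i) a b c hab hca hcb]
    exact surf_mom m hm E x hx
  have hIn : In m x.1 = m a * m b / (m a + m b) * ‖x.1 a - x.1 b‖ ^ 2 +
      m c * M / (m a + m b) * ‖x.1 c‖ ^ 2 := by
    rw [← hMs, ← split3' hma hmb _ _ _ hqs]
    unfold In
    rw [sum3 _ a b c hab hca hcb]
  have hJe : LJ m x = m a * m b / (m a + m b) * inner ℝ (x.1 a - x.1 b)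
      (vel m x a - vel m x b) + m c * M / (m a + m b) * inner ℝ (x.1 c) (vel m x c) := by
    rw [← hMs, ← split3 hma hmb _ _ _ _ _ _ hqs hvs]
    unfold LJ
    rw [sum3 _ a b c hab hca hcb]
  have hT : 2 * Ki m x = m a * m b / (m a + m b) * ‖vel m x a - vel m x b‖ ^ 2 +
      m c * M / (m a + m b) * ‖vel m x c‖ ^ 2 := by
    rw [← hMs, ← split3' hma hmb _ _ _ hvs]
    unfold Ki
    rw [sum3 _ a b c hab hca hcb]
    ring
  have hIn0 : 0 < In m x.1 := In_pos (by norm_num) m hm x (surf_free m E hx)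
  obtain ⟨S, hS⟩ : ∃ S, S = Real.sqrt (In m x.1) := ⟨_, rfl⟩
  have hS0 : 0 < S := by rw [hS]; exact Real.sqrt_pos.mpr hIn0
  have hS2 : S ^ 2 = In m x.1 := by rw [hS]; exact Real.sq_sqrt hIn0.le
  obtain ⟨α, hα⟩ : ∃ α, α = m a * m b / (m a + m b) := ⟨_, rfl⟩
  have hα0 : 0 < α := by rw [hα]; positivity
  have hαM : α ≤ M := by
    rw [hα, div_le_iff₀ (by positivity), ← hMs]
    have e1 : 0 ≤ m a * m a + m a * m b + m b * m b + m c * m a + m c * m b := by positivity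
    have e2 : (m a + m b + m c) * (m a + m b) =
        m a * m b + (m a * m a + m a * m b + m b * m b + m c * m a + m c * m b) := by ring
    rw [e2]
    linarith
  obtain ⟨γ, hγ⟩ : ∃ γ, γ = m c * M / (m a + m b) := ⟨_, rfl⟩
  have hγ0 : 0 < γ := by rw [hγ]; positivity
  obtain ⟨lam, hlam⟩ : ∃ lam, lam = M / (m a + m b) := ⟨_, rfl⟩
  have hlam0 : 0 < lam := by rw [hlam]; positivity
  obtain ⟨w, hw⟩ : ∃ w, w = Real.sqrt (m c * (M - m c) / M) := ⟨_, rfl⟩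
  have hw0 : 0 < w := by rw [hw]; exact Real.sqrt_pos.mpr (hμc c)
  have hw2 : w ^ 2 = m c * (m a + m b) / M := by
    rw [hw, Real.sq_sqrt (hμc c).le, hMs']
  have hwγ : γ = w ^ 2 * lam ^ 2 := by
    rw [hw2, hγ, hlam]; field_simp
  have hwM : w ^ 2 ≤ M := by
    rw [hw2, div_le_iff₀ hM]
    have e1 : m c ≤ M := by linarith
    have e2 : m a + m b ≤ M := by linarith
    gcongr
  have hpw : par m c = 2 * M * w ^ 3 := by rw [hpar c, hw]
  obtain ⟨P, hP⟩ : ∃ P, P = inner ℝ (x.1 c) (vel m x c) := ⟨_, rfl⟩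
  obtain ⟨Ai, hAi⟩ : ∃ Ai, Ai = α * inner ℝ (x.1 a - x.1 b) (vel m x a - vel m x b) := ⟨_, rfl⟩
  obtain ⟨J, hJd⟩ : ∃ J, J = LJ m x := ⟨_, rfl⟩
  obtain ⟨ρ, hρ⟩ : ∃ ρ, ρ = lam * ‖x.1 c‖ := ⟨_, rfl⟩
  have hρ0 : 0 ≤ ρ := by rw [hρ]; positivity
  have hJc := hJ c
  rw [← hα, ← hγ, ← hr, ← hS2] at hIn
  rw [← hα, ← hγ, ← hP, ← hAi, ← hJd] at hJe
  rw [← hα, ← hγ] at hT
  rw [← hS, ← hJd] at hJc
  rw [← hS] at hKS
  rw [← hJd] at hJ0
  have hIn' : S ^ 2 = α * r ^ 2 + w ^ 2 * ρ ^ 2 := by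
    rw [hIn, hwγ, hρ]; ring
  have hE' : 0 < -E := by linarith
  -- the pair is tight
  have hPo := Po_le m hm M hMdef.symm x.1 r hr0 hmin'
  have hen := surf_ener m hm E x hx
  have hKi0 : 0 ≤ Ki m x := by
    unfold Ki
    exact Finset.sum_nonneg fun i _ => by have := (hm i).le; positivity
  have hK2' : 2 * Ki m x ≤ M ^ 2 / r := by
    have : M ^ 2 / r = 2 * (M ^ 2 / (2 * r)) := by field_simp
    rw [this]; linarith
  have hrE : r * (2 * (-E)) ≤ M ^ 2 := by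
    have h1 : -E ≤ M ^ 2 / (2 * r) := by linarith
    rw [le_div_iff₀ (by positivity)] at h1
    linarith
  have hrK : 2 * K * r ≤ M ^ 2 * S := by
    calc 2 * K * r ≤ 2 * (S * (-E)) * r := by gcongr
      _ = S * (r * (2 * (-E))) := by ring
      _ ≤ S * M ^ 2 := by gcongr
      _ = _ := by ring
  have hKK : K2 < K ^ 2 := by
    have e1 : K2 < K := by rw [hK]; linarith
    have e2 : 1 ≤ K := by rw [hK]; linarith
    have e3 : K ≤ K ^ 2 := by
      rw [sq]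
      calc K = 1 * K := (one_mul K).symm
        _ ≤ K * K := by gcongr
    linarith
  have hKη : 2 * M ^ 5 < K ^ 2 * η ^ 2 := by
    rw [hK2, div_lt_iff₀ (by positivity)] at hKK
    exact hKK
  have hη2 : η ^ 2 ≤ 1 := by
    have := pow_le_pow_left₀ hη0.le hη1.le 2
    linarith
  have hrK2 : 4 * K ^ 2 * r ^ 2 ≤ M ^ 4 * S ^ 2 := by
    have := pow_le_pow_left₀ (by positivity) hrK 2
    calc 4 * K ^ 2 * r ^ 2 = (2 * K * r) ^ 2 := by ring
      _ ≤ (M ^ 2 * S) ^ 2 := this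
      _ = _ := by ring
  have hρS : S ^ 2 ≤ 2 * M * ρ ^ 2 := by
    have h1 : α * r ^ 2 ≤ M * r ^ 2 := by gcongr
    have h2 : K ^ 2 * (2 * (M * r ^ 2)) ≤ K ^ 2 * S ^ 2 := by
      have e1 : 2 * M ^ 5 ≤ K ^ 2 := by
        have : K ^ 2 * η ^ 2 ≤ K ^ 2 * 1 := by gcongr
        linarith
      calc K ^ 2 * (2 * (M * r ^ 2)) = M / 2 * (4 * K ^ 2 * r ^ 2) := by ring
        _ ≤ M / 2 * (M ^ 4 * S ^ 2) := by gcongr
        _ = M ^ 5 / 2 * S ^ 2 := by ring
        _ ≤ K ^ 2 * S ^ 2 := by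
            have : M ^ 5 / 2 ≤ K ^ 2 := by
              have : 0 ≤ M ^ 5 := by positivity
              linarith
            gcongr
    have h3 := le_of_mul_le_mul_left h2 (by positivity)
    have h4 : w ^ 2 * ρ ^ 2 ≤ M * ρ ^ 2 := by gcongr
    linarith
  have hρpos : 0 < ρ := by
    rcases eq_or_lt_of_le hρ0 with h | h
    · rw [← h] at hρS
      have : 0 < S ^ 2 := by positivity
      norm_num at hρS
      linarith
    · exact h
  -- `r < η ρ`
  have hrη : r < η * ρ := by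
    refine lt_of_pow_lt_pow_left₀ 2 (by positivity) ?_
    have h1 : 4 * K ^ 2 * r ^ 2 < 4 * K ^ 2 * (η * ρ) ^ 2 := by
      calc 4 * K ^ 2 * r ^ 2 ≤ M ^ 4 * S ^ 2 := hrK2
        _ ≤ M ^ 4 * (2 * M * ρ ^ 2) := by gcongr
        _ = 2 * M ^ 5 * ρ ^ 2 := by ring
        _ < K ^ 2 * η ^ 2 * ρ ^ 2 := by gcongr
        _ ≤ 4 * K ^ 2 * (η * ρ) ^ 2 := by
            have e0 : 0 ≤ K ^ 2 * η ^ 2 * ρ ^ 2 := by positivity
            have e1 : 4 * K ^ 2 * (η * ρ) ^ 2 = 4 * (K ^ 2 * η ^ 2 * ρ ^ 2) := by ring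
            rw [e1]
            linarith
    exact lt_of_mul_lt_mul_left h1 (by positivity)
  have hrη' : m a * m b / (-E) < η * ρ := by
    rw [div_lt_iff₀ hE']
    have h1 : M ^ 2 * S < η * ρ * K := by
      refine lt_of_pow_lt_pow_left₀ 2 (by positivity) ?_
      calc (M ^ 2 * S) ^ 2 = M ^ 4 * S ^ 2 := by ring
        _ ≤ M ^ 4 * (2 * M * ρ ^ 2) := by gcongr
        _ = 2 * M ^ 5 * ρ ^ 2 := by ring
        _ < K ^ 2 * η ^ 2 * ρ ^ 2 := by gcongr
        _ = _ := by ring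
    have h2 : η * ρ * K ≤ η * ρ * (S * (-E)) := by gcongr
    have h3 : M ^ 2 * S < (η * ρ * (-E)) * S := by linarith
    have h4 := lt_of_mul_lt_mul_right h3 hS0.le
    have h5 : m a * m b ≤ M ^ 2 := by
      rw [sq]
      have e1 : m a ≤ M := by linarith
      have e2 : m b ≤ M := by linarith
      gcongr
    linarith
  -- the inner part of `J`
  have hAi2 : Ai ^ 2 ≤ M ^ 3 * r := by
    have h1 := abs_real_inner_le_norm (x.1 a - x.1 b) (vel m x a - vel m x b)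
    rw [← hr] at h1
    have h2 : (inner ℝ (x.1 a - x.1 b) (vel m x a - vel m x b)) ^ 2 ≤
        r ^ 2 * ‖vel m x a - vel m x b‖ ^ 2 := by
      rw [← sq_abs, ← mul_pow]
      exact pow_le_pow_left₀ (abs_nonneg _) h1 2
    have h3 : α * ‖vel m x a - vel m x b‖ ^ 2 ≤ M ^ 2 / r := by
      have h4 : 0 ≤ γ * ‖vel m x c‖ ^ 2 := by positivity
      linarith
    calc Ai ^ 2 = α ^ 2 * (inner ℝ (x.1 a - x.1 b) (vel m x a - vel m x b)) ^ 2 := by
          rw [hAi]; ring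
      _ ≤ α ^ 2 * (r ^ 2 * ‖vel m x a - vel m x b‖ ^ 2) := by gcongr
      _ = α * r ^ 2 * (α * ‖vel m x a - vel m x b‖ ^ 2) := by ring
      _ ≤ α * r ^ 2 * (M ^ 2 / r) := by gcongr
      _ = α * M ^ 2 * r := by field_simp
      _ ≤ M * M ^ 2 * r := by gcongr
      _ = M ^ 3 * r := by ring
  have hAi3 : 2 * K * Ai ^ 2 ≤ M ^ 5 * S := by
    calc 2 * K * Ai ^ 2 ≤ 2 * K * (M ^ 3 * r) := by gcongr
      _ = M ^ 3 * (2 * K * r) := by ring
      _ ≤ M ^ 3 * (M ^ 2 * S) := by gcongr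
      _ = _ := by ring
  have hK1K : K1 ≤ K := by rw [hK]; linarith
  have hK3K : K3 ≤ K := by rw [hK]; linarith
  have hAi4 : 4 * Ai ^ 2 ≤ θ * ε * p * S := by
    have e1 : 2 * M ^ 5 ≤ K * (θ * ε * p) := by
      rw [hK1, div_le_iff₀ (by positivity)] at hK1K
      linarith
    have e2 : K * (4 * Ai ^ 2) ≤ K * (θ * ε * p * S) := by
      calc K * (4 * Ai ^ 2) = 2 * (2 * K * Ai ^ 2) := by ring
        _ ≤ 2 * (M ^ 5 * S) := by gcongr
        _ = 2 * M ^ 5 * S := by ring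
        _ ≤ K * (θ * ε * p) * S := by gcongr
        _ = _ := by ring
    exact le_of_mul_le_mul_left e2 hK0
  have hAi5 : 4 * Ai ^ 2 ≤ p * S := by
    have e1 : 2 * M ^ 5 ≤ K * p := by
      rw [hK3, div_le_iff₀ (by positivity)] at hK3K
      linarith
    have e2 : K * (4 * Ai ^ 2) ≤ K * (p * S) := by
      calc K * (4 * Ai ^ 2) = 2 * (2 * K * Ai ^ 2) := by ring
        _ ≤ 2 * (M ^ 5 * S) := by gcongr
        _ = 2 * M ^ 5 * S := by ring
        _ ≤ K * p * S := by gcongr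
        _ = _ := by ring
    exact le_of_mul_le_mul_left e2 hK0
  have hpc' := hpc c
  have hpJ : p * S < J ^ 2 := by
    have e1 : p * S ≤ (1 + ε) * par m c * S := by
      have : p ≤ (1 + ε) * par m c := by
        have h1 : 0 ≤ ε * par m c := by
          have := hpar0 c
          positivity
        have h2 : (1 + ε) * par m c = par m c + ε * par m c := by ring
        rw [h2]
        linarith
      gcongr
    linarith
  have hAJ : Ai < J := by
    have h1 : Ai ^ 2 < J ^ 2 := by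
      have := sq_nonneg Ai
      linarith
    exact (abs_lt.1 (abs_lt_of_sq_lt_sq h1 hJ0.le)).2
  have hγPe : γ * P = J - Ai := by linarith
  have hPpos : 0 < P := by
    have h1 : 0 < γ * P := by linarith
    exact (mul_pos_iff_of_pos_left hγ0).1 h1
  -- the lower bound of the outer part
  have hmain : (1 + ε / 2) * par m c * S < (γ * P) ^ 2 := by
    rw [hγPe]
    have e1 : (1 - θ) * J ^ 2 - Ai ^ 2 / θ ≤ (J - Ai) ^ 2 := by
      have e2 : (J - Ai) ^ 2 - ((1 - θ) * J ^ 2 - Ai ^ 2 / θ) =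
          (θ * J - Ai) ^ 2 / θ + Ai ^ 2 := by
        field_simp
        ring
      have e3 : 0 ≤ (θ * J - Ai) ^ 2 / θ + Ai ^ 2 := by positivity
      linarith
    have e2 : Ai ^ 2 / θ ≤ ε / 4 * par m c * S := by
      rw [div_le_iff₀ hθ0]
      have : θ * ε * p * S ≤ θ * ε * par m c * S := by gcongr
      linarith
    have e3 : (1 - θ) * ((1 + ε) * par m c * S) < (1 - θ) * J ^ 2 := by
      have : 0 < 1 - θ := by linarith
      gcongr
    have e4 : (1 - θ) * ((1 + ε) * par m c * S) = (1 + 3 / 4 * ε) * (par m c * S) := by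
      rw [← hθε]; ring
    rw [e4] at e3
    have e5 : (1 + ε / 2) * par m c * S = (1 + 3 / 4 * ε) * (par m c * S) -
        ε / 4 * par m c * S := by ring
    rw [e5]
    linarith
  have hwρ : w * ρ ≤ S := by
    refine (pow_le_pow_iff_left₀ (by positivity) hS0.le two_ne_zero).1 ?_
    have : 0 ≤ α * r ^ 2 := by positivity
    rw [mul_pow]
    linarith
  have hG : 2 * (M / (1 - η) ^ 2) * ρ < (lam ^ 2 * P) ^ 2 := by
    have h1η : 0 < 1 - η := by linarith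
    have e1 : (1 + ε / 2) * par m c * (w * ρ) < (γ * P) ^ 2 := by
      have : (1 + ε / 2) * par m c * (w * ρ) ≤ (1 + ε / 2) * par m c * S := by
        have := (hpar0 c).le
        gcongr
      linarith
    have e2 : (γ * P) ^ 2 = w ^ 4 * (lam ^ 2 * P) ^ 2 := by rw [hwγ]; ring
    have e3 : (1 + ε / 2) * par m c * (w * ρ) = w ^ 4 * ((1 + ε / 2) * (2 * M) * ρ) := by
      rw [hpw]; ring
    rw [e2, e3] at e1
    have e4 := lt_of_mul_lt_mul_left e1 (by positivity)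
    refine lt_of_le_of_lt ?_ e4
    have e5 : M / (1 - η) ^ 2 ≤ (1 + ε / 2) * M := by
      rw [div_le_iff₀ (by positivity)]
      have e6 : 1 ≤ (1 + ε / 2) * (1 - η) ^ 2 := by
        have e7 : (2 + ε) * η = ε / 4 := by rw [hη]; field_simp
        have e8 : (1 + ε / 2) * (1 - η) ^ 2 = (1 + ε / 2) - (2 + ε) * η + (1 + ε / 2) * η ^ 2 := by
          ring
        rw [e8, e7]
        have : 0 ≤ (1 + ε / 2) * η ^ 2 := by positivity
        linarith
      calc M = M * 1 := (mul_one M).symm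
        _ ≤ M * ((1 + ε / 2) * (1 - η) ^ 2) := by gcongr
        _ = _ := by ring
    calc 2 * (M / (1 - η) ^ 2) * ρ ≤ 2 * ((1 + ε / 2) * M) * ρ := by gcongr
      _ = _ := by ring
  exact wandO m hm M hMdef.symm E hE ψ φ hφ x hx a b c hab hca hcb lam (M / (1 - η) ^ 2) η hlam hη0
    hη1 rfl (by rw [← hP]; exact hPpos) (by rw [← hr, ← hρ]; exact hrη)
    (by rw [← hρ]; exact hrη') (by rw [← hρ, ← hP]; exact hG)

/-- the sharp a priori bound for nonwandering points -/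
theorem sharp (m : Fin 3 → ℝ) (hm : ∀ i, 0 < m i) (ε : ℝ) (hε : 0 < ε) : ∃ K : ℝ, 0 < K ∧
    ∀ (E : ℝ), E < 0 → ∀ (ψ : Cfg 3 × Cfg 3 → ℝ) (φ : ℝ → Cfg 3 × Cfg 3 → Cfg 3 × Cfg 3),
      ContDiffOn ℝ ((⊤ : ℕ∞) : WithTop ℕ∞) ψ (Free 3) → IsFl m E ψ φ →
      ∀ x ∈ Surf m E, NonW (Surf m E) φ x → K ≤ Real.sqrt (In m x.1) * (-E) →
        ∃ c, (LJ m x) ^ 2 ≤ (1 + ε) * par m c * Real.sqrt (In m x.1) := by
  obtain ⟨K, hK, h⟩ := sharpPos m hm ε hε
  refine ⟨K, hK, ?_⟩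
  intro E hE ψ φ hψ hφ x hx hNW hKS
  by_contra hcon
  push Not at hcon
  rcases lt_trichotomy (LJ m x) 0 with hJ | hJ | hJ
  · refine h E hE (fun y => ψ (rev y)) (fun t x => rev (φ (-t) (rev x)))
      (rev_fl m E ψ φ hφ) (rev x) (rev_surf m E x hx) (by rw [rev_LJ]; linarith) hKS ?_
      (rev_nonw m E ψ hψ φ hφ x hNW)
    intro c
    rw [rev_LJ, neg_sq]
    exact hcon c
  · have h1 := hcon 0
    rw [hJ] at h1
    have h2 : 0 ≤ par m 0 := by
      unfold par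
      have h3 : 0 ≤ m 0 * (∑ i, m i - m 0) := by
        have h4 : m 0 ≤ ∑ i, m i :=
          Finset.single_le_sum (f := m) (fun i _ => (hm i).le) (Finset.mem_univ 0)
        have := (hm 0).le
        exact mul_nonneg this (by linarith)
      positivity
    have h3 := Real.sqrt_nonneg (In m x.1)
    have h4 : 0 ≤ (1 + ε) * par m 0 * Real.sqrt (In m x.1) := by positivity
    norm_num at h1
    linarith
  · exact h E hE ψ φ hφ x hx hJ hKS hcon hNW

end Pool.Agent.T6.H53.NB
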