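import Pool.Agent.T6.H53.NB.Flow
import Pool.Agent.T6.H52.NW.Fin
import Pool.Agent.Y438.NW.Pos

set_option autoImplicit false

/-! The vector field of the `N`-body problem is locally Lipschitz; nonwandering points of the
reparametrized flow form an invariant set. -/

namespace Pool.Agent.T6.H53.NB

open Set Filter Topology Pool.Agent.Y516.NW
open scoped NNReal

variable {N : ℕ}

theorem Z_smooth (m : Fin N → ℝ) (ψ : Cfg N × Cfg N → ℝ)
    (hψ : ContDiffOn ℝ ((⊤ : ℕ∞) : WithTop ℕ∞) ψ (Free N)) (x : Cfg N × Cfg N)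
    (hx : x ∈ Free N) : ContDiffAt ℝ 1 (Z m ψ) x := by
  have h1 : ContDiffAt ℝ 1 ψ x :=
    (hψ.contDiffAt (free_open.mem_nhds hx)).of_le (by exact_mod_cast le_top)
  have hq : ∀ i, ContDiffAt ℝ 1 (fun x : Cfg N × Cfg N => x.1 i) x := fun i =>
    (contDiff_apply ℝ E3 i).contDiffAt.comp x contDiffAt_fst
  have hp : ∀ i, ContDiffAt ℝ 1 (fun x : Cfg N × Cfg N => x.2 i) x := fun i =>
    (contDiff_apply ℝ E3 i).contDiffAt.comp x contDiffAt_snd
  unfold Z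
  refine h1.smul (ContDiffAt.prodMk ?_ ?_)
  · rw [contDiffAt_pi]
    intro i
    exact (hp i).const_smul _
  · rw [contDiffAt_pi]
    intro i
    refine ContDiffAt.sum fun j _ => ?_
    by_cases hij : j = i
    · subst hij
      simp only [sub_self, smul_zero]
      exact contDiffAt_const
    · have hne : x.1 j - x.1 i ≠ 0 := sub_ne_zero.mpr (hx j i hij)
      have h2 : ContDiffAt ℝ 1 (fun x : Cfg N × Cfg N => x.1 j - x.1 i) x := (hq j).sub (hq i)
      have h3 : ContDiffAt ℝ 1 (fun x : Cfg N × Cfg N => ‖x.1 j - x.1 i‖) x := h2.norm ℝ hne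
      exact (contDiffAt_const.div (h3.pow 3) (pow_ne_zero 3 (norm_ne_zero_iff.mpr hne))).smul h2

theorem flowOn (m : Fin N → ℝ) (E : ℝ) (ψ : Cfg N × Cfg N → ℝ)
    (hψ : ContDiffOn ℝ ((⊤ : ℕ∞) : WithTop ℕ∞) ψ (Free N))
    (φ : ℝ → Cfg N × Cfg N → Cfg N × Cfg N) (hφ : IsFl m E ψ φ) :
    FlowOn (Surf m E) (Z m ψ) φ :=
  ⟨fun x hx => (hφ.flow x hx).1, fun x hx t => ((hφ.flow x hx).2 t).1,
    fun x hx t => ((hφ.flow x hx).2 t).2,
    fun x hx => (Z_smooth m ψ hψ x (surf_free m E hx)).exists_lipschitzOnWith⟩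

/-- nonwandering points are invariant under the flow -/
theorem nonw (m : Fin N → ℝ) (E : ℝ) (ψ : Cfg N × Cfg N → ℝ)
    (hψ : ContDiffOn ℝ ((⊤ : ℕ∞) : WithTop ℕ∞) ψ (Free N))
    (φ : ℝ → Cfg N × Cfg N → Cfg N × Cfg N) (hφ : IsFl m E ψ φ) (x : Cfg N × Cfg N)
    (hx : x ∈ Surf m E) (h : NonW (Surf m E) φ x) (s : ℝ) : NonW (Surf m E) φ (φ s x) :=
  (flowOn m E ψ hψ φ hφ).nonw hx h s

end Pool.Agent.T6.H53.NB
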