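import Pool.Agent.T6.H53.NB.Apr

set_option autoImplicit false

/-! Growth and virial theorem along nonwandering orbits of the three-body problem. -/

namespace Pool.Agent.T6.H53.NB

open Set Filter Topology Pool.Agent.Y516.NW Pool.Agent.Y438.NW MeasureTheory

variable {N : ℕ}

theorem psi_cont (m : Fin N → ℝ) (E : ℝ) (ψ : Cfg N × Cfg N → ℝ)
    (φ : ℝ → Cfg N × Cfg N → Cfg N × Cfg N) (hφ : IsFl m E ψ φ) (x : Cfg N × Cfg N)
    (hx : x ∈ Surf m E) : Continuous fun s => ψ (φ s x) := by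
  have hfl := hφ.flow x hx
  have hcont : Continuous fun t => φ t x :=
    continuous_iff_continuousAt.mpr fun t => (hfl.2 t).2.continuousAt
  exact hφ.cont.comp_continuous hcont (fun t => surf_free m E (hfl.2 t).1)

/-- the physical time -/
noncomputable def tau (ψ : Cfg N × Cfg N → ℝ) (φ : ℝ → Cfg N × Cfg N → Cfg N × Cfg N)
    (x : Cfg N × Cfg N) (s : ℝ) : ℝ := ∫ u in (0:ℝ)..s, ψ (φ u x)

theorem tau_der (m : Fin N → ℝ) (E : ℝ) (ψ : Cfg N × Cfg N → ℝ)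
    (φ : ℝ → Cfg N × Cfg N → Cfg N × Cfg N) (hφ : IsFl m E ψ φ) (x : Cfg N × Cfg N)
    (hx : x ∈ Surf m E) (s : ℝ) : HasDerivAt (tau ψ φ x) (ψ (φ s x)) s := by
  have hc := psi_cont m E ψ φ hφ x hx
  exact intervalIntegral.integral_hasDerivAt_right (hc.intervalIntegrable _ _)
      (hc.stronglyMeasurableAtFilter _ _) hc.continuousAt

/-- the moment of inertia along an orbit -/
theorem In_der (m : Fin N → ℝ) (hm : ∀ i, 0 < m i) (E : ℝ) (ψ : Cfg N × Cfg N → ℝ)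
    (φ : ℝ → Cfg N × Cfg N → Cfg N × Cfg N) (hφ : IsFl m E ψ φ) (x : Cfg N × Cfg N)
    (hx : x ∈ Surf m E) (s : ℝ) :
    HasDerivAt (fun s => In m (φ s x).1) (2 * (ψ (φ s x) * LJ m (φ s x))) s := by
  obtain ⟨τ, hmot⟩ := mot_of_flow m hm E ψ φ hφ x hx
  unfold In
  have h1 : HasDerivAt (fun s => ∑ i, m i * ‖(φ s x).1 i‖ ^ 2)
      (∑ i, m i * (2 * inner ℝ ((φ s x).1 i) (ψ (φ s x) • vel m (φ s x) i))) s :=
    HasDerivAt.fun_sum fun i _ => ((hmot.qd s i).norm_sq).const_mul (m i)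
  refine h1.congr_deriv ?_
  unfold LJ
  rw [Finset.mul_sum, Finset.mul_sum]
  refine Finset.sum_congr rfl fun i _ => ?_
  rw [inner_smul_right]
  ring

/-- the function of Lagrange and Jacobi along an orbit -/
theorem LJ_der (m : Fin N → ℝ) (hm : ∀ i, 0 < m i) (E : ℝ) (ψ : Cfg N × Cfg N → ℝ)
    (φ : ℝ → Cfg N × Cfg N → Cfg N × Cfg N) (hφ : IsFl m E ψ φ) (x : Cfg N × Cfg N)
    (hx : x ∈ Surf m E) (s : ℝ) :
    HasDerivAt (fun s => LJ m (φ s x)) (ψ (φ s x) * (Ki m (φ s x) + E)) s := by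
  obtain ⟨τ, hmot⟩ := mot_of_flow m hm E ψ φ hφ x hx
  have h1 : HasDerivAt (fun s => LJ m (φ s x))
      (∑ i, m i * (inner ℝ ((φ s x).1 i) (ψ (φ s x) • acc m (φ s x).1 i) +
        inner ℝ (ψ (φ s x) • vel m (φ s x) i) (vel m (φ s x) i))) s := by
    unfold LJ
    refine HasDerivAt.fun_sum fun i _ => ?_
    exact ((hmot.qd s i).inner ℝ (hmot.vd s i)).const_mul (m i)
  refine h1.congr_deriv ?_
  have hv := virial m (φ s x).1
  have he := surf_ener m hm E (φ s x) ((hφ.flow x hx).2 s).1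
  have e : ∑ i, m i * (inner ℝ ((φ s x).1 i) (ψ (φ s x) • acc m (φ s x).1 i) +
      inner ℝ (ψ (φ s x) • vel m (φ s x) i) (vel m (φ s x) i)) =
      ψ (φ s x) * (∑ i, m i * inner ℝ ((φ s x).1 i) (acc m (φ s x).1 i) +
        2 * ∑ i, m i * ‖vel m (φ s x) i‖ ^ 2 / 2) := by
    rw [Finset.mul_sum, ← Finset.sum_add_distrib, Finset.mul_sum]
    refine Finset.sum_congr rfl fun i _ => ?_
    rw [inner_smul_right, real_inner_smul_left, real_inner_self_eq_norm_sq]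
    ring
  rw [e, hv]
  congr 1
  unfold Ki Po at he
  unfold Ki
  linarith

theorem In_pos (hN : 2 ≤ N) (m : Fin N → ℝ) (hm : ∀ i, 0 < m i) (x : Cfg N × Cfg N)
    (hx : x ∈ Free N) : 0 < In m x.1 := by
  have h0 : ∀ i, 0 ≤ m i * ‖x.1 i‖ ^ 2 := fun i => by have := (hm i).le; positivity
  refine lt_of_le_of_ne (Finset.sum_nonneg fun i _ => h0 i) ?_
  intro h
  have h1 := (Finset.sum_eq_zero_iff_of_nonneg (fun i _ => h0 i)).mp h.symm
  have hz : ∀ i, x.1 i = 0 := by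
    intro i
    have h2 := h1 i (Finset.mem_univ i)
    rcases mul_eq_zero.mp h2 with h3 | h3
    · exact absurd h3 (hm i).ne'
    · exact norm_eq_zero.mp (pow_eq_zero_iff (by norm_num) |>.mp h3)
  have := hx ⟨0, by omega⟩ ⟨1, by omega⟩ (by simp)
  exact this (by rw [hz, hz])

/-- if `f' ≤ B g'` in absolute value then `|f s - f 0| ≤ B |g s - g 0|` -/
theorem compare (f g f' g' : ℝ → ℝ) (B : ℝ) (hB : 0 ≤ B) (hf : ∀ s, HasDerivAt f (f' s) s)
    (hg : ∀ s, HasDerivAt g (g' s) s) (h : ∀ s, |f' s| ≤ B * g' s) (s : ℝ) :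
    |f s - f 0| ≤ B * |g s - g 0| := by
  have h1 : Monotone fun s => B * g s - f s := by
    have hd : ∀ s, HasDerivAt (fun s => B * g s - f s) (B * g' s - f' s) s := fun s =>
      ((hg s).const_mul B).sub (hf s)
    refine monotone_of_deriv_nonneg (fun s => (hd s).differentiableAt) fun s => ?_
    rw [(hd s).deriv]
    linarith [le_abs_self (f' s), h s]
  have h2 : Monotone fun s => B * g s + f s := by
    have hd : ∀ s, HasDerivAt (fun s => B * g s + f s) (B * g' s + f' s) s := fun s =>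
      ((hg s).const_mul B).add (hf s)
    refine monotone_of_deriv_nonneg (fun s => (hd s).differentiableAt) fun s => ?_
    rw [(hd s).deriv]
    linarith [neg_abs_le (f' s), h s]
  rcases le_total 0 s with hs | hs
  · have e1 := h1 hs
    have e2 := h2 hs
    simp only at e1 e2
    have e3 : B * (g s - g 0) ≤ B * |g s - g 0| := by
      gcongr; exact le_abs_self _
    rw [abs_le]
    constructor <;> linarith
  · have e1 := h1 hs
    have e2 := h2 hs
    simp only at e1 e2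
    have e3 : B * (-(g s - g 0)) ≤ B * |g s - g 0| := by
      gcongr; exact neg_le_abs _
    rw [abs_le]
    constructor <;> linarith

/-- growth along an orbit on which `J ^ 2 ≤ C √I` -/
theorem growth (hN : 2 ≤ N) (m : Fin N → ℝ) (hm : ∀ i, 0 < m i) (E : ℝ)
    (ψ : Cfg N × Cfg N → ℝ)
    (φ : ℝ → Cfg N × Cfg N → Cfg N × Cfg N) (hφ : IsFl m E ψ φ) (x : Cfg N × Cfg N)
    (hx : x ∈ Surf m E) (C : ℝ) (hC : 0 < C)
    (h : ∀ s, (LJ m (φ s x)) ^ 2 ≤ C * Real.sqrt (In m (φ s x).1)) (s : ℝ) :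
    |(In m (φ s x).1) ^ (3 / 4 : ℝ) - (In m x.1) ^ (3 / 4 : ℝ)| ≤
      3 / 2 * Real.sqrt C * |tau ψ φ x s| := by
  have hI : ∀ s, 0 < In m (φ s x).1 := fun s =>
    In_pos hN m hm _ (surf_free m E ((hφ.flow x hx).2 s).1)
  have hf : ∀ s, HasDerivAt (fun s => (In m (φ s x).1) ^ (3 / 4 : ℝ))
      (2 * (ψ (φ s x) * LJ m (φ s x)) * (3 / 4 : ℝ) * (In m (φ s x).1) ^ ((3 / 4 : ℝ) - 1)) s :=
    fun s => (In_der m hm E ψ φ hφ x hx s).rpow_const (Or.inl (hI s).ne')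
  have hψ : ∀ s, 0 < ψ (φ s x) := fun s => hφ.pos _ (surf_free m E ((hφ.flow x hx).2 s).1)
  have h1 := compare _ _ _ _ (3 / 2 * Real.sqrt C) (by positivity) hf
    (tau_der m E ψ φ hφ x hx) (by
      intro s
      have e1 := h s
      have e2 := hI s
      have e3 : |LJ m (φ s x)| ≤ Real.sqrt C * (In m (φ s x).1) ^ (1 / 4 : ℝ) := by
        refine (pow_le_pow_iff_left₀ (abs_nonneg _) (by positivity) two_ne_zero).1 ?_
        rw [sq_abs, mul_pow, Real.sq_sqrt hC.le, ← Real.rpow_natCast, ← Real.rpow_natCast,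
          ← Real.rpow_mul e2.le]
        rw [Real.sqrt_eq_rpow] at e1
        have : (1 / 4 : ℝ) * ((2 : ℕ) : ℝ) = 1 / 2 := by norm_num
        rw [this]
        exact_mod_cast e1
      have e4 : (In m (φ s x).1) ^ (1 / 4 : ℝ) * (In m (φ s x).1) ^ ((3 / 4 : ℝ) - 1) = 1 := by
        rw [← Real.rpow_add e2]; norm_num
      rw [abs_mul, abs_mul, abs_mul, abs_mul, abs_of_pos (hψ s), abs_of_pos (Real.rpow_pos_of_pos
        e2 ((3 / 4 : ℝ) - 1)), abs_of_pos (by norm_num : (0:ℝ) < 2),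
        abs_of_pos (by norm_num : (0:ℝ) < 3 / 4)]
      have e5 := (hψ s).le
      calc 2 * (ψ (φ s x) * |LJ m (φ s x)|) * (3 / 4) * (In m (φ s x).1) ^ ((3 / 4 : ℝ) - 1)
          ≤ 2 * (ψ (φ s x) * (Real.sqrt C * (In m (φ s x).1) ^ (1 / 4 : ℝ))) * (3 / 4) *
            (In m (φ s x).1) ^ ((3 / 4 : ℝ) - 1) := by gcongr
        _ = 3 / 2 * Real.sqrt C * ψ (φ s x) * ((In m (φ s x).1) ^ (1 / 4 : ℝ) *
            (In m (φ s x).1) ^ ((3 / 4 : ℝ) - 1)) := by ring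
        _ = _ := by rw [e4, mul_one]) s
  have h0 : φ 0 x = x := (hφ.flow x hx).1
  have ht0 : tau ψ φ x 0 = 0 := by unfold tau; simp
  simpa only [h0, ht0, sub_zero] using h1

/-- the virial theorem with a rate along such an orbit -/
theorem viri (hN : 2 ≤ N) (m : Fin N → ℝ) (hm : ∀ i, 0 < m i) (E : ℝ)
    (ψ : Cfg N × Cfg N → ℝ)
    (φ : ℝ → Cfg N × Cfg N → Cfg N × Cfg N) (hφ : IsFl m E ψ φ) (x : Cfg N × Cfg N)
    (hx : x ∈ Surf m E) (C : ℝ) (hC : 0 < C)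
    (h : ∀ s, (LJ m (φ s x)) ^ 2 ≤ C * Real.sqrt (In m (φ s x).1)) (s : ℝ) :
    |LJ m (φ s x) - LJ m x| ≤ 2 * (Real.sqrt C + C) *
      ((In m x.1) ^ (1 / 4 : ℝ) + |tau ψ φ x s| ^ (1 / 3 : ℝ)) := by
  have hg := growth hN m hm E ψ φ hφ x hx C hC h s
  have hI : ∀ s, 0 < In m (φ s x).1 := fun s =>
    In_pos hN m hm _ (surf_free m E ((hφ.flow x hx).2 s).1)
  have hbound : ∀ s, |LJ m (φ s x)| ≤ Real.sqrt C * (In m (φ s x).1) ^ (1 / 4 : ℝ) := by
    intro s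
    have e1 := h s
    have e2 := hI s
    refine (pow_le_pow_iff_left₀ (abs_nonneg _) (by positivity) two_ne_zero).1 ?_
    rw [sq_abs, mul_pow, Real.sq_sqrt hC.le, ← Real.rpow_natCast, ← Real.rpow_natCast,
      ← Real.rpow_mul e2.le]
    rw [Real.sqrt_eq_rpow] at e1
    have : (1 / 4 : ℝ) * ((2 : ℕ) : ℝ) = 1 / 2 := by norm_num
    rw [this]
    exact_mod_cast e1
  have h0 : φ 0 x = x := (hφ.flow x hx).1
  have hb0 := hbound 0
  rw [h0] at hb0
  have hbs := hbound s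
  have hI0 : 0 < In m x.1 := by have := hI 0; rwa [h0] at this
  obtain ⟨y, hy⟩ : ∃ y, y = (In m (φ s x).1) ^ (1 / 4 : ℝ) := ⟨_, rfl⟩
  obtain ⟨z, hz⟩ : ∃ z, z = (In m x.1) ^ (1 / 4 : ℝ) := ⟨_, rfl⟩
  obtain ⟨k, hk⟩ : ∃ k, k = Real.sqrt C := ⟨_, rfl⟩
  obtain ⟨w, hw⟩ : ∃ w, w = |tau ψ φ x s| ^ (1 / 3 : ℝ) := ⟨_, rfl⟩
  have hy0 : 0 ≤ y := by rw [hy]; have := (hI s).le; positivity
  have hz0 : 0 ≤ z := by rw [hz]; positivity
  have hk0 : 0 ≤ k := by rw [hk]; positivity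
  have hk2 : k ^ 2 = C := by rw [hk]; exact Real.sq_sqrt hC.le
  have hw0 : 0 ≤ w := by rw [hw]; positivity
  have hw3 : |tau ψ φ x s| = w ^ 3 := by
    rw [hw, ← Real.rpow_natCast, ← Real.rpow_mul (abs_nonneg _)]; norm_num
  have hy3 : (In m (φ s x).1) ^ (3 / 4 : ℝ) = y ^ 3 := by
    rw [hy, ← Real.rpow_natCast, ← Real.rpow_mul (hI s).le]; norm_num
  have hz3 : (In m x.1) ^ (3 / 4 : ℝ) = z ^ 3 := by
    rw [hz, ← Real.rpow_natCast, ← Real.rpow_mul hI0.le]; norm_num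
  rw [hy3, hz3, hw3, ← hk] at hg
  rw [← hk, ← hy] at hbs
  rw [← hk, ← hz] at hb0
  rw [← hk, ← hz, ← hw, ← hk2]
  -- `y ≤ z + (1 + k) w`
  have hyz : y ≤ z + (1 + k) * w := by
    refine (pow_le_pow_iff_left₀ hy0 (by positivity) (n := 3) (by norm_num)).1 ?_
    have e1 : y ^ 3 ≤ z ^ 3 + 3 / 2 * k * w ^ 3 := by
      have := (abs_le.1 hg).2
      linarith
    have e2 : z ^ 3 + ((1 + k) * w) ^ 3 ≤ (z + (1 + k) * w) ^ 3 := by
      have h3 : (z + (1 + k) * w) ^ 3 = z ^ 3 + ((1 + k) * w) ^ 3 +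
          3 * z * ((1 + k) * w) * (z + (1 + k) * w) := by ring
      rw [h3]
      have : 0 ≤ 3 * z * ((1 + k) * w) * (z + (1 + k) * w) := by positivity
      linarith
    have e3 : 3 / 2 * k * w ^ 3 ≤ ((1 + k) * w) ^ 3 := by
      rw [mul_pow]
      have : 3 / 2 * k ≤ (1 + k) ^ 3 := by nlinarith [sq_nonneg k, mul_nonneg hk0 (sq_nonneg k)]
      gcongr
    linarith
  have e1 : |LJ m (φ s x) - LJ m x| ≤ k * y + k * z := by
    refine (abs_sub _ _).trans ?_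
    linarith
  have e2 : k * y ≤ k * (z + (1 + k) * w) := by gcongr
  have e3 : 0 ≤ k ^ 2 * z := by positivity
  have e4 : 0 ≤ k * w := by positivity
  have e5 : 0 ≤ k ^ 2 * w := by positivity
  nlinarith

/-- the integral of `T + E` in physical time -/
theorem LJ_int (m : Fin N → ℝ) (hm : ∀ i, 0 < m i) (E : ℝ) (ψ : Cfg N × Cfg N → ℝ)
    (φ : ℝ → Cfg N × Cfg N → Cfg N × Cfg N) (hφ : IsFl m E ψ φ) (x : Cfg N × Cfg N)
    (hx : x ∈ Surf m E) (s : ℝ) :
    ∫ u in (0:ℝ)..s, ψ (φ u x) * (Ki m (φ u x) + E) = LJ m (φ s x) - LJ m x := by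
  have h0 : φ 0 x = x := (hφ.flow x hx).1
  have hcont : Continuous fun t => φ t x :=
    continuous_iff_continuousAt.mpr fun t => ((hφ.flow x hx).2 t).2.continuousAt
  have hK : Continuous (Ki m : Cfg N × Cfg N → ℝ) := by
    unfold Ki
    refine continuous_finsetSum _ fun i _ => ?_
    have h2 : Continuous fun x : Cfg N × Cfg N => vel m x i :=
      (((continuous_apply i).comp continuous_snd).const_smul ((m i)⁻¹))
    exact (continuous_const.mul (h2.norm.pow 2)).div_const 2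
  have h1 := intervalIntegral.integral_eq_sub_of_hasDerivAt
    (f := fun s => LJ m (φ s x)) (f' := fun s => ψ (φ s x) * (Ki m (φ s x) + E))
    (a := 0) (b := s) (fun u _ => LJ_der m hm E ψ φ hφ x hx u)
    (((psi_cont m E ψ φ hφ x hx).mul
      ((hK.comp hcont).add continuous_const)).intervalIntegrable _ _)
  rw [h1, h0]

end Pool.Agent.T6.H53.NB
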