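import Pool.Agent.T6.H53.NB.Esc
import Pool.Agent.T6.H53.NB.Orb

set_option autoImplicit false

/-! Points with small moment of inertia, compared with the angular momentum, are wandering. -/

namespace Pool.Agent.T6.H53.NB

open Set Filter Topology Pool.Agent.Y516.NW Pool.Agent.Y438.NW MeasureTheory

variable {N : ℕ}

theorem In_cont (m : Fin N → ℝ) : Continuous fun x : Cfg N × Cfg N => In m x.1 := by
  unfold In
  refine continuous_finsetSum _ fun i _ => continuous_const.mul ?_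
  have h1 : Continuous fun x : Cfg N × Cfg N => x.1 i := (continuous_apply i).comp continuous_fst
  exact h1.norm.pow 2

theorem comp_cont (a b : Fin 3) : Continuous fun x : Cfg N × Cfg N => comp a b x := by
  unfold comp
  have h1 : ∀ (i : Fin N) (k : Fin 3), Continuous fun x : Cfg N × Cfg N => x.1 i k := fun i k =>
    (EuclideanSpace.proj (𝕜 := ℝ) k : E3 →L[ℝ] ℝ).continuous.comp
      ((continuous_apply i).comp continuous_fst)
  have h2 : ∀ (i : Fin N) (k : Fin 3), Continuous fun x : Cfg N × Cfg N => x.2 i k := fun i k =>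
    (EuclideanSpace.proj (𝕜 := ℝ) k : E3 →L[ℝ] ℝ).continuous.comp
      ((continuous_apply i).comp continuous_snd)
  exact continuous_finsetSum _ fun i _ => ((h1 i a).mul (h2 i b)).sub ((h1 i b).mul (h2 i a))

theorem ang2_cont : Continuous fun x : Cfg N × Cfg N => ang2 x := by
  unfold ang2
  exact (((comp_cont 1 2).pow 2).add ((comp_cont 2 0).pow 2)).add ((comp_cont 0 1).pow 2)

theorem ang2_nonneg (x : Cfg N × Cfg N) : 0 ≤ ang2 x := by unfold ang2; positivity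

/-- the open condition: small moment of inertia -/
def Small (m : Fin N → ℝ) (C E : ℝ) : Set (Cfg N × Cfg N) :=
  {x | (C + 2 * Real.sqrt (ang2 x * (-2 * E))) * Real.sqrt (In m x.1) < ang2 x}

theorem small_open (m : Fin N → ℝ) (C E : ℝ) : IsOpen (Small m C E) :=
  isOpen_lt ((continuous_const.add (continuous_const.mul
    (ang2_cont.mul continuous_const).sqrt)).mul (In_cont m).sqrt) ang2_cont

/-- the case `J > 0` -/
theorem wandPos (m : Fin 3 → ℝ) (hm : ∀ i, 0 < m i) : ∃ C : ℝ, 0 < C ∧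
    ∀ (E : ℝ), E ≤ 0 → ∀ (ψ : Cfg 3 × Cfg 3 → ℝ) (φ : ℝ → Cfg 3 × Cfg 3 → Cfg 3 × Cfg 3),
      ContDiffOn ℝ ((⊤ : ℕ∞) : WithTop ℕ∞) ψ (Free 3) → IsFl m E ψ φ →
      ∀ x ∈ Surf m E, 0 < LJ m x → x ∈ Small m C E → ¬ NonW (Surf m E) φ x := by
  obtain ⟨C, hC, hesc⟩ := esc m hm
  refine ⟨C, hC, ?_⟩
  intro E hE ψ φ hψs hφ x hx hJx hxS hNW
  have hF := flowOn m E ψ hψs φ hφ
  obtain ⟨V1, hV1o, hxV1, s1, hs1, η, hη, hloc⟩ := Pool.Agent.Y275.NW.loc (Cfg 3 × Cfg 3) (Free 3)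
    (Surf m E) (Z m ψ) ψ φ free_open (surf_free m E) (Z_cont m ψ hφ.cont) hφ.cont hφ.pos hφ.flow x
    (surf_free m E hx)
  have hIx : 0 < In m x.1 := In_pos (by norm_num) m hm x (surf_free m E hx)
  obtain ⟨κ, hκ⟩ : ∃ κ, κ = min (LJ m x * η) (In m x.1 / 2) := ⟨_, rfl⟩
  have hκ0 : 0 < κ := by rw [hκ]; exact lt_min (by positivity) (by positivity)
  have hκ1 : κ ≤ LJ m x * η := by rw [hκ]; exact min_le_left _ _
  have hκ2 : κ ≤ In m x.1 / 2 := by rw [hκ]; exact min_le_right _ _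
  have hgrow : ∀ y ∈ V1 ∩ Surf m E, y ∈ Small m C E → LJ m x / 2 < LJ m y →
      |In m y.1 - In m x.1| < κ / 2 → ∀ t ≥ s1, In m y.1 + κ ≤ In m (φ t y).1 := by
    intro y hy hyS hyJ hyI t ht
    have h0 : φ 0 y = y := (hφ.flow y hy.2).1
    have hsur : ∀ s, φ s y ∈ Surf m E := fun s => ((hφ.flow y hy.2).2 s).1
    have hJ0 : 0 < LJ m y := lt_trans (by positivity) hyJ
    have ht0 : 0 ≤ t := hs1.le.trans ht
    have hτ0 : tau ψ φ y 0 = 0 := by unfold tau; simp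
    have h := orb (fun s => In m (φ s y).1) (fun s => LJ m (φ s y)) (fun s => Ki m (φ s y))
      (fun s => ψ (φ s y)) (tau ψ φ y) E C (ang2 y) hC
      (fun s => In_der m hm E ψ φ hφ y hy.2 s) (fun s => LJ_der m hm E ψ φ hφ y hy.2 s)
      (fun s => tau_der m E ψ φ hφ y hy.2 s) hτ0
      (fun s => hφ.pos _ (surf_free m E (hsur s)))
      (fun s => In_pos (by norm_num) m hm _ (surf_free m E (hsur s)))
      (fun s => by
        have := sundman m hm (φ s y)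
        rwa [ang2_const m hm E ψ φ hφ y hy.2 s] at this)
      (by
        intro s2 hs2 h1 h2 s hs
        have h3 := hesc E hE ψ φ hφ (φ s2 y) (hsur s2) h1 h2 (s - s2) (by linarith)
        rwa [hF.add hy.2, sub_add_cancel] at h3)
      hE (ang2_nonneg y) (by simp only [h0]; exact hJ0) (by simp only [h0]; exact hyS) t ht0
    simp only [h0] at h
    have hτt : η ≤ tau ψ φ y t := hloc y hy (tau ψ φ y) hτ0
      (fun s => tau_der m E ψ φ hφ y hy.2 s) t ht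
    rw [abs_lt] at hyI
    refine le_trans ?_ h
    refine le_min ?_ ?_
    · have e1 : LJ m x * η ≤ 2 * LJ m y * tau ψ φ y t := by
        have e2 : LJ m x ≤ 2 * LJ m y := by linarith
        gcongr
      linarith
    · linarith [hyI.1]
  have hU2 : IsOpen {y : Cfg 3 × Cfg 3 | LJ m x / 2 < LJ m y} :=
    isOpen_lt continuous_const (LJ_cont m)
  have hU3 : IsOpen {y : Cfg 3 × Cfg 3 | |In m y.1 - In m x.1| < κ / 2} :=
    isOpen_lt (((In_cont m).sub continuous_const).abs) continuous_const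
  obtain ⟨t, ht, y, ⟨⟨⟨⟨hy1, hy2⟩, hy3⟩, hy4⟩, hyS⟩, ⟨⟨⟨_, _⟩, _⟩, hφy⟩⟩ := hNW
    (((V1 ∩ Small m C E) ∩ {y : Cfg 3 × Cfg 3 | LJ m x / 2 < LJ m y}) ∩
      {y : Cfg 3 × Cfg 3 | |In m y.1 - In m x.1| < κ / 2})
    (((hV1o.inter (small_open m C E)).inter hU2).inter hU3)
    ⟨⟨⟨hxV1, hxS⟩, by show LJ m x / 2 < LJ m x; linarith⟩, by
      show |In m x.1 - In m x.1| < κ / 2
      rw [sub_self, abs_zero]; positivity⟩ s1
  have h1 := hgrow y ⟨hy1, hyS⟩ hy2 hy3 hy4 t ht.le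
  have h2 : |In m y.1 - In m x.1| < κ / 2 := hy4
  have h3 : |In m (φ t y).1 - In m x.1| < κ / 2 := hφy
  rw [abs_lt] at h2 h3
  linarith [h2.1, h2.2, h3.1, h3.2]

/-- time reversal -/
def rev (x : Cfg N × Cfg N) : Cfg N × Cfg N := (x.1, -x.2)

theorem rev_rev (x : Cfg N × Cfg N) : rev (rev x) = x := by simp [rev]

theorem rev_cont : Continuous (rev : Cfg N × Cfg N → Cfg N × Cfg N) :=
  continuous_fst.prodMk continuous_snd.neg

theorem rev_surf (m : Fin N → ℝ) (E : ℝ) (x : Cfg N × Cfg N) (hx : x ∈ Surf m E) :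
    rev x ∈ Surf m E := by
  refine ⟨hx.1, hx.2.1, ?_, ?_⟩
  · show ∑ i, (-x.2) i = 0
    simp only [Pi.neg_apply, Finset.sum_neg_distrib]
    rw [hx.2.2.1, neg_zero]
  · rw [← hx.2.2.2]
    simp [rev]

theorem rev_free (x : Cfg N × Cfg N) (hx : x ∈ Free N) : rev x ∈ Free N := hx

theorem rev_Z (m : Fin N → ℝ) (ψ : Cfg N × Cfg N → ℝ) (x : Cfg N × Cfg N) :
    -rev (Z m ψ x) = Z m (fun y => ψ (rev y)) (rev x) := by
  unfold Z
  simp only [rev_rev]
  ext1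
  · show -(ψ x • (fun i => (m i)⁻¹ • x.2 i)) = ψ x • (fun i => (m i)⁻¹ • (-x.2) i)
    funext i
    simp
  · show -(-(ψ x • _)) = ψ x • _
    rw [neg_neg]
    rfl

theorem rev_fl (m : Fin N → ℝ) (E : ℝ) (ψ : Cfg N × Cfg N → ℝ)
    (φ : ℝ → Cfg N × Cfg N → Cfg N × Cfg N) (hφ : IsFl m E ψ φ) :
    IsFl m E (fun y => ψ (rev y)) (fun t x => rev (φ (-t) (rev x))) := by
  refine ⟨hφ.cont.comp rev_cont.continuousOn (fun x hx => rev_free x hx),
    fun x hx => hφ.pos _ (rev_free x hx), ?_⟩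
  intro x hx
  have hfl := hφ.flow (rev x) (rev_surf m E x hx)
  refine ⟨?_, fun t => ⟨rev_surf m E _ (hfl.2 _).1, ?_⟩⟩
  · show rev (φ (-0) (rev x)) = x
    rw [neg_zero, hfl.1, rev_rev]
  · have h1 : HasDerivAt (fun t => φ (-t) (rev x)) ((-1 : ℝ) • Z m ψ (φ (-t) (rev x))) t :=
      (hfl.2 (-t)).2.scomp t (hasDerivAt_neg t)
    obtain ⟨Lr, hLr⟩ : ∃ Lr : (Cfg N × Cfg N) →L[ℝ] (Cfg N × Cfg N), ∀ x, Lr x = rev x :=
      ⟨(ContinuousLinearMap.fst ℝ (Cfg N) (Cfg N)).prod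
        (-(ContinuousLinearMap.snd ℝ (Cfg N) (Cfg N))), fun x => rfl⟩
    have h2 := Lr.hasFDerivAt.comp_hasDerivAt t h1
    rw [map_smul, hLr, neg_one_smul, rev_Z] at h2
    refine h2.congr_of_eventuallyEq (Eventually.of_forall fun s => ?_)
    show rev (φ (-s) (rev x)) = Lr (φ (-s) (rev x))
    rw [hLr]

theorem rev_smooth (ψ : Cfg N × Cfg N → ℝ)
    (hψ : ContDiffOn ℝ ((⊤ : ℕ∞) : WithTop ℕ∞) ψ (Free N)) :
    ContDiffOn ℝ ((⊤ : ℕ∞) : WithTop ℕ∞) (fun y => ψ (rev y)) (Free N) :=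
  hψ.comp (contDiff_fst.prodMk contDiff_snd.neg).contDiffOn (fun x hx => rev_free x hx)

theorem rev_nonw (m : Fin N → ℝ) (E : ℝ) (ψ : Cfg N × Cfg N → ℝ)
    (hψ : ContDiffOn ℝ ((⊤ : ℕ∞) : WithTop ℕ∞) ψ (Free N))
    (φ : ℝ → Cfg N × Cfg N → Cfg N × Cfg N) (hφ : IsFl m E ψ φ) (x : Cfg N × Cfg N)
    (h : NonW (Surf m E) φ x) :
    NonW (Surf m E) (fun t x => rev (φ (-t) (rev x))) (rev x) := by
  have hF := flowOn m E ψ hψ φ hφ
  intro V hV hxV T
  obtain ⟨t, ht, y, ⟨hyV, hyS⟩, hφy⟩ := h (rev ⁻¹' V) (hV.preimage rev_cont) hxV T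
  refine ⟨t, ht, rev (φ t y), ⟨hφy, rev_surf m E _ (hF.mem y hyS t)⟩, ?_⟩
  show rev (φ (-t) (rev (rev (φ t y)))) ∈ V
  rw [rev_rev, hF.add hyS, neg_add_cancel, hF.zero y hyS]
  exact hyV

theorem rev_LJ (m : Fin N → ℝ) (x : Cfg N × Cfg N) : LJ m (rev x) = -LJ m x := by
  unfold LJ
  rw [← Finset.sum_neg_distrib]
  refine Finset.sum_congr rfl fun i _ => ?_
  simp [rev, vel]

theorem rev_comp (a b : Fin 3) (x : Cfg N × Cfg N) : comp a b (rev x) = -comp a b x := by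
  unfold comp
  rw [← Finset.sum_neg_distrib]
  refine Finset.sum_congr rfl fun i _ => ?_
  simp [rev]
  ring

theorem rev_ang2 (x : Cfg N × Cfg N) : ang2 (rev x) = ang2 x := by
  unfold ang2
  rw [rev_comp, rev_comp, rev_comp]
  ring

/-- nonwandering points are not in the set `Small` -/
theorem wand4 (m : Fin 3 → ℝ) (hm : ∀ i, 0 < m i) : ∃ C : ℝ, 0 < C ∧
    ∀ (E : ℝ), E ≤ 0 → ∀ (ψ : Cfg 3 × Cfg 3 → ℝ) (φ : ℝ → Cfg 3 × Cfg 3 → Cfg 3 × Cfg 3),
      ContDiffOn ℝ ((⊤ : ℕ∞) : WithTop ℕ∞) ψ (Free 3) → IsFl m E ψ φ →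
      ∀ x ∈ Surf m E, x ∈ Small m C E → ¬ NonW (Surf m E) φ x := by
  obtain ⟨C, hC, hpos⟩ := wandPos m hm
  refine ⟨C, hC, ?_⟩
  intro E hE
  -- the case `J ≥ 0`
  have hnn : ∀ (ψ : Cfg 3 × Cfg 3 → ℝ) (φ : ℝ → Cfg 3 × Cfg 3 → Cfg 3 × Cfg 3),
      ContDiffOn ℝ ((⊤ : ℕ∞) : WithTop ℕ∞) ψ (Free 3) → IsFl m E ψ φ →
      ∀ x ∈ Surf m E, 0 ≤ LJ m x → x ∈ Small m C E → ¬ NonW (Surf m E) φ x := by
    intro ψ φ hψ hφ x hx hJ hxS hNW
    have h0 : φ 0 x = x := (hφ.flow x hx).1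
    have hI : 0 < In m x.1 := In_pos (by norm_num) m hm x (surf_free m E hx)
    have hTE : 0 < Ki m x + E := by
      have h1 := sundman m hm x
      have h2 : (C + 2 * Real.sqrt (ang2 x * (-2 * E))) * Real.sqrt (In m x.1) < ang2 x := hxS
      obtain ⟨c, hc⟩ : ∃ c, c = Real.sqrt (ang2 x) := ⟨_, rfl⟩
      obtain ⟨e, he⟩ : ∃ e, e = Real.sqrt (-2 * E) := ⟨_, rfl⟩
      obtain ⟨r, hr⟩ : ∃ r, r = Real.sqrt (In m x.1) := ⟨_, rfl⟩
      have hr0 : 0 < r := by rw [hr]; exact Real.sqrt_pos.mpr hI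
      have hr2 : In m x.1 = r ^ 2 := by rw [hr]; exact (Real.sq_sqrt hI.le).symm
      have hc0 : 0 ≤ c := by rw [hc]; exact Real.sqrt_nonneg _
      have hc2 : ang2 x = c ^ 2 := by rw [hc]; exact (Real.sq_sqrt (ang2_nonneg x)).symm
      have he0 : 0 ≤ e := by rw [he]; exact Real.sqrt_nonneg _
      have he2 : E = -(e ^ 2) / 2 := by rw [he, Real.sq_sqrt (by linarith)]; ring
      rw [Real.sqrt_mul (ang2_nonneg x), ← hc, ← he, ← hr, hc2] at h2
      rw [hc2, hr2] at h1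
      have h3 : 0 < C * r := by positivity
      have h4 : c * (2 * (r * e)) < c * c := by nlinarith
      have hcpos : 0 < c := by
        rcases eq_or_lt_of_le hc0 with h | h
        · rw [← h] at h4; norm_num at h4
        · exact h
      have h5 := lt_of_mul_lt_mul_left h4 hc0
      have h6 : 0 ≤ r * e := by positivity
      have h7 : (r * e) ^ 2 < c ^ 2 := by
        have : r * e < c := by linarith
        exact pow_lt_pow_left₀ this h6 two_ne_zero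
      have h8 : 0 < r ^ 2 * (2 * (Ki m x + E)) := by
        have e1 : r ^ 2 * (2 * (Ki m x + E)) = r ^ 2 * (2 * Ki m x) - (r * e) ^ 2 := by
          rw [he2]; ring
        rw [e1]
        have := sq_nonneg (LJ m x)
        linarith
      have h9 := (mul_pos_iff_of_pos_left (by positivity : 0 < r ^ 2)).1 h8
      linarith
    have hd := LJ_der m hm E ψ φ hφ x hx 0
    rw [h0] at hd
    have hψx : 0 < ψ x := hφ.pos x (surf_free m E hx)
    have hdpos : 0 < ψ x * (Ki m x + E) := by positivity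
    have hcont : Continuous fun t => φ t x :=
      continuous_iff_continuousAt.mpr fun t => ((hφ.flow x hx).2 t).2.continuousAt
    have ev1 : ∀ᶠ s in 𝓝[>] (0:ℝ), φ s x ∈ Small m C E := by
      have h1 : ∀ᶠ s in 𝓝 (0:ℝ), φ s x ∈ Small m C E :=
        hcont.continuousAt.eventually_mem ((small_open m C E).mem_nhds (by rw [h0]; exact hxS))
      exact h1.filter_mono nhdsWithin_le_nhds
    have ev2 : ∀ᶠ s in 𝓝[>] (0:ℝ), 0 < slope (fun s => LJ m (φ s x)) 0 s := by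
      have h1 := (hasDerivAt_iff_tendsto_slope.1 hd).eventually_const_lt hdpos
      exact h1.filter_mono (nhdsWithin_mono _ (fun y hy => ne_of_gt hy))
    obtain ⟨s, ⟨hs1, hs2⟩, hs0⟩ := ((ev1.and ev2).and self_mem_nhdsWithin).exists
    have hs0' : 0 < s := hs0
    have hJs : 0 < LJ m (φ s x) := by
      rw [slope_def_field] at hs2
      simp only [h0, sub_zero] at hs2
      have h1 := (div_pos_iff_of_pos_right hs0').1 hs2
      linarith
    exact hpos E hE ψ φ hψ hφ (φ s x) ((hφ.flow x hx).2 s).1 hJs hs1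
      (nonw m E ψ hψ φ hφ x hx hNW s)
  intro ψ φ hψ hφ x hx hxS hNW
  rcases le_total 0 (LJ m x) with hJ | hJ
  · exact hnn ψ φ hψ hφ x hx hJ hxS hNW
  · refine hnn (fun y => ψ (rev y)) (fun t x => rev (φ (-t) (rev x))) (rev_smooth ψ hψ)
      (rev_fl m E ψ φ hφ) (rev x) (rev_surf m E x hx) (by rw [rev_LJ]; linarith) ?_
      (rev_nonw m E ψ hψ φ hφ x hNW)
    show (C + 2 * Real.sqrt (ang2 (rev x) * (-2 * E))) * Real.sqrt (In m (rev x).1) < ang2 (rev x)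
    rw [rev_ang2]
    exact hxS

end Pool.Agent.T6.H53.NB
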